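import Pool.Agent.Rect.Perc.Defs

/-!
Building up a diagonal rectangle tile by tile: the connections of the vertices of the current line.

Regions of the line are numbered from left to right; the vertices are the odd regions.  `tl i`: the
tile of column `i`; for odd `i` an open edge joins the regions `i` and `i+2`, for even `i` a closed
edge makes the region `i+1` isolated.
-/

set_option autoImplicit false

namespace H47Perc.RC
open Finset H47Perc

/-! ### operations on relations -/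

section ops
variable {α : Type*}

/-- join `a` and `b` -/
def jnr (r : α → α → Prop) (a b x y : α) : Prop := r x y ∨ (r x a ∧ r b y) ∨ (r x b ∧ r a y)

/-- make `a` isolated -/
def isr (r : α → α → Prop) (a x y : α) : Prop := x = y ∨ (x ≠ a ∧ y ≠ a ∧ r x y)

end ops

/-- interpretation of the three moves in a type of states -/
structure Interp (σ : Type*) where
  up : σ → σ
  dn : σ → σ
  tl : ℕ → Bool → σ → σ

section interp
variable {σ : Type*} (I : Interp σ)

/-- the tiles of the columns `1, ..., k` -/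
def fwd (b : ℕ → Bool) : ℕ → σ → σ
  | 0, s => s
  | k + 1, s => I.tl (k + 1) (b (k + 1)) (fwd b k s)

/-- the tiles of the columns `k, ..., 1` -/
def bwd (b : ℕ → Bool) : ℕ → σ → σ
  | 0, s => s
  | k + 1, s => bwd b k (I.tl (k + 1) (b (k + 1)) s)

/-- one double row of `N` columns -/
def drow (N : ℕ) (b b' : ℕ → Bool) (s : σ) : σ := I.dn (bwd I b' N (fwd I b N (I.up s)))

/-- `M` double rows -/
def drows (N : ℕ) (b : ℕ → ℕ → Bool) : ℕ → σ → σ
  | 0, s => s
  | M + 1, s => drow I N (b (2 * M + 1)) (b (2 * M + 2)) (drows N b M s)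

end interp

/-- the relations on the regions; `none` is the lower side -/
abbrev Rl := Option ℕ → Option ℕ → Prop

/-- a new isolated region `1`, all others are shifted by two -/
def upR (R : Rl) : Rl := fun x y => x = y ∨
  ∃ x' y' : Option ℕ, x = x'.map (· + 2) ∧ y = y'.map (· + 2) ∧ R x' y'

/-- the region `1` is forgotten -/
def dnR (R : Rl) : Rl := fun x y => R (x.map (· + 2)) (y.map (· + 2))

/-- a tile -/
def tlR (i : ℕ) (b : Bool) (R : Rl) : Rl :=
  if i % 2 = 1 then (if b then jnr R (some i) (some (i + 2)) else R)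
  else (if b then R else isr R (some (i + 1)))

/-- the interpretation by relations -/
def IR : Interp Rl := ⟨upR, dnR, tlR⟩

/-! ### connectivity in a configuration with a wired set -/

/-- connectivity in `ω`, where all points of `A` are identified -/
def cs (A : Set (ℤ × ℤ)) (ω : Finset (Sym2 (ℤ × ℤ))) : Setoid (ℤ × ℤ) :=
  Relation.EqvGen.setoid (fun u v => s(u, v) ∈ ω ∨ (u ∈ A ∧ v ∈ A))

lemma cs_edge {A : Set (ℤ × ℤ)} {ω : Finset (Sym2 (ℤ × ℤ))} {u v : ℤ × ℤ} (h : s(u, v) ∈ ω) :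
    cs A ω u v := Relation.EqvGen.rel _ _ (Or.inl h)

lemma cs_wall {A : Set (ℤ × ℤ)} {ω : Finset (Sym2 (ℤ × ℤ))} {u v : ℤ × ℤ} (h : u ∈ A)
    (h' : v ∈ A) : cs A ω u v := Relation.EqvGen.rel _ _ (Or.inr ⟨h, h'⟩)

lemma cs_le_iff {A : Set (ℤ × ℤ)} {ω : Finset (Sym2 (ℤ × ℤ))} {S : Setoid (ℤ × ℤ)} :
    cs A ω ≤ S ↔ (∀ u v, s(u, v) ∈ ω → S u v) ∧ ∀ u v : ℤ × ℤ, u ∈ A → v ∈ A → S u v := by
  constructor
  · intro h
    exact ⟨fun u v h' => h (cs_edge h'), fun u v h1 h2 => h (cs_wall h1 h2)⟩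
  · rintro ⟨h1, h2⟩
    apply Setoid.eqvGen_le
    rintro x y (h | ⟨h, h'⟩)
    · exact h1 x y h
    · exact h2 x y h h'

lemma cs_mono {A : Set (ℤ × ℤ)} {ω ω' : Finset (Sym2 (ℤ × ℤ))} (h : ω ⊆ ω') : cs A ω ≤ cs A ω' :=
  cs_le_iff.2 ⟨fun _ _ h1 => cs_edge (h h1), fun _ _ h1 h2 => cs_wall h1 h2⟩

lemma cs_isolated {A : Set (ℤ × ℤ)} {ω : Finset (Sym2 (ℤ × ℤ))} {v : ℤ × ℤ} (h1 : ∀ u, s(v, u) ∉ ω)
    (h2 : v ∉ A) {u : ℤ × ℤ} (h : cs A ω v u) : u = v := by
  let S : Setoid (ℤ × ℤ) :=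
    { r := fun x y => x = y ∨ (x ≠ v ∧ y ≠ v)
      iseqv := by
        refine ⟨fun x => Or.inl rfl, ?_, ?_⟩
        · rintro x y (rfl | ⟨h1, h2⟩)
          · exact Or.inl rfl
          · exact Or.inr ⟨h2, h1⟩
        · rintro x y z (rfl | ⟨h1, h2⟩) (rfl | ⟨h3, h4⟩)
          · exact Or.inl rfl
          · exact Or.inr ⟨h3, h4⟩
          · exact Or.inr ⟨h1, h2⟩
          · exact Or.inr ⟨h1, h4⟩ }
  have hS : cs A ω ≤ S := by
    rw [cs_le_iff]
    refine ⟨fun x y he => ?_, fun x y hx hy => ?_⟩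
    · refine Or.inr ⟨?_, ?_⟩
      · rintro rfl
        exact h1 _ he
      · rintro rfl
        rw [Sym2.eq_swap] at he
        exact h1 _ he
    · refine Or.inr ⟨?_, ?_⟩
      · rintro rfl
        exact h2 hx
      · rintro rfl
        exact h2 hy
  rcases hS h with h | ⟨h, _⟩
  · exact h.symm
  · exact absurd rfl h

/-- the join of two classes is an equivalence relation -/
def jnS (S : Setoid (ℤ × ℤ)) (a b : ℤ × ℤ) : Setoid (ℤ × ℤ) where
  r := jnr S a b
  iseqv := by
    refine ⟨fun x => Or.inl (S.refl' x), ?_, ?_⟩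
    · rintro x y (h | ⟨h1, h2⟩ | ⟨h1, h2⟩)
      · exact Or.inl (S.symm' h)
      · exact Or.inr (Or.inr ⟨S.symm' h2, S.symm' h1⟩)
      · exact Or.inr (Or.inl ⟨S.symm' h2, S.symm' h1⟩)
    · rintro x y z (h | ⟨h1, h2⟩ | ⟨h1, h2⟩) (h' | ⟨h3, h4⟩ | ⟨h3, h4⟩)
      · exact Or.inl (S.trans' h h')
      · exact Or.inr (Or.inl ⟨S.trans' h h3, h4⟩)
      · exact Or.inr (Or.inr ⟨S.trans' h h3, h4⟩)
      · exact Or.inr (Or.inl ⟨h1, S.trans' h2 h'⟩)
      · exact Or.inr (Or.inl ⟨h1, h4⟩)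
      · exact Or.inl (S.trans' h1 h4)
      · exact Or.inr (Or.inr ⟨h1, S.trans' h2 h'⟩)
      · exact Or.inl (S.trans' h1 h4)
      · exact Or.inr (Or.inr ⟨h1, h4⟩)

/-- one more open edge -/
lemma cs_insert {A : Set (ℤ × ℤ)} {ω : Finset (Sym2 (ℤ × ℤ))} {a b x y : ℤ × ℤ} :
    cs A (insert s(a, b) ω) x y ↔ jnr (cs A ω) a b x y := by
  constructor
  · intro h
    have hle : cs A (insert s(a, b) ω) ≤ jnS (cs A ω) a b := by
      rw [cs_le_iff]
      refine ⟨fun u v h => ?_, fun u v h1 h2 => Or.inl (cs_wall h1 h2)⟩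
      rw [mem_insert, Sym2.eq_iff] at h
      rcases h with (⟨rfl, rfl⟩ | ⟨rfl, rfl⟩) | h
      · exact Or.inr (Or.inl ⟨(cs A ω).refl' _, (cs A ω).refl' _⟩)
      · exact Or.inr (Or.inr ⟨(cs A ω).refl' _, (cs A ω).refl' _⟩)
      · exact Or.inl (cs_edge h)
    exact hle h
  · have hm : cs A ω ≤ cs A (insert s(a, b) ω) := cs_mono (subset_insert _ _)
    have he : cs A (insert s(a, b) ω) a b := cs_edge (mem_insert_self _ _)
    rintro (h | ⟨h1, h2⟩ | ⟨h1, h2⟩)
    · exact hm h
    · exact (cs A _).trans' (hm h1) ((cs A _).trans' he (hm h2))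
    · exact (cs A _).trans' (hm h1) ((cs A _).trans' ((cs A _).symm' he) (hm h2))

/-! ### the invariant -/

/-- the lower side (wired) -/
def Lo : Set (ℤ × ℤ) := {z | z.1 - z.2 = 1}

/-- the domain: the lower side and the odd regions `< K` -/
def Dm (K : ℕ) : Option ℕ → Prop
  | none => True
  | some j => j % 2 = 1 ∧ j < K

/-- the vertex of a region -/
def ps (ℓ : ℕ → ℤ × ℤ) : Option ℕ → ℤ × ℤ
  | none => (1, 0)
  | some j => ℓ j

/-- the relation `R` describes the connections in the configuration `F` between the vertices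
`ℓ j` of the line, all vertices used so far satisfy `bd` -/
structure Inv (F : Finset (Sym2 (ℤ × ℤ))) (bd : ℤ × ℤ → Prop) (K : ℕ) (ℓ : ℕ → ℤ × ℤ) (R : Rl) :
    Prop where
  edge : ∀ e ∈ F, ∀ v ∈ e, bd v
  pos : ∀ x, Dm K x → bd (ps ℓ x)
  rel : ∀ x y, Dm K x → Dm K y → (R x y ↔ cs Lo F (ps ℓ x) (ps ℓ y))

lemma Inv.mono {F : Finset (Sym2 (ℤ × ℤ))} {bd bd' : ℤ × ℤ → Prop} {K : ℕ} {ℓ : ℕ → ℤ × ℤ} {R : Rl}
    (h : Inv F bd K ℓ R) (hb : ∀ v, bd v → bd' v) : Inv F bd' K ℓ R :=
  ⟨fun e he v hv => hb v (h.edge e he v hv), fun x hx => hb _ (h.pos x hx), h.rel⟩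

lemma Inv.congr {F : Finset (Sym2 (ℤ × ℤ))} {bd : ℤ × ℤ → Prop} {K : ℕ} {ℓ ℓ' : ℕ → ℤ × ℤ} {R : Rl}
    (h : Inv F bd K ℓ R) (hl : ∀ j, j % 2 = 1 → j < K → ℓ j = ℓ' j) : Inv F bd K ℓ' R := by
  have e : ∀ x, Dm K x → ps ℓ x = ps ℓ' x := by
    intro x hx
    rcases x with _ | j
    · rfl
    · exact hl j hx.1 hx.2
  refine ⟨h.edge, fun x hx => ?_, fun x y hx hy => ?_⟩
  · rw [← e x hx]
    exact h.pos x hx
  · rw [← e x hx, ← e y hy]
    exact h.rel x y hx hy

/-- odd column: the edge joins two vertices of the line -/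
lemma Inv.join {F : Finset (Sym2 (ℤ × ℤ))} {bd : ℤ × ℤ → Prop} {K : ℕ} {ℓ : ℕ → ℤ × ℤ} {R : Rl}
    (h : Inv F bd K ℓ R) {i : ℕ} (hi : i % 2 = 1) (hK : i + 2 < K) (b : Bool) :
    Inv (if b then insert s(ℓ i, ℓ (i + 2)) F else F) bd K ℓ (tlR i b R) := by
  unfold tlR
  rw [if_pos hi]
  cases b with
  | false => simpa using h
  | true =>
    simp only [if_true]
    have h1 : Dm K (some i) := ⟨hi, by omega⟩
    have h2 : Dm K (some (i + 2)) := ⟨by omega, hK⟩
    refine ⟨?_, h.pos, fun x y hx hy => ?_⟩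
    · intro e he v hv
      rw [mem_insert] at he
      rcases he with rfl | he
      · rw [Sym2.mem_iff] at hv
        rcases hv with rfl | rfl
        · exact h.pos _ h1
        · exact h.pos _ h2
      · exact h.edge e he v hv
    · rw [cs_insert]
      unfold jnr
      rw [h.rel x y hx hy, h.rel x _ hx h1, h.rel _ y h2 hy, h.rel x _ hx h2, h.rel _ y h1 hy]
      rfl

lemma cs_pendant {A : Set (ℤ × ℤ)} {F : Finset (Sym2 (ℤ × ℤ))} {a z x y : ℤ × ℤ}
    (hz : ∀ u, cs A F z u → u = z) (hx : x ≠ z) (hy : y ≠ z) :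
    cs A (insert s(a, z) F) x y ↔ cs A F x y := by
  rw [cs_insert]
  constructor
  · rintro (h | ⟨_, h2⟩ | ⟨h1, _⟩)
    · exact h
    · exact absurd (hz _ h2) hy
    · exact absurd (hz _ ((cs A F).symm' h1)) hx
  · exact Or.inl

lemma cs_pendant' {A : Set (ℤ × ℤ)} {F : Finset (Sym2 (ℤ × ℤ))} {a z y : ℤ × ℤ}
    (hz : ∀ u, cs A F z u → u = z) (hy : y ≠ z) :
    cs A (insert s(a, z) F) z y ↔ cs A F a y := by
  rw [cs_insert]
  constructor
  · rintro (h | ⟨_, h2⟩ | ⟨_, h2⟩)
    · exact absurd (hz _ h) hy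
    · exact absurd (hz _ h2) hy
    · exact h2
  · exact fun h => Or.inr (Or.inr ⟨(cs A F).refl' _, h⟩)

/-- even column: a new vertex -/
lemma Inv.move {F : Finset (Sym2 (ℤ × ℤ))} {bd : ℤ × ℤ → Prop} {K : ℕ} {ℓ ℓ' : ℕ → ℤ × ℤ} {R : Rl}
    (h : Inv F bd K ℓ R) {i : ℕ} (hi : i % 2 = 0) (hK : i + 1 < K) (b : Bool) {z : ℤ × ℤ}
    (hz : ¬ bd z) (hz2 : z ∉ Lo) (hl1 : ℓ' (i + 1) = z)
    (hl2 : ∀ j, j % 2 = 1 → j < K → j ≠ i + 1 → ℓ' j = ℓ j) :
    Inv (if b then insert s(ℓ (i + 1), z) F else F) (fun v => bd v ∨ v = z) K ℓ' (tlR i b R) := by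
  have hm : Dm K (some (i + 1)) := ⟨by omega, hK⟩
  have hp : ∀ x, Dm K x → x ≠ some (i + 1) → ps ℓ' x = ps ℓ x := by
    intro x hx hx2
    rcases x with _ | j
    · rfl
    · exact hl2 j hx.1 hx.2 (fun h => hx2 (by rw [h]))
  have hpm : ps ℓ' (some (i + 1)) = z := hl1
  have hne : ∀ x, Dm K x → ps ℓ x ≠ z := fun x hx h1 => hz (h1 ▸ h.pos x hx)
  have hiso : ∀ u, cs Lo F z u → u = z := by
    intro u hu
    refine cs_isolated (fun v hv => hz (h.edge _ hv z ?_)) hz2 hu
    rw [Sym2.mem_iff]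
    exact Or.inl rfl
  refine ⟨?_, ?_, ?_⟩
  · intro e he v hv
    cases b with
    | false => exact Or.inl (h.edge e (by simpa using he) v hv)
    | true =>
      simp only [if_true, mem_insert] at he
      rcases he with rfl | he
      · rw [Sym2.mem_iff] at hv
        rcases hv with rfl | rfl
        · exact Or.inl (h.pos _ hm)
        · exact Or.inr rfl
      · exact Or.inl (h.edge e he v hv)
  · intro x hx
    by_cases hx2 : x = some (i + 1)
    · rw [hx2, hpm]; exact Or.inr rfl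
    · rw [hp x hx hx2]; exact Or.inl (h.pos x hx)
  · intro x y hx hy
    unfold tlR
    rw [if_neg (by omega)]
    cases b with
    | false =>
      simp only [Bool.false_eq_true, if_false]
      unfold isr
      by_cases hx2 : x = some (i + 1)
      · subst hx2
        rw [hpm]
        by_cases hy2 : y = some (i + 1)
        · subst hy2
          rw [hpm]
          exact ⟨fun _ => (cs Lo F).refl' _, fun _ => Or.inl rfl⟩
        · rw [hp y hy hy2]
          constructor
          · rintro (h1 | ⟨h1, _⟩)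
            · exact absurd h1.symm hy2
            · exact absurd rfl h1
          · intro h1
            exact absurd (hiso _ h1) (hne y hy)
      · rw [hp x hx hx2]
        by_cases hy2 : y = some (i + 1)
        · subst hy2
          rw [hpm]
          constructor
          · rintro (h1 | ⟨_, h1, _⟩)
            · exact absurd h1 hx2
            · exact absurd rfl h1
          · intro h1
            exact absurd (hiso _ ((cs Lo F).symm' h1)) (hne x hx)
        · rw [hp y hy hy2, ← h.rel x y hx hy]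
          constructor
          · rintro (h1 | ⟨_, _, h1⟩)
            · subst h1
              rw [h.rel x x hx hx]
            · exact h1
          · exact fun h1 => Or.inr ⟨hx2, hy2, h1⟩
    | true =>
      simp only [if_true]
      rw [h.rel x y hx hy]
      by_cases hx2 : x = some (i + 1)
      · subst hx2
        rw [hpm]
        by_cases hy2 : y = some (i + 1)
        · subst hy2
          rw [hpm]
          exact ⟨fun _ => (cs Lo _).refl' _, fun _ => (cs Lo _).refl' _⟩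
        · rw [hp y hy hy2, cs_pendant' hiso (hne y hy)]
          rfl
      · rw [hp x hx hx2]
        by_cases hy2 : y = some (i + 1)
        · subst hy2
          rw [hpm]
          constructor
          · intro h1
            exact (cs Lo _).symm' ((cs_pendant' hiso (hne x hx)).2 ((cs Lo _).symm' h1))
          · intro h1
            exact (cs Lo _).symm' ((cs_pendant' hiso (hne x hx)).1 ((cs Lo _).symm' h1))
        · rw [hp y hy hy2, cs_pendant hiso (hne x hx) (hne y hy)]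

/-- a new double row -/
lemma Inv.up {F : Finset (Sym2 (ℤ × ℤ))} {bd : ℤ × ℤ → Prop} {K : ℕ} {ℓ ℓ' : ℕ → ℤ × ℤ} {R : Rl}
    (h : Inv F bd K ℓ R) {z : ℤ × ℤ} (hz : ¬ bd z) (hz2 : z ∉ Lo) (hl1 : ℓ' 1 = z)
    (hl2 : ∀ j, j % 2 = 1 → j < K → ℓ' (j + 2) = ℓ j) :
    Inv F (fun v => bd v ∨ v = z) (K + 2) ℓ' (upR R) := by
  have hiso : ∀ u, cs Lo F z u → u = z := by
    intro u hu
    refine cs_isolated (fun v hv => hz (h.edge _ hv z ?_)) hz2 hu
    rw [Sym2.mem_iff]
    exact Or.inl rfl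
  -- the elements of the new domain
  have hcase : ∀ x, Dm (K + 2) x → x = some 1 ∨ ∃ x', Dm K x' ∧ x = x'.map (· + 2) := by
    intro x hx
    rcases x with _ | j
    · exact Or.inr ⟨none, trivial, rfl⟩
    · by_cases h1 : j = 1
      · left; rw [h1]
      · right
        refine ⟨some (j - 2), ⟨?_, ?_⟩, ?_⟩
        · have := hx.1; omega
        · have := hx.1; have := hx.2; omega
        · have := hx.1
          simp only [Option.map_some, Option.some.injEq]
          omega
  have hps : ∀ x, Dm K x → ps ℓ' (x.map (· + 2)) = ps ℓ x := by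
    intro x hx
    rcases x with _ | j
    · rfl
    · exact hl2 j hx.1 hx.2
  have hne : ∀ x, Dm K x → ps ℓ x ≠ z := fun x hx h1 => hz (h1 ▸ h.pos x hx)
  have h1ne : ∀ x : Option ℕ, Dm K x → x.map (· + 2) ≠ some 1 := by
    intro x hx
    rcases x with _ | j
    · simp
    · simp
  have hinj : ∀ x y : Option ℕ, x.map (· + 2) = y.map (· + 2) → x = y := by
    intro x y hxy
    rcases x with _ | j <;> rcases y with _ | j' <;> simp at hxy ⊢
    exact hxy
  refine ⟨fun e he v hv => Or.inl (h.edge e he v hv), ?_, ?_⟩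
  · intro x hx
    rcases hcase x hx with rfl | ⟨x', hx', rfl⟩
    · exact Or.inr hl1
    · rw [hps x' hx']; exact Or.inl (h.pos x' hx')
  · intro x y hx hy
    unfold upR
    rcases hcase x hx with rfl | ⟨x', hx', rfl⟩
    · rcases hcase y hy with rfl | ⟨y', hy', rfl⟩
      · exact ⟨fun _ => (cs Lo F).refl' _, fun _ => Or.inl rfl⟩
      · rw [hps y' hy']
        show _ ↔ cs Lo F (ℓ' 1) _
        rw [hl1]
        constructor
        · rintro (h1 | ⟨x1, y1, h1, _⟩)
          · exact absurd h1.symm (h1ne y' hy')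
          · rcases x1 with _ | j
            · simp at h1
            · simp at h1
        · intro h1
          exact absurd (hiso _ h1) (hne y' hy')
    · rw [hps x' hx']
      rcases hcase y hy with rfl | ⟨y', hy', rfl⟩
      · show _ ↔ cs Lo F _ (ℓ' 1)
        rw [hl1]
        constructor
        · rintro (h1 | ⟨x1, y1, _, h1, _⟩)
          · exact absurd h1 (h1ne x' hx')
          · rcases y1 with _ | j
            · simp at h1
            · simp at h1
        · intro h1
          exact absurd (hiso _ ((cs Lo F).symm' h1)) (hne x' hx')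
      · rw [hps y' hy', ← h.rel x' y' hx' hy']
        constructor
        · rintro (h1 | ⟨x1, y1, h1, h2, h3⟩)
          · rw [hinj _ _ h1, h.rel _ _ hy' hy']
          · rwa [hinj _ _ h1, hinj _ _ h2]
        · exact fun h1 => Or.inr ⟨x', y', rfl, rfl, h1⟩

/-- the end of the double row -/
lemma Inv.dn {F : Finset (Sym2 (ℤ × ℤ))} {bd : ℤ × ℤ → Prop} {K : ℕ} {ℓ ℓ' : ℕ → ℤ × ℤ} {R : Rl}
    (h : Inv F bd (K + 2) ℓ R) (hl : ∀ j, j % 2 = 1 → j < K → ℓ' j = ℓ (j + 2)) :
    Inv F bd K ℓ' (dnR R) := by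
  have hD : ∀ x, Dm K x → Dm (K + 2) (x.map (· + 2)) := by
    intro x hx
    rcases x with _ | j
    · trivial
    · have h1 := hx.1
      have h2 := hx.2
      exact ⟨show (j + 2) % 2 = 1 by omega, show j + 2 < K + 2 by omega⟩
  have hps : ∀ x, Dm K x → ps ℓ' x = ps ℓ (x.map (· + 2)) := by
    intro x hx
    rcases x with _ | j
    · rfl
    · exact hl j hx.1 hx.2
  refine ⟨h.edge, fun x hx => ?_, fun x y hx hy => ?_⟩
  · rw [hps x hx]
    exact h.pos _ (hD x hx)
  · rw [hps x hx, hps y hy]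
    exact h.rel _ _ (hD x hx) (hD y hy)

/-! ### the geometry -/

/-- the vertex with the coordinates `u`, `w` (`u = w` mod 2) -/
def pt (u w : ℤ) : ℤ × ℤ := ((u + w) / 2, (u - w) / 2)

lemma pt_u {u w : ℤ} (h : (u + w) % 2 = 0) : (pt u w).1 + (pt u w).2 = u := by
  unfold pt
  simp only
  omega

lemma pt_w {u w : ℤ} (h : (u + w) % 2 = 0) : (pt u w).1 - (pt u w).2 = w := by
  unfold pt
  simp only
  omega

lemma pt_uw (z : ℤ × ℤ) : pt (z.1 + z.2) (z.1 - z.2) = z := by
  obtain ⟨x, y⟩ := z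
  unfold pt
  rw [Prod.mk.injEq]
  simp only
  omega

/-- the edge of the tile in the column `i` (between `i - 1` and `i`) and the row `w` (between `w`
and `w + 1`) -/
def te (i : ℕ) (w : ℕ) : Sym2 (ℤ × ℤ) :=
  if (i + w) % 2 = 0 then s(pt i w, pt (i - 1) (w + 1)) else s(pt (i - 1) w, pt i (w + 1))

/-- the edges of the tiles in the first `M` double rows -/
def TE (N M : ℕ) : Finset (Sym2 (ℤ × ℤ)) :=
  (Icc 1 N ×ˢ Icc 1 (2 * M)).image (fun p => te p.1 p.2)

/-- the line of the forward sweep -/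
def lf (k w : ℕ) (j : ℕ) : ℤ × ℤ := if j ≤ k + 1 then pt (j - 1) (w + 1) else pt (j - 2) w

/-- the line of the backward sweep -/
def lb (k w : ℕ) (j : ℕ) : ℤ × ℤ := if j ≤ k + 1 then pt (j - 1) (w + 1) else pt (j - 2) (w + 2)

/-- the vertices used in the forward sweep -/
def bf (k w : ℕ) (v : ℤ × ℤ) : Prop :=
  v.1 - v.2 ≤ w ∨ (v.1 - v.2 ≤ w + 1 ∧ v.1 + v.2 ≤ k)

/-- the vertices used in the backward sweep -/
def bb (k w : ℕ) (v : ℤ × ℤ) : Prop :=
  v.1 - v.2 ≤ w + 1 ∨ (v.1 - v.2 ≤ w + 2 ∧ k ≤ v.1 + v.2)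

lemma Inv.up_row {F : Finset (Sym2 (ℤ × ℤ))} {n w : ℕ} {R : Rl} (hw : w % 2 = 1)
    (h : Inv F (fun v => v.1 - v.2 ≤ w) (2 * n) (fun j => pt j w) R) :
    Inv F (bf 0 w) (2 * n + 2) (lf 0 w) (upR R) := by
  have hp : ((0 : ℤ) + ((w : ℤ) + 1)) % 2 = 0 := by omega
  refine (h.up (z := pt 0 (w + 1)) ?_ ?_ (ℓ' := lf 0 w) ?_ ?_).mono ?_
  · rw [pt_w hp]
    omega
  · show ¬ _ = _
    rw [pt_w hp]
    omega
  · unfold lf
    simp
  · intro j _ _
    unfold lf
    rw [if_neg (by omega)]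
    congr 1
    push_cast
    ring
  · rintro v (hv | rfl)
    · exact Or.inl hv
    · right
      rw [pt_w hp, pt_u hp]
      exact ⟨le_rfl, le_rfl⟩

open Classical in
lemma Inv.fwd_step {F : Finset (Sym2 (ℤ × ℤ))} {n k w : ℕ} {R : Rl} (hw : w % 2 = 1)
    (hk : k + 1 ≤ 2 * n) (h : Inv F (bf k w) (2 * n + 2) (lf k w) R) (b : Bool) :
    Inv (if b then insert (te (k + 1) w) F else F) (bf (k + 1) w) (2 * n + 2) (lf (k + 1) w)
      (tlR (k + 1) b R) := by
  rcases Nat.even_or_odd k with ⟨c, hc⟩ | ⟨c, hc⟩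
  · -- odd column
    have e1 : te (k + 1) w = s(lf k w (k + 1), lf k w (k + 1 + 2)) := by
      unfold te lf
      rw [if_pos (by omega), if_pos le_rfl, if_neg (by omega), Sym2.eq_swap]
      congr 2
      push_cast
      ring_nf
    rw [e1]
    refine ((h.join (i := k + 1) (by omega) (by omega) b).mono ?_).congr ?_
    · rintro v (hv | ⟨hv1, hv2⟩)
      · exact Or.inl hv
      · right
        push_cast
        exact ⟨hv1, by omega⟩
    · intro j hj _
      unfold lf
      by_cases h1 : j ≤ k + 1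
      · rw [if_pos h1, if_pos (by omega)]
      · rw [if_neg h1, if_neg (by omega)]
  · -- even column
    have hp : (((k : ℤ) + 1) + ((w : ℤ) + 1)) % 2 = 0 := by omega
    have e1 : te (k + 1) w = s(lf k w (k + 1 + 1), pt ((k : ℤ) + 1) (w + 1)) := by
      unfold te lf
      rw [if_neg (by omega), if_neg (by omega)]
      congr 2
      push_cast
      ring_nf
    rw [e1]
    refine (h.move (i := k + 1) (by omega) (by omega) b (z := pt ((k : ℤ) + 1) (w + 1)) ?_ ?_
      (ℓ' := lf (k + 1) w) ?_ ?_).mono ?_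
    · unfold bf
      rw [pt_w hp, pt_u hp]
      omega
    · show ¬ _ = _
      rw [pt_w hp]
      omega
    · unfold lf
      rw [if_pos le_rfl]
      congr 1
      push_cast
      ring
    · intro j hj _ hj2
      unfold lf
      by_cases h1 : j ≤ k + 1
      · rw [if_pos h1, if_pos (by omega)]
      · rw [if_neg h1, if_neg (by omega)]
    · rintro v ((hv | ⟨hv1, hv2⟩) | rfl)
      · exact Or.inl hv
      · right
        push_cast
        exact ⟨hv1, by omega⟩
      · right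
        rw [pt_w hp, pt_u hp]
        push_cast
        exact ⟨le_rfl, le_rfl⟩

open Classical in
lemma Inv.bwd_step {F : Finset (Sym2 (ℤ × ℤ))} {n k w : ℕ} {R : Rl} (hw : w % 2 = 1)
    (hk : k + 1 ≤ 2 * n) (h : Inv F (bb (k + 1) w) (2 * n + 2) (lb (k + 1) w) R) (b : Bool) :
    Inv (if b then insert (te (k + 1) (w + 1)) F else F) (bb k w) (2 * n + 2) (lb k w)
      (tlR (k + 1) b R) := by
  rcases Nat.even_or_odd k with ⟨c, hc⟩ | ⟨c, hc⟩
  · -- odd column
    have e1 : te (k + 1) (w + 1) = s(lb (k + 1) w (k + 1), lb (k + 1) w (k + 1 + 2)) := by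
      unfold te lb
      rw [if_neg (by omega), if_pos (by omega), if_neg (by omega)]
      congr 2
      push_cast
      ring_nf
    rw [e1]
    refine ((h.join (i := k + 1) (by omega) (by omega) b).mono ?_).congr ?_
    · rintro v (hv | ⟨hv1, hv2⟩)
      · exact Or.inl hv
      · right
        push_cast at hv2
        exact ⟨hv1, by omega⟩
    · intro j hj _
      unfold lb
      by_cases h1 : j ≤ k + 1
      · rw [if_pos h1, if_pos (by omega)]
      · rw [if_neg h1, if_neg (by omega)]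
  · -- even column
    have hp : ((k : ℤ) + ((w : ℤ) + 2)) % 2 = 0 := by omega
    have e1 : te (k + 1) (w + 1) = s(lb (k + 1) w (k + 1 + 1), pt (k : ℤ) (w + 2)) := by
      unfold te lb
      rw [if_pos (by omega), if_pos (by omega)]
      congr 2
      · push_cast
        ring_nf
      · push_cast
        ring_nf
    rw [e1]
    refine (h.move (i := k + 1) (by omega) (by omega) b (z := pt (k : ℤ) (w + 2)) ?_ ?_
      (ℓ' := lb k w) ?_ ?_).mono ?_
    · unfold bb
      rw [pt_w hp, pt_u hp]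
      push_cast
      omega
    · show ¬ _ = _
      rw [pt_w hp]
      omega
    · unfold lb
      rw [if_neg (by omega)]
      congr 1
      push_cast
      ring
    · intro j hj _ hj2
      unfold lb
      by_cases h1 : j ≤ k + 1
      · rw [if_pos h1, if_pos (by omega)]
      · rw [if_neg h1, if_neg (by omega)]
    · rintro v ((hv | ⟨hv1, hv2⟩) | rfl)
      · exact Or.inl hv
      · right
        push_cast at hv2
        exact ⟨hv1, by omega⟩
      · right
        rw [pt_w hp, pt_u hp]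
        exact ⟨le_rfl, le_rfl⟩

/-! ### the sweeps -/

lemma inter_insert_ite {α : Type*} [DecidableEq α] (ω S : Finset α) (e : α) :
    ω ∩ insert e S = if (decide (e ∈ ω) : Bool) then insert e (ω ∩ S) else ω ∩ S := by
  by_cases h : e ∈ ω
  · rw [inter_insert_of_mem h]
    simp [h]
  · rw [inter_insert_of_notMem h]
    simp [h]

/-- the tiles `1, ..., k` of a row -/
def fT (w k : ℕ) : Finset (Sym2 (ℤ × ℤ)) := (Icc 1 k).image (fun i => te i w)

/-- the tiles `k + 1, ..., N` of a row -/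
def bT (N w k : ℕ) : Finset (Sym2 (ℤ × ℤ)) := (Icc (k + 1) N).image (fun i => te i w)

lemma fT_succ (w k : ℕ) : fT w (k + 1) = insert (te (k + 1) w) (fT w k) := by
  unfold fT
  rw [← image_insert (fun i => te i w)]
  congr 1
  ext i
  rw [mem_Icc, mem_insert, mem_Icc]
  omega

lemma bT_succ {N k : ℕ} (w : ℕ) (hk : k + 1 ≤ N) :
    bT N w k = insert (te (k + 1) w) (bT N w (k + 1)) := by
  unfold bT
  rw [← image_insert (fun i => te i w)]
  congr 1
  ext i
  rw [mem_Icc, mem_insert, mem_Icc]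
  omega

lemma TE_succ (N M : ℕ) : TE N (M + 1) = TE N M ∪ fT (2 * M + 1) N ∪ bT N (2 * M + 2) 0 := by
  unfold TE fT bT
  ext e
  simp only [mem_union, mem_image, mem_product, mem_Icc, Prod.exists]
  constructor
  · rintro ⟨i, w, ⟨⟨h1, h2⟩, h3, h4⟩, h5⟩
    rcases Nat.lt_or_ge (2 * M) w with h6 | h6
    · rcases Nat.lt_or_ge (2 * M + 1) w with h7 | h7
      · right
        have : w = 2 * M + 2 := by omega
        exact ⟨i, ⟨by omega, h2⟩, by rw [← this, h5]⟩
      · left; right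
        have : w = 2 * M + 1 := by omega
        exact ⟨i, ⟨h1, h2⟩, by rw [← this, h5]⟩
    · left; left
      exact ⟨i, w, ⟨⟨h1, h2⟩, h3, h6⟩, h5⟩
  · rintro ((⟨i, w, ⟨⟨h1, h2⟩, h3, h4⟩, h5⟩ | ⟨i, ⟨h1, h2⟩, h5⟩) | ⟨i, ⟨h1, h2⟩, h5⟩)
    · exact ⟨i, w, ⟨⟨h1, h2⟩, h3, by omega⟩, h5⟩
    · exact ⟨i, 2 * M + 1, ⟨⟨h1, h2⟩, by omega, by omega⟩, h5⟩
    · exact ⟨i, 2 * M + 2, ⟨⟨by omega, h2⟩, by omega, by omega⟩, h5⟩

/-- the forward sweep -/
lemma Inv.fwd {ω T : Finset (Sym2 (ℤ × ℤ))} {n w : ℕ} {R : Rl} (hw : w % 2 = 1)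
    (h : Inv (ω ∩ T) (bf 0 w) (2 * n + 2) (lf 0 w) R) :
    ∀ k, k ≤ 2 * n → Inv (ω ∩ (T ∪ fT w k)) (bf k w) (2 * n + 2) (lf k w)
      (fwd IR (fun i => decide (te i w ∈ ω)) k R)
  | 0, _ => by
    have e : fT w 0 = ∅ := by unfold fT; simp
    rw [e, union_empty]
    exact h
  | k + 1, hk => by
    have h1 := (Inv.fwd hw h k (by omega)).fwd_step hw hk (decide (te (k + 1) w ∈ ω))
    rw [fT_succ, union_insert, inter_insert_ite]
    exact h1

/-- the backward sweep -/
lemma Inv.bwd {ω T : Finset (Sym2 (ℤ × ℤ))} {n w : ℕ} (hw : w % 2 = 1) :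
    ∀ k, k ≤ 2 * n → ∀ {R : Rl}, Inv (ω ∩ (T ∪ bT (2 * n) (w + 1) k)) (bb k w) (2 * n + 2) (lb k w) R →
      Inv (ω ∩ (T ∪ bT (2 * n) (w + 1) 0)) (bb 0 w) (2 * n + 2) (lb 0 w)
      (bwd IR (fun i => decide (te i (w + 1) ∈ ω)) k R)
  | 0, _, _, h => h
  | k + 1, hk, R, h => by
    have h1 := h.bwd_step hw hk (decide (te (k + 1) (w + 1) ∈ ω))
    refine Inv.bwd hw k (by omega) (R := tlR (k + 1) (decide (te (k + 1) (w + 1) ∈ ω)) R) ?_
    rw [bT_succ (w + 1) hk, union_insert, inter_insert_ite]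
    exact h1

/-- the bits of a configuration -/
def bits (ω : Finset (Sym2 (ℤ × ℤ))) (w i : ℕ) : Bool := decide (te i w ∈ ω)

/-- **The connections between the vertices of the line and the lower side.** -/
theorem line_inv (n : ℕ) (ω : Finset (Sym2 (ℤ × ℤ))) : ∀ M : ℕ,
    Inv (ω ∩ TE (2 * n) M) (fun v => v.1 - v.2 ≤ (2 * M + 1 : ℕ)) (2 * n)
      (fun j => pt j (2 * M + 1 : ℕ)) (drows IR (2 * n) (bits ω) M (fun _ _ => True))
  | 0 => by
    have e : TE (2 * n) 0 = ∅ := by unfold TE; simp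
    rw [e, inter_empty]
    have h1 : ∀ j : ℕ, j % 2 = 1 → pt (j : ℤ) (2 * 0 + 1 : ℕ) ∈ Lo := by
      intro j hj
      show _ = _
      rw [pt_w (by push_cast; omega)]
      simp
    have h2 : ∀ x, Dm (2 * n) x → ps (fun j => pt (j : ℤ) (2 * 0 + 1 : ℕ)) x ∈ Lo := by
      intro x hx
      rcases x with _ | j
      · show _ = _
        rfl
      · exact h1 j hx.1
    refine ⟨fun e he => absurd he (notMem_empty e), fun x hx => ?_, fun x y hx hy => ?_⟩
    · have : (ps (fun j => pt (j : ℤ) (2 * 0 + 1 : ℕ)) x).1 -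
        (ps (fun j => pt (j : ℤ) (2 * 0 + 1 : ℕ)) x).2 = 1 := h2 x hx
      rw [this]
      simp
    · exact ⟨fun _ => cs_wall (h2 x hx) (h2 y hy), fun _ => trivial⟩
  | M + 1 => by
    have hw : (2 * M + 1) % 2 = 1 := by omega
    have h1 := ((line_inv n ω M).up_row hw).fwd hw (2 * n) le_rfl
    have e1 : TE (2 * n) M ∪ fT (2 * M + 1) (2 * n) ∪ bT (2 * n) (2 * M + 1 + 1) (2 * n) =
        TE (2 * n) M ∪ fT (2 * M + 1) (2 * n) := by
      have : bT (2 * n) (2 * M + 1 + 1) (2 * n) = ∅ := by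
        unfold bT
        rw [Icc_eq_empty (by omega), image_empty]
      rw [this, union_empty]
    have h2 : Inv (ω ∩ (TE (2 * n) M ∪ fT (2 * M + 1) (2 * n) ∪
        bT (2 * n) (2 * M + 1 + 1) (2 * n))) (bb (2 * n) (2 * M + 1)) (2 * n + 2)
        (lb (2 * n) (2 * M + 1)) (RC.fwd IR (bits ω (2 * M + 1)) (2 * n)
          (upR (drows IR (2 * n) (bits ω) M (fun _ _ => True)))) := by
      rw [e1]
      refine (h1.mono ?_).congr ?_
      · rintro v (hv | ⟨hv1, hv2⟩)
        · left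
          push_cast at hv ⊢
          omega
        · exact Or.inl hv1
      · intro j _ hj
        unfold lf lb
        rw [if_pos (by omega), if_pos (by omega)]
    have h3 := h2.bwd hw (2 * n) le_rfl
    rw [TE_succ]
    refine ((h3.mono ?_).dn ?_)
    · rintro v (hv | ⟨hv1, hv2⟩)
      · push_cast at hv ⊢
        omega
      · push_cast at hv1 ⊢
        omega
    · intro j _ _
      unfold lb
      rw [if_neg (by omega)]
      congr 1
      push_cast
      ring

end H47Perc.RC
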