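import Pool.Agent.Rect.Perc.Dict

/-!
Merging neighbouring upper sites: the events `AllI`, their probabilities and the dictionary.
-/

set_option autoImplicit false

namespace H47Perc.RC
open Finset H47Perc

/-- virtual edges between the neighbouring upper sites `2k+1`, `2k+3`, `k ∈ I` -/
def VE (M : ℕ) (I : Finset ℕ) : Finset (Sym2 (ℤ × ℤ)) :=
  I.image (fun k : ℕ => s(pt (2 * k + 1) (2 * M + 1), pt (2 * k + 3) (2 * M + 1)))

/-- with the virtual edges every upper site is joined to the lower side -/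
def AllI (n M : ℕ) (I : Finset ℕ) (ω : Finset (Sym2 (ℤ × ℤ))) : Prop :=
  All 0 (2 * n) 1 (2 * M + 1) (ω ∪ VE M I)

/-- the probability that with the virtual edges every upper site is joined to the lower side -/
noncomputable def pI (n M : ℕ) (I : Finset ℕ) : ℝ :=
  perc half (drect 0 (2 * n) 1 (2 * M + 1)) (AllI n M I)

lemma VE_empty (M : ℕ) : VE M ∅ = ∅ := by
  unfold VE
  exact image_empty _

lemma pI_empty (n M : ℕ) : pI n M ∅ = pA n M := by
  unfold pI pA AllI
  simp only [VE_empty, union_empty]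

lemma up_AllI (n M : ℕ) (I : Finset ℕ) : Pool.Agent.Helper69.RSW.Up (AllI n M I) :=
  fun _ _ h h1 => all_mono (union_subset_union h (Finset.Subset.refl _)) h1

lemma pI_nonneg (n M : ℕ) (I : Finset ℕ) : 0 ≤ pI n M I := perc_half_nonneg _ _

/-- the merges at the top: tile `2k+1` for the bits `c k`, `k < m` -/
def topm {σ : Type*} (J : Interp σ) (c : ℕ → Bool) : ℕ → σ → σ
  | 0, s => s
  | k + 1, s => J.tl (2 * k + 1) (c k) (topm J c k s)

/-- all upper sites are joined to the lower side, in terms of the vertices -/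
lemma all_iff' {n M : ℕ} {F : Finset (Sym2 (ℤ × ℤ))} :
    All 0 (2 * n) 1 (2 * M + 1) F ↔
      ∀ j : ℕ, j % 2 = 1 → j < 2 * n → JL F (pt j (2 * M + 1)) := by
  constructor
  · intro h j hj1 hj2
    obtain ⟨z', h1, h2⟩ := h (pt j (2 * M + 1)) (pt_w (by omega))
      (by rw [pt_u (by omega)]; omega) (by rw [pt_u (by omega)]; omega)
    exact ⟨z', h1, joined_symm h2⟩
  · intro h z h1 h2 h3
    obtain ⟨j, hj⟩ : ∃ j : ℕ, (j : ℤ) = z.1 + z.2 := ⟨(z.1 + z.2).toNat, by omega⟩
    have h4 := h j (by omega) (by omega)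
    obtain ⟨z', h5, h6⟩ := h4
    refine ⟨z', h5, ?_⟩
    rw [hj, ← h1, pt_uw] at h6
    exact joined_symm h6

lemma VE_filter_succ (M m : ℕ) (I : Finset ℕ) (F : Finset (Sym2 (ℤ × ℤ))) :
    F ∪ VE M (I.filter (· < m + 1)) = if (decide (m ∈ I) : Bool) then
      insert s(pt (2 * m + 1) (2 * M + 1), pt (2 * m + 3) (2 * M + 1)) (F ∪ VE M (I.filter (· < m)))
      else F ∪ VE M (I.filter (· < m)) := by
  by_cases h : m ∈ I
  · have e : I.filter (· < m + 1) = insert m (I.filter (· < m)) := by
      ext k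
      rw [mem_filter, mem_insert, mem_filter]
      constructor
      · rintro ⟨h1, h2⟩
        rcases Nat.lt_succ_iff_lt_or_eq.1 h2 with h3 | h3
        · exact Or.inr ⟨h1, h3⟩
        · exact Or.inl h3
      · rintro (rfl | ⟨h1, h2⟩)
        · exact ⟨h, by omega⟩
        · exact ⟨h1, by omega⟩
    rw [e]
    simp only [h, decide_true, if_true]
    unfold VE
    rw [image_insert, union_insert]
  · have e : I.filter (· < m + 1) = I.filter (· < m) := by
      apply filter_congr
      intro k hk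
      constructor
      · intro h2
        rcases Nat.lt_succ_iff_lt_or_eq.1 h2 with h3 | h3
        · exact h3
        · exact absurd (h3 ▸ hk) h
      · intro h2
        omega
    rw [e]
    simp [h]

/-- the connections after merging -/
theorem merge_inv (n M : ℕ) (ω : Finset (Sym2 (ℤ × ℤ))) (I : Finset ℕ) : ∀ m : ℕ, m + 1 ≤ n →
    Inv ((ω ∩ TE (2 * n) M) ∪ VE M (I.filter (· < m))) (fun v => v.1 - v.2 ≤ (2 * M + 1 : ℕ)) (2 * n)
      (fun j => pt j (2 * M + 1 : ℕ)) (topm IR (fun k => decide (k ∈ I)) m (RM n M ω))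
  | 0, _ => by
    have e : I.filter (· < 0) = ∅ := by
      rw [filter_eq_empty_iff]
      intro k _
      omega
    rw [e, VE_empty, union_empty]
    exact line_inv n ω M
  | m + 1, hm => by
    have h := (merge_inv n M ω I m (by omega)).join (i := 2 * m + 1) (by omega) (by omega)
      (decide (m ∈ I))
    rw [VE_filter_succ]
    have e1 : (pt (((2 * m + 1 : ℕ) : ℤ)) ((2 * M + 1 : ℕ) : ℤ)) = pt (2 * m + 1) (2 * M + 1) := by
      push_cast
      rfl
    have e2 : (pt (((2 * m + 1 + 2 : ℕ) : ℤ)) ((2 * M + 1 : ℕ) : ℤ)) =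
        pt (2 * m + 3) (2 * M + 1) := by
      push_cast
      ring_nf
    rw [e1, e2] at h
    exact h

theorem allI_iff {n M : ℕ} (hn : 1 ≤ n) {I : Finset ℕ} (hI : I ⊆ range (n - 1))
    {ω : Finset (Sym2 (ℤ × ℤ))} (hω : ω ⊆ TE (2 * n) M) :
    AllI n M I ω ↔ ∀ j : ℕ, j % 2 = 1 → j < 2 * n →
      topm IR (fun k => decide (k ∈ I)) (n - 1) (RM n M ω) none (some j) := by
  have h := merge_inv n M ω I (n - 1) (by omega)
  have e : I.filter (· < n - 1) = I := by
    rw [filter_eq_self]
    intro k hk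
    exact mem_range.1 (hI hk)
  rw [e, inter_eq_left.2 hω] at h
  unfold AllI
  rw [all_iff']
  apply forall_congr'
  intro j
  apply forall_congr'
  intro hj
  apply forall_congr'
  intro hj2
  rw [h.rel none (some j) trivial ⟨hj, hj2⟩, ← cs_lo_iff]
  show _ ↔ cs Lo (ω ∪ VE M I) (1, 0) (pt (j : ℤ) ((2 * M + 1 : ℕ) : ℤ))
  push_cast
  rfl

section lin
variable {K V : Type*} [Field K] [AddCommGroup V] [Module K V]

/-- `(1 + e_{2m-1}) ... (1 + e_1)` -/
noncomputable def LInterp.Pm (L : LInterp K V) : ℕ → V →ₗ[K] V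
  | 0 => LinearMap.id
  | k + 1 => (L.tl (2 * k + 1) false + L.tl (2 * k + 1) true) ∘ₗ L.Pm k

lemma topm_congr {σ : Type*} (J : Interp σ) {c c' : ℕ → Bool} {s : σ} : ∀ m : ℕ,
    (∀ k < m, c k = c' k) → topm J c m s = topm J c' m s
  | 0, _ => rfl
  | m + 1, h => by
    show J.tl (2 * m + 1) (c m) (topm J c m s) = J.tl (2 * m + 1) (c' m) (topm J c' m s)
    rw [h m (by omega), topm_congr J m (fun k hk => h k (by omega))]

/-- expansion of the product -/
theorem Pm_eq (L : LInterp K V) (v : V) : ∀ m : ℕ,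
    L.Pm m v = ∑ I ∈ (range m).powerset, topm L.toI (fun k => decide (k ∈ I)) m v
  | 0 => by
    rw [range_zero, powerset_empty, sum_singleton]
    rfl
  | m + 1 => by
    rw [range_add_one, sum_powerset_insert notMem_range_self]
    have h1 : ∀ I ∈ (range m).powerset, topm L.toI (fun k => decide (k ∈ I)) (m + 1) v =
        L.tl (2 * m + 1) false (topm L.toI (fun k => decide (k ∈ I)) m v) := by
      intro I hI
      rw [mem_powerset] at hI
      show L.tl (2 * m + 1) (decide (m ∈ I)) _ = _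
      rw [decide_eq_false (fun h => notMem_range_self (hI h))]
    have h2 : ∀ I ∈ (range m).powerset, topm L.toI (fun k => decide (k ∈ insert m I)) (m + 1) v =
        L.tl (2 * m + 1) true (topm L.toI (fun k => decide (k ∈ I)) m v) := by
      intro I hI
      show L.tl (2 * m + 1) (decide (m ∈ insert m I)) _ = _
      rw [decide_eq_true (mem_insert_self _ _)]
      congr 1
      apply topm_congr
      intro k hk
      congr 1
      rw [mem_insert]
      apply propext
      constructor
      · rintro (h | h)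
        · omega
        · exact h
      · exact Or.inr
    rw [sum_congr rfl h1, sum_congr rfl h2, ← map_sum, ← map_sum, ← Pm_eq L v m]
    rfl

end lin

/-- the dictionary for the merged events -/
theorem pI_eq {V : Type*} [AddCommGroup V] [Module ℝ V] (L : LInterp ℝ V) {n : ℕ} (hn : 1 ≤ n) (M : ℕ)
    {I : Finset ℕ} (hI : I ⊆ range (n - 1)) (v : V) (φ : V →ₗ[ℝ] ℝ)
    (h : ∀ b : ℕ → ℕ → Bool,
      ((∀ j : ℕ, j % 2 = 1 → j < 2 * n → topm IR (fun k => decide (k ∈ I)) (n - 1)
        (drows IR (2 * n) b M (fun _ _ => True)) none (some j)) →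
        φ (drows L.toI (2 * n) b M v) = 1) ∧
      ((¬ ∀ j : ℕ, j % 2 = 1 → j < 2 * n → topm IR (fun k => decide (k ∈ I)) (n - 1)
        (drows IR (2 * n) b M (fun _ _ => True)) none (some j)) →
        φ (drows L.toI (2 * n) b M v) = 0)) :
    pI n M I = φ (((L.T (2 * n)) ^ M) v) := by
  have h1 := prob_eq L (2 * n) M v φ (AllI n M I) (fun ω hω => by
    rw [allI_iff hn hI hω]
    exact h (bits ω))
  unfold pI
  push_cast at h1
  exact h1

/-- topm as a linear map -/
noncomputable def LInterp.tm {K V : Type*} [Field K] [AddCommGroup V] [Module K V] (L : LInterp K V)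
    (c : ℕ → Bool) : ℕ → V →ₗ[K] V
  | 0 => LinearMap.id
  | k + 1 => L.tl (2 * k + 1) (c k) ∘ₗ L.tm c k

lemma LInterp.tm_apply {K V : Type*} [Field K] [AddCommGroup V] [Module K V] (L : LInterp K V)
    (c : ℕ → Bool) (v : V) : ∀ m : ℕ, L.tm c m v = topm L.toI c m v
  | 0 => rfl
  | m + 1 => by
    show L.tl (2 * m + 1) (c m) (L.tm c m v) = L.tl (2 * m + 1) (c m) (topm L.toI c m v)
    rw [LInterp.tm_apply L c v m]

/-- **the merged events as matrix elements**: `co` is the coefficient of the initial vector -/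
theorem sum_pI_eq {V : Type*} [AddCommGroup V] [Module ℝ V] (L : LInterp ℝ V) {n : ℕ} (hn : 1 ≤ n)
    (M : ℕ) (v : V) (co : V →ₗ[ℝ] ℝ)
    (h : ∀ (b : ℕ → ℕ → Bool) (c : ℕ → Bool),
      ((∀ j : ℕ, j % 2 = 1 → j < 2 * n → topm IR c (n - 1)
        (drows IR (2 * n) b M (fun _ _ => True)) none (some j)) →
        co (topm L.toI c (n - 1) (drows L.toI (2 * n) b M v)) = 1) ∧
      ((¬ ∀ j : ℕ, j % 2 = 1 → j < 2 * n → topm IR c (n - 1)
        (drows IR (2 * n) b M (fun _ _ => True)) none (some j)) →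
        co (topm L.toI c (n - 1) (drows L.toI (2 * n) b M v)) = 0)) :
    ∑ I ∈ (range (n - 1)).powerset, pI n M I = co (L.Pm (n - 1) (((L.T (2 * n)) ^ M) v)) := by
  rw [Pm_eq, map_sum]
  apply sum_congr rfl
  intro I hI
  rw [mem_powerset] at hI
  rw [pI_eq L hn M hI v (co ∘ₗ L.tm (fun k => decide (k ∈ I)) (n - 1)) (fun b => by
    have h1 := h b (fun k => decide (k ∈ I))
    rw [LinearMap.comp_apply, LInterp.tm_apply]
    exact h1)]
  rw [LinearMap.comp_apply, LInterp.tm_apply]

end H47Perc.RC
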