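import Pool.Agent.Rect.Alg.Inst
import Pool.Agent.Rect.Perc.Merge
import Pool.Agent.Helper81.Rect.Sim
import Pool.Agent.Helper32.D4.Sim

/-!
# The word side of the dictionary

The patterns of `RectAlg.Pat` with two defects, the bent pairings of `Helper81/Rect/Sim.lean` and the
relation dynamics of `Rect/Perc/Build.lean` describe the same thing.  Results: `P_dict`, `pA_dict`,
`sum_pI_dict`: the probabilities as matrix elements of the double row matrix `Dh (2n) 0 (1/2)`.
-/

set_option autoImplicit false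

namespace H81Rect
open Finset RectAlg
open H47Perc.RC (Interp fwd bwd drow drows Rl upR dnR tlR IR jnr isr Dm topm LInterp P pA pI)
open Pool.Agent.Helper9.DR (Tower)

/-! ### patterns with two defects and bent pairings -/

/-- the pattern `f` on `N` strands with two defects and the bent pairing `g` -/
structure Bd (N : ℕ) (f g : ℕ → ℕ) : Prop where
  pp : PP (N + 2) g
  alive : g 0 ≠ N + 1
  fix : ∀ s, N ≤ s → f s = s
  par : ∀ s, s < N → (f s ≠ s ∧ g (s + 1) = f s + 1) ∨ (f s = s ∧ (g (s + 1) = 0 ∨ g (s + 1) = N + 1))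

/-- the pattern is dead iff the two bent defects are joined -/
def St (N : ℕ) (o : Option Pat) (g : ℕ → ℕ) : Prop :=
  match o with
  | none => PP (N + 2) g ∧ g 0 = N + 1
  | some f => Bd N f.fn g

lemma St.pp {N : ℕ} {o : Option Pat} {g : ℕ → ℕ} (h : St N o g) : PP (N + 2) g := by
  cases o with
  | none => exact h.1
  | some f => exact Bd.pp h

lemma St.alive_iff {N : ℕ} {o : Option Pat} {g : ℕ → ℕ} (h : St N o g) : o ≠ none ↔ g 0 ≠ N + 1 := by
  cases o with
  | none => exact ⟨fun h1 => absurd rfl h1, fun h1 => absurd h.2 h1⟩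
  | some f => exact ⟨fun _ => Bd.alive h, fun _ => by simp⟩

/-! #### cup -/

lemma up0 (t : ℕ) : up 0 t = t + 2 := rfl

lemma Bd.up {N : ℕ} {f g : ℕ → ℕ} (h : Bd N f g) : Bd (N + 2) (cupF 0 f) (upP g) := by
  refine ⟨h.pp.up (by omega), ?_, ?_, ?_⟩
  · have h0 := h.pp.ne 0 (by omega)
    have h1 := h.alive
    show upP g (sh 0) ≠ _
    rw [upP_sh, sh_pos h0]
    omega
  · intro s hs
    obtain ⟨t, rfl⟩ : ∃ t, s = t + 2 := ⟨s - 2, by omega⟩
    rw [← up0 t, cupF_up, h.fix t (by omega)]
  · intro s hs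
    rcases up_cases 0 s with rfl | rfl | ⟨t, rfl⟩
    · left
      rw [cupF_i]
      exact ⟨by omega, rfl⟩
    · left
      rw [cupF_i1]
      exact ⟨by omega, rfl⟩
    · rw [up0] at hs
      rw [cupF_up, up0, up0]
      have e : upP g (t + 2 + 1) = sh (g (t + 1)) := by
        have := upP_sh g (t + 1)
        rwa [sh_pos (by omega)] at this
      rw [e]
      rcases h.par t (by omega) with ⟨h1, h2⟩ | ⟨h1, h2 | h2⟩
      · left
        rw [h2, sh_pos (by omega)]
        omega
      · right
        rw [h1, h2]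
        exact ⟨rfl, Or.inl rfl⟩
      · right
        rw [h1, h2, sh_pos (by omega)]
        exact ⟨rfl, Or.inr (by omega)⟩

/-! #### tile -/

lemma Bd.dead {N : ℕ} {f g : ℕ → ℕ} (h : Bd N f g) {i : ℕ} (hi : i + 2 ≤ N) (hd : Dead i f) :
    EE (i + 1) g 0 = N + 1 := by
  obtain ⟨h1, h2⟩ := hd
  have p1 := h.par i (by omega)
  have p2 := h.par (i + 1) (by omega)
  have i1 := h.pp.inv (i + 1) (by omega)
  have i2 := h.pp.inv (i + 1 + 1) (by omega)
  have q1 : g (i + 1) = 0 ∨ g (i + 1) = N + 1 := by
    rcases p1 with ⟨h3, _⟩ | ⟨_, h3⟩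
    · exact absurd h1 h3
    · exact h3
  have q2 : g (i + 1 + 1) = 0 ∨ g (i + 1 + 1) = N + 1 := by
    rcases p2 with ⟨h3, _⟩ | ⟨_, h3⟩
    · exact absurd h2 h3
    · exact h3
  unfold EE
  rw [if_neg (by omega), if_neg (by omega)]
  rcases q1 with q1 | q1 <;> rcases q2 with q2 | q2
  · rw [q1] at i1
    rw [q2, i1] at i2
    omega
  · rw [if_pos q1.symm, q2]
  · rw [if_neg (by omega), if_pos q2.symm, q1]
  · rw [q1] at i1
    rw [q2, i1] at i2
    omega

lemma Bd.tile {N : ℕ} {f g : ℕ → ℕ} (hf : Inv f) (h : Bd N f g) {i : ℕ} (hi : i + 2 ≤ N)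
    (hd : ¬ Dead i f) : Bd N (eF i f) (EE (i + 1) g) := by
  have i1 := h.pp.inv (i + 1) (by omega)
  have i2 := h.pp.inv (i + 1 + 1) (by omega)
  have f1 := hf i
  have f2 := hf (i + 1)
  have hfix : ∀ s, f s < N ∨ (N ≤ s ∧ f s = s) := by
    intro s
    by_contra hcon
    rw [not_or] at hcon
    have h1 := h.fix (f s) (by omega)
    rw [hf s] at h1
    exact hcon.2 ⟨by omega, h1.symm⟩
  have p1 := h.par i (by omega)
  have p2 := h.par (i + 1) (by omega)
  by_cases hsm : f i = i + 1
  · -- trivial action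
    have hg : g (i + 1) = i + 1 + 1 := by
      rcases p1 with ⟨_, h3⟩ | ⟨h3, _⟩
      · rw [h3, hsm]
      · omega
    have e1 : EE (i + 1) g = g := EE_self h.pp (by omega) hg
    have hf1 : f (i + 1) = i := by rw [← hsm, hf]
    have e2 : eF i f = f := by
      funext s
      by_cases h1 : s = i
      · rw [h1, eF_i, hsm]
      by_cases h2 : s = i + 1
      · rw [h2, eF_i1, hf1]
      rw [eF_other f h1 h2]
      have i3 := hf s
      unfold J
      rw [if_neg (fun h3 => by rw [h3, hsm] at i3; exact h2 i3.symm),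
        if_neg (fun h3 => by rw [h3, hf1] at i3; exact h1 i3.symm)]
    rw [e1, e2]
    exact h
  · have hgsm : g (i + 1) ≠ i + 1 + 1 := by
      intro h1
      rcases p1 with ⟨_, h3⟩ | ⟨_, h3⟩
      · rw [h3] at h1
        exact hsm (by omega)
      · omega
    have hpp := h.pp.step (a := i + 1) (by omega)
    have hp := EE_p h.pp (a := i + 1) (by omega) hgsm
    have hq := EE_q h.pp (a := i + 1) (by omega) hgsm
    refine ⟨hpp, ?_, ?_, ?_⟩
    · -- alive
      have hal := h.alive
      intro h0
      by_cases c1 : g (i + 1) = 0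
      · rw [c1] at hp
        rw [hp] at h0
        apply hd
        constructor
        · rcases p1 with ⟨_, h3⟩ | ⟨h3, _⟩
          · omega
          · exact h3
        · rcases p2 with ⟨_, h3⟩ | ⟨h3, _⟩
          · have := hfix (i + 1)
            omega
          · exact h3
      by_cases c2 : g (i + 1 + 1) = 0
      · rw [c2] at hq
        rw [hq] at h0
        apply hd
        constructor
        · rcases p1 with ⟨_, h3⟩ | ⟨h3, _⟩
          · have := hfix i
            omega
          · exact h3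
        · rcases p2 with ⟨_, h3⟩ | ⟨h3, _⟩
          · omega
          · exact h3
      rw [EE_other (by omega) (by omega) (Ne.symm c1) (Ne.symm c2)] at h0
      exact hal h0
    · intro s hs
      rw [eF_other f (by omega) (by omega)]
      have h1 := h.fix s hs
      unfold J
      rw [if_neg (by omega), if_neg (by omega), h1]
    · intro s hs
      by_cases c1 : s = i
      · subst c1
        rw [eF_i, EE_a]
        exact Or.inl ⟨by omega, rfl⟩
      by_cases c2 : s = i + 1
      · subst c2
        rw [eF_i1, EE_a1]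
        exact Or.inl ⟨by omega, rfl⟩
      rw [eF_other f c1 c2]
      have f3 := hf s
      have hs1 := hfix s
      -- is `s` the partner of `i`?
      by_cases c3 : f s = i
      · have hfi : f i = s := by rw [← c3, hf]
        have hgi : g (i + 1) = s + 1 := by
          rcases p1 with ⟨_, h3⟩ | ⟨h3, _⟩
          · rw [h3, hfi]
          · omega
        rw [hgi] at hp
        unfold J
        rw [if_pos c3, hp]
        by_cases c4 : f (i + 1) = i + 1
        · rw [if_pos c4]
          right
          rcases p2 with ⟨h3, _⟩ | ⟨_, h3⟩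
          · exact absurd c4 h3
          · exact ⟨rfl, h3⟩
        · rw [if_neg c4]
          left
          rcases p2 with ⟨_, h3⟩ | ⟨h3, _⟩
          · refine ⟨?_, h3⟩
            intro h4
            rw [h4, c3] at f2
            omega
          · exact absurd h3 c4
      by_cases c4 : f s = i + 1
      · have hfi : f (i + 1) = s := by rw [← c4, hf]
        have hgi : g (i + 1 + 1) = s + 1 := by
          rcases p2 with ⟨_, h3⟩ | ⟨h3, _⟩
          · rw [h3, hfi]
          · omega
        rw [hgi] at hq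
        unfold J
        rw [if_neg c3, if_pos c4, hq]
        by_cases c5 : f i = i
        · rw [if_pos c5]
          right
          rcases p1 with ⟨h3, _⟩ | ⟨_, h3⟩
          · exact absurd c5 h3
          · exact ⟨rfl, h3⟩
        · rw [if_neg c5]
          left
          rcases p1 with ⟨_, h3⟩ | ⟨h3, _⟩
          · refine ⟨?_, h3⟩
            intro h4
            rw [h4, c4] at f1
            omega
          · exact absurd h3 c5
      -- the other strands
      have e1 : J i (i + 1) f s = f s := by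
        unfold J
        rw [if_neg c3, if_neg c4]
      have e2 : s + 1 ≠ g (i + 1) := by
        intro h1
        rcases p1 with ⟨_, h3⟩ | ⟨_, h3⟩
        · rw [h3] at h1
          have : s = f i := by omega
          exact c3 (by rw [this, hf])
        · omega
      have e3 : s + 1 ≠ g (i + 1 + 1) := by
        intro h1
        rcases p2 with ⟨_, h3⟩ | ⟨_, h3⟩
        · rw [h3] at h1
          have : s = f (i + 1) := by omega
          exact c4 (by rw [this, hf])
        · omega
      rw [e1, EE_other (by omega) (by omega) e2 e3]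
      exact h.par s hs

/-! #### cap -/

lemma dnP_eq (g : ℕ → ℕ) (s : ℕ) : dnP g (s + 1) = us (EE 1 g (s + 3)) := by
  unfold dnP
  rw [sh_pos (by omega)]

lemma Bd.dn {N : ℕ} {f g : ℕ → ℕ} (hf : Inv f) (h : Bd (N + 2) f g) (hd : ¬ Dead 0 f) :
    Bd N (capF 0 f) (dnP g) := by
  have hE := Bd.tile hf h (i := 0) (by omega) hd
  have hcap : ∀ s, capF 0 f s + 2 = eF 0 f (s + 2) := by
    intro s
    have := up_capF hf 0 s
    rw [up0, up0] at this
    rw [this, eF_other f (by omega) (by omega)]
  refine ⟨h.pp.dn (by omega), ?_, ?_, ?_⟩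
  · have h1 := hE.alive
    have h2 := sh_dnP h.pp (by omega) (s := 0) (by omega)
    rw [sh_zero] at h2
    intro h3
    rw [h3, sh_pos (by omega)] at h2
    exact h1 (by rw [show 0 + 1 = 1 from rfl, ← h2])
  · intro s hs
    have h1 := hcap s
    rw [hE.fix (s + 2) (by omega)] at h1
    omega
  · intro s hs
    have h1 := hcap s
    have h2 := hE.par (s + 2) (by omega)
    rw [← h1] at h2
    have h3 := dnP_eq g s
    rcases h2 with ⟨h4, h5⟩ | ⟨h4, h5⟩
    · left
      refine ⟨by omega, ?_⟩
      rw [h3]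
      have h6 : EE 1 g (s + 3) = capF 0 f s + 2 + 1 := h5
      rw [h6]
      unfold us
      rw [if_neg (by omega)]
      omega
    · right
      refine ⟨by omega, ?_⟩
      rw [h3]
      rcases h5 with h5 | h5
      · left
        have h6 : EE 1 g (s + 3) = 0 := h5
        rw [h6]
        rfl
      · right
        have h6 : EE 1 g (s + 3) = N + 2 + 1 := h5
        rw [h6]
        unfold us
        rw [if_neg (by omega)]
        omega

lemma dead_stays {N : ℕ} {g : ℕ → ℕ} (hg : PP (N + 2) g) (h0 : g 0 = N + 1) {i : ℕ} (hi : i + 2 ≤ N) :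
    EE (i + 1) g 0 = N + 1 := by
  have i1 := hg.inv (i + 1) (by omega)
  have i2 := hg.inv (i + 1 + 1) (by omega)
  rw [EE_other (by omega) (by omega), h0]
  · intro h1
    rw [← h1, h0] at i1
    omega
  · intro h1
    rw [← h1, h0] at i2
    omega

lemma dn_dead {N : ℕ} {g : ℕ → ℕ} (h : EE 1 g 0 = N + 2 + 1) : dnP g 0 = N + 1 := by
  unfold dnP
  rw [sh_zero, h]
  unfold us
  rw [if_neg (by omega)]
  omega

/-! ### the dynamics of the patterns -/

/-- the generator on patterns or zero -/
def eO (i : ℕ) (o : Option Pat) : Option Pat := (o.bind (Pat.k i)).map (Pat.c i)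

/-- the interpretation by patterns or zero -/
def IO : Interp (Option Pat) := ⟨fun o => o.map (Pat.c 0), fun o => o.bind (Pat.k 0),
  fun i b o => if i % 2 = 1 then (if b then eO i o else o) else (if b then o else eO i o)⟩

lemma St.up {N : ℕ} {o : Option Pat} {g : ℕ → ℕ} (h : St N o g) :
    St (N + 2) (o.map (Pat.c 0)) (upP g) := by
  cases o with
  | none =>
    refine ⟨h.1.up (by omega), ?_⟩
    show upP g (sh 0) = _
    rw [upP_sh, h.2, sh_pos (by omega)]
  | some f => exact Bd.up h

lemma St.e {N : ℕ} {o : Option Pat} {g : ℕ → ℕ} (h : St N o g) {i : ℕ} (hi : i + 2 ≤ N) :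
    St N (eO i o) (EE (i + 1) g) := by
  cases o with
  | none => exact ⟨h.1.step (by omega), dead_stays h.1 h.2 hi⟩
  | some f =>
    unfold eO
    by_cases hd : Dead i f.fn
    · have e : (some f).bind (Pat.k i) = none := Pat.k_dead hd
      rw [e]
      exact ⟨(Bd.pp h).step (by omega), Bd.dead h hi hd⟩
    · have e : (some f).bind (Pat.k i) = some (Pat.cap i f) := Pat.k_alive hd
      rw [e]
      show Bd N (Pat.c i (Pat.cap i f)).fn _
      rw [Pat.fn_c, Pat.fn_cap, cup_cap f.inv]
      exact Bd.tile f.inv h hi hd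

lemma St.dn {N : ℕ} {o : Option Pat} {g : ℕ → ℕ} (h : St (N + 2) o g) :
    St N (o.bind (Pat.k 0)) (dnP g) := by
  cases o with
  | none => exact ⟨h.1.dn (by omega), dn_dead (dead_stays h.1 h.2 (i := 0) (by omega))⟩
  | some f =>
    by_cases hd : Dead 0 f.fn
    · have e : (some f).bind (Pat.k 0) = none := Pat.k_dead hd
      rw [e]
      exact ⟨(Bd.pp h).dn (by omega), dn_dead (Bd.dead h (by omega) hd)⟩
    · have e : (some f).bind (Pat.k 0) = some (Pat.cap 0 f) := Pat.k_alive hd
      rw [e]
      show Bd N (Pat.cap 0 f).fn _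
      rw [Pat.fn_cap]
      exact Bd.dn f.inv h hd

lemma St.tl {N : ℕ} {o : Option Pat} {g : ℕ → ℕ} (h : St N o g) {i : ℕ} (hi : i + 2 ≤ N) (b : Bool) :
    St N (IO.tl i b o) (IPr.tl i b g) := by
  show St N (if i % 2 = 1 then (if b then eO i o else o) else (if b then o else eO i o)) (tlP i b g)
  unfold tlP
  by_cases hp : i % 2 = 1
  · rw [if_pos hp, if_pos hp]
    cases b with
    | false => simpa using h
    | true => simpa using h.e hi
  · rw [if_neg hp, if_neg hp]
    cases b with
    | false => simpa using h.e hi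
    | true => simpa using h

lemma St.fwd {N : ℕ} {o : Option Pat} {g : ℕ → ℕ} (h : St (N + 2) o g) (b : ℕ → Bool) :
    ∀ k, k ≤ N → St (N + 2) (fwd IO b k o) (fwd IPr b k g)
  | 0, _ => h
  | k + 1, hk => (St.fwd h b k (by omega)).tl (by omega) _

lemma St.bwd {N : ℕ} (b : ℕ → Bool) : ∀ k, k ≤ N → ∀ {o : Option Pat} {g : ℕ → ℕ},
    St (N + 2) o g → St (N + 2) (bwd IO b k o) (bwd IPr b k g)
  | 0, _, _, _, h => h
  | k + 1, hk, _, _, h => St.bwd b k (by omega) (h.tl (by omega) _)

lemma St.drows {N : ℕ} {o : Option Pat} {g : ℕ → ℕ} (h : St N o g) (b : ℕ → ℕ → Bool) :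
    ∀ M, St N (drows IO N b M o) (drows IPr N b M g)
  | 0 => h
  | M + 1 => (St.bwd (b (2 * M + 2)) N le_rfl
      (St.fwd (St.drows h b M).up (b (2 * M + 1)) N le_rfl)).dn

lemma St.topm {N : ℕ} {o : Option Pat} {g : ℕ → ℕ} (h : St N o g) (c : ℕ → Bool) :
    ∀ m, 2 * m + 1 ≤ N → St N (topm IO c m o) (topm IPr c m g)
  | 0, _ => h
  | m + 1, hm => (St.topm h c m (by omega)).tl (by omega) _

lemma Sim.topm {N : ℕ} {f : ℕ → ℕ} {R : Rl} (hN : N % 2 = 0) (h : Sim N f R) (c : ℕ → Bool) :
    ∀ m, 2 * m + 1 ≤ N → Sim N (topm IPr c m f) (topm IR c m R)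
  | 0, _ => h
  | m + 1, hm => (Sim.topm hN h c m (by omega)).tl (by omega) (by omega) hN _

/-! ### the pattern `|()()...()|` -/

/-- the pattern `|()()...()|` with `n` arcs (`2 n + 2` strands) -/
def bb : ℕ → Pat
  | 0 => Pat.vac
  | n + 1 => Pat.c 1 (bb n)

lemma bb_fn (n : ℕ) : ∀ s, (bb n).fn s =
    if s = 0 ∨ 2 * n + 1 ≤ s then s else if s % 2 = 1 then s + 1 else s - 1 := by
  induction n with
  | zero =>
    intro s
    show s = _
    rw [if_pos (by omega)]
  | succ n ih =>
    intro s
    show cupF 1 (bb n).fn s = _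
    unfold cupF
    by_cases h1 : s = 1
    · rw [if_pos h1, if_neg (by omega), if_pos (by omega), h1]
    by_cases h2 : s = 1 + 1
    · rw [if_neg h1, if_pos h2, if_neg (by omega), if_neg (by omega), h2]
    rw [if_neg h1, if_neg h2, ih]
    unfold up dn
    split_ifs <;> omega

lemma bb_mem (n : ℕ) : bb n ∈ Pat.PN (2 * n + 2) 2 := by
  induction n with
  | zero => exact Pat.mem_PN.2 Pat.Gn.base
  | succ n ih => exact Pat.PNc ih (by omega)

lemma st_start {n : ℕ} (hn : 1 ≤ n) : St (2 * n) (some (bb (n - 1))) pb := by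
  refine ⟨pp_pb (by omega), ?_, ?_, ?_⟩
  · show (1 : ℕ) ≠ 2 * n + 1
    omega
  · intro s hs
    rw [bb_fn, if_pos (by omega)]
  · intro s hs
    rw [bb_fn]
    unfold pb
    split_ifs <;> omega

/-- the pattern is `|()()...()|` iff the bent pairing is -/
theorem St.eq_b {n : ℕ} (hn : 1 ≤ n) {o : Option Pat} {g : ℕ → ℕ} (h : St (2 * n) o g) :
    o = some (bb (n - 1)) ↔ ∀ s, s < 2 * n + 2 → g s = pb s := by
  constructor
  · rintro rfl
    have hB : Bd (2 * n) (bb (n - 1)).fn g := h
    have hpar := hB.par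
    have hpp := hB.pp
    have hal := hB.alive
    have h1 : g 1 = 0 := by
      rcases hpar 0 (by omega) with ⟨h3, _⟩ | ⟨_, h3 | h3⟩
      · rw [bb_fn, if_pos (Or.inl rfl)] at h3
        exact absurd rfl h3
      · exact h3
      · exfalso
        have h4 := hpar (2 * n - 1) (by omega)
        rw [bb_fn, if_pos (by omega), show 2 * n - 1 + 1 = 2 * n by omega] at h4
        have h5 : g (2 * n) = 0 ∨ g (2 * n) = 2 * n + 1 := by
          rcases h4 with ⟨h4, _⟩ | ⟨_, h4⟩
          · exact absurd rfl h4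
          · exact h4
        have i1 := hpp.inv 1 (by omega)
        have i2 := hpp.inv (2 * n) (by omega)
        rcases h5 with h5 | h5
        · rw [h5] at i2
          have i1' : g (2 * n + 1) = 1 := by
            have h3' : g 1 = 2 * n + 1 := h3
            rw [h3'] at i1
            exact i1
          by_cases hn1 : n = 1
          · subst hn1
            have h3' : g 1 = 3 := h3
            have h6 : g 0 = 2 := i2
            exact hpp.nc 0 1 (by omega) (by omega) (by omega) (by omega) (by omega)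
          · have h3' : g 1 = 2 * n + 1 := h3
            exact hpp.nc 0 1 (by omega) (by omega) (by omega) (by omega) (by omega)
        · have h3' : g 1 = 2 * n + 1 := h3
          rw [h5] at i2
          rw [h3'] at i1
          omega
    have h0 : g 0 = 1 := by
      have := hpp.inv 1 (by omega)
      rwa [h1] at this
    have hL : g (2 * n) = 2 * n + 1 := by
      have h4 := hpar (2 * n - 1) (by omega)
      rw [bb_fn, if_pos (by omega), show 2 * n - 1 + 1 = 2 * n by omega] at h4
      rcases h4 with ⟨h4, _⟩ | ⟨_, h4 | h4⟩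
      · exact absurd rfl h4
      · have i2 := hpp.inv (2 * n) (by omega)
        rw [h4, h0] at i2
        omega
      · exact h4
    intro s hs
    by_cases c1 : s = 0
    · rw [c1, h0]; rfl
    by_cases c2 : s = 2 * n + 1
    · have i2 := hpp.inv (2 * n) (by omega)
      rw [hL] at i2
      rw [c2, i2]
      unfold pb
      rw [if_neg (by omega)]
      omega
    by_cases c3 : s = 1
    · rw [c3, h1]; rfl
    by_cases c4 : s = 2 * n
    · rw [c4, hL]
      unfold pb
      rw [if_pos (by omega)]
    obtain ⟨t, rfl⟩ : ∃ t, s = t + 1 := ⟨s - 1, by omega⟩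
    have h4 := hpar t (by omega)
    rw [bb_fn, if_neg (by omega)] at h4
    rcases h4 with ⟨_, h4⟩ | ⟨h4, _⟩
    · rw [h4]
      unfold pb
      split_ifs <;> omega
    · exfalso
      split_ifs at h4 <;> omega
  · intro H
    have hal : o ≠ none := by
      rw [h.alive_iff, H 0 (by omega)]
      show (1 : ℕ) ≠ 2 * n + 1
      omega
    obtain ⟨f, rfl⟩ := Option.ne_none_iff_exists'.1 hal
    have hB : Bd (2 * n) f.fn g := h
    rw [Option.some.injEq]
    refine Pat.ext_fn (funext fun s => ?_)
    rw [bb_fn]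
    by_cases c0 : 2 * n ≤ s
    · rw [hB.fix s c0, if_pos (by omega)]
    have h1 := hB.par s (by omega)
    have h2 := H (s + 1) (by omega)
    have h3 : f.fn s < 2 * n := by
      by_contra hcon
      have h4 := hB.fix (f.fn s) (by omega)
      rw [f.inv] at h4
      omega
    rw [h2] at h1
    unfold pb at h1
    by_cases c1 : (s + 1) % 2 = 0
    · rw [if_pos c1] at h1
      by_cases c2 : 2 * (n - 1) + 1 ≤ s
      · rw [if_pos (Or.inr c2)]
        omega
      · rw [if_neg (by omega), if_pos (by omega)]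
        omega
    · rw [if_neg c1] at h1
      by_cases c2 : s = 0
      · rw [if_pos (Or.inl c2)]
        omega
      · rw [if_neg (by omega), if_neg (by omega)]
        omega

/-! ### the word statement on patterns -/

/-- the pattern after the tiles `b` of `M` double rows and the merges `c` -/
def wo (n : ℕ) (b : ℕ → ℕ → Bool) (M : ℕ) (c : ℕ → Bool) (m : ℕ) : Option Pat :=
  topm IO c m (drows IO (2 * n) b M (some (bb (n - 1))))

theorem wo_all {n : ℕ} (hn : 1 ≤ n) (b : ℕ → ℕ → Bool) (M : ℕ) (c : ℕ → Bool) {m : ℕ}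
    (hm : m + 1 ≤ n) : wo n b M c m = some (bb (n - 1)) ↔
      ∀ j : ℕ, j % 2 = 1 → j < 2 * n →
        topm IR c m (drows IR (2 * n) b M (fun _ _ => True)) none (some j) := by
  have h1 : St (2 * n) (wo n b M c m) (topm IPr c m (drows IPr (2 * n) b M pb)) :=
    ((st_start hn).drows b M).topm c m (by omega)
  have h2 := (sim_rows n b M).topm (by omega) c m (by omega)
  rw [h1.eq_b hn, ← h2.all (by omega)]

theorem wo_alive {n : ℕ} (hn : 1 ≤ n) (b : ℕ → ℕ → Bool) (M : ℕ) (c : ℕ → Bool) {m : ℕ}
    (hm : m + 1 ≤ n) : wo n b M c m ≠ none ↔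
      ∃ j : ℕ, j % 2 = 1 ∧ j < 2 * n ∧
        topm IR c m (drows IR (2 * n) b M (fun _ _ => True)) none (some j) := by
  have h1 : St (2 * n) (wo n b M c m) (topm IPr c m (drows IPr (2 * n) b M pb)) :=
    ((st_start hn).drows b M).topm c m (by omega)
  have h2 := (sim_rows n b M).topm (by omega) c m (by omega)
  rw [h1.alive_iff, h2.alive (by omega)]

/-! ### the linear moves -/

section lin
open Rect.Alg Module
variable (K : Type*) [Field K]

/-- the tower of the patterns -/
noncomputable abbrev TP : Tower K (Pat →₀ K) := patSys.tower K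

/-- the linear moves -/
noncomputable def LI : LInterp K (Pat →₀ K) where
  up := (TP K).c 0
  dn := (TP K).k 0
  tl i b := if i % 2 = 1 then (if b then (TP K).e i else 1) else (if b then 1 else (TP K).e i)

theorem c_toV (i : ℕ) (o : Option Pat) : (TP K).c i (toV K o) = toV K (o.map (Pat.c i)) := by
  rw [PatSys.tower_c_lin, lin_toV]
  cases o <;> rfl

theorem k_toV (i : ℕ) (o : Option Pat) : (TP K).k i (toV K o) = toV K (o.bind (Pat.k i)) := by
  rw [PatSys.tower_k_lin, lin_toV]
  rfl

theorem e_toV (i : ℕ) (o : Option Pat) : (TP K).e i (toV K o) = toV K (eO i o) := by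
  rw [Tower.e_def, Module.End.mul_apply, k_toV, c_toV]
  rfl

theorem tl_toV (i : ℕ) (b : Bool) (o : Option Pat) :
    (LI K).toI.tl i b (toV K o) = toV K (IO.tl i b o) := by
  show (if i % 2 = 1 then (if b then (TP K).e i else 1) else (if b then 1 else (TP K).e i) :
    Module.End K (Pat →₀ K)) (toV K o) =
    toV K (if i % 2 = 1 then (if b then eO i o else o) else (if b then o else eO i o))
  by_cases hp : i % 2 = 1
  · rw [if_pos hp, if_pos hp]
    cases b with
    | false => rfl
    | true => exact e_toV K i o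
  · rw [if_neg hp, if_neg hp]
    cases b with
    | false => exact e_toV K i o
    | true => rfl

theorem topm_toV (c : ℕ → Bool) (o : Option Pat) : ∀ m : ℕ,
    topm (LI K).toI c m (toV K o) = toV K (topm IO c m o)
  | 0 => rfl
  | m + 1 => by
    show (LI K).toI.tl _ _ (topm (LI K).toI c m (toV K o)) = toV K (IO.tl _ _ (topm IO c m o))
    rw [topm_toV c o m, tl_toV]

theorem drows_toV (N : ℕ) (b : ℕ → ℕ → Bool) (M : ℕ) (o : Option Pat) :
    drows (LI K).toI N b M (toV K o) = toV K (drows IO N b M o) :=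
  (D4.drows_map IO (LI K).toI (toV K) (fun s => (c_toV K 0 s).symm) (fun s => (k_toV K 0 s).symm)
    (fun i b s => (tl_toV K i b s).symm) N b M o).symm

/-- the starting vector -/
noncomputable def vb (n : ℕ) : Pat →₀ K := Finsupp.single (bb (n - 1)) 1

theorem wo_toV (n : ℕ) (b : ℕ → ℕ → Bool) (M : ℕ) (c : ℕ → Bool) (m : ℕ) :
    topm (LI K).toI c m (drows (LI K).toI (2 * n) b M (vb K n)) = toV K (wo n b M c m) := by
  unfold vb wo
  rw [← toV_some, drows_toV, topm_toV]

theorem lapply_toV (f : Pat) (o : Option Pat) :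
    Finsupp.lapply (R := K) f (toV K o) = if o = some f then 1 else 0 := by
  cases o with
  | none => simp
  | some g =>
    rw [toV_some, Finsupp.lapply_apply, Finsupp.single_apply]
    simp only [Option.some.injEq]

theorem tot_toV (o : Option Pat) : tot K (toV K o) = if o = none then 0 else 1 := by
  cases o with
  | none => simp
  | some g =>
    rw [toV_some, tot_single, if_neg (by simp)]

/-! ### the transfer operator -/

theorem LI_X (h2 : (2 : K) ≠ 0) (i : ℕ) : (LI K).X i = (TP K).X i (2⁻¹) := by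
  unfold LInterp.X
  rw [Tower.X_def]
  have h3 : (1 : K) - 2⁻¹ = 2⁻¹ := by
    field_simp
    norm_num
  rw [h3]
  show (2 : K)⁻¹ • ((if i % 2 = 1 then (if false = true then (TP K).e i else 1) else
    (if false = true then 1 else (TP K).e i)) + (if i % 2 = 1 then (if true = true then (TP K).e i else 1) else
    (if true = true then 1 else (TP K).e i))) = _
  by_cases hp : i % 2 = 1
  · simp only [hp, if_true, Bool.false_eq_true, if_false, smul_add]
  · simp only [hp, if_true, Bool.false_eq_true, if_false, smul_add]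
    rw [add_comm]

theorem LI_BF (h2 : (2 : K) ≠ 0) : ∀ m n : ℕ,
    (LI K).B m * (TP K).Ah n (m + 1) (2⁻¹) * (LI K).F m = (TP K).Ah (m + n) 1 (2⁻¹)
  | 0, n => by
    have e : (TP K).Ah n (0 + 1) (2⁻¹) = (TP K).Ah (0 + n) 1 (2⁻¹) := by
      rw [Nat.zero_add, Nat.zero_add]
    rw [← e]
    rfl
  | m + 1, n => by
    have h := LI_BF h2 m (n + 1)
    rw [Tower.Ah_succ] at h
    have e1 : (LI K).B (m + 1) = (LI K).B m * (TP K).X (m + 1) (2⁻¹) := by
      rw [← LI_X K h2]; rfl
    have e2 : (LI K).F (m + 1) = (TP K).X (m + 1) (2⁻¹) * (LI K).F m := by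
      rw [← LI_X K h2]; rfl
    rw [e1, e2, show m + 1 + n = m + (n + 1) by ring, ← h]
    simp only [mul_assoc]

/-- **the transfer operator is the double row matrix** -/
theorem LI_T (h2 : (2 : K) ≠ 0) (N : ℕ) : (LI K).T N = (TP K).Dh N 0 (2⁻¹) := by
  have h := LI_BF K h2 N 0
  rw [Nat.add_zero] at h
  have h3 : (TP K).Ah 0 (N + 1) (2⁻¹) = 1 := rfl
  rw [h3, mul_one] at h
  have h4 := (TP K).cap (fun _ : Unit => (2⁻¹ : K)) (fun _ => 2⁻¹) (List.replicate N ()) 0
  rw [Tower.Dh_def, ← h4]
  have h5 : (TP K).A (fun _ : Unit => (2⁻¹ : K)) (fun _ => 2⁻¹) (0 + 1) (List.replicate N ()) =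
      (LI K).B N * (LI K).F N := h.symm
  rw [h5]
  rfl

end lin

/-! ### the dictionary -/

open Rect.Alg in
/-- **`P n M` is the sum of the coefficients of `T^M b`** -/
theorem P_dict {n : ℕ} (hn : 1 ≤ n) (M : ℕ) :
    P n M = tot ℝ ((((TP ℝ).Dh (2 * n) 0 (2⁻¹)) ^ M) (vb ℝ n)) := by
  rw [← LI_T ℝ two_ne_zero]
  refine H47Perc.RC.P_eq (LI ℝ) hn M (vb ℝ n) (tot ℝ) (fun b => ?_)
  have h1 := wo_toV ℝ n b M (fun _ => false) 0
  have h2 := wo_alive hn b M (fun _ => false) (m := 0) (by omega)
  have e1 : drows (LI ℝ).toI (2 * n) b M (vb ℝ n) = toV ℝ (wo n b M (fun _ => false) 0) := h1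
  rw [e1, tot_toV]
  have e2 : (∃ j : ℕ, j % 2 = 1 ∧ j < 2 * n ∧ drows IR (2 * n) b M (fun _ _ => True) none (some j)) ↔
      wo n b M (fun _ => false) 0 ≠ none := h2.symm
  rw [e2]
  constructor
  · intro h
    rw [if_neg h]
  · intro h
    rw [if_pos (not_not.1 h)]

open Rect.Alg in
/-- **`pA n M` is the coefficient of `b` in `T^M b`** -/
theorem pA_dict {n : ℕ} (hn : 1 ≤ n) (M : ℕ) :
    pA n M = ((((TP ℝ).Dh (2 * n) 0 (2⁻¹)) ^ M) (vb ℝ n)) (bb (n - 1)) := by
  rw [← LI_T ℝ two_ne_zero]
  refine H47Perc.RC.pA_eq (LI ℝ) M (vb ℝ n) (Finsupp.lapply (bb (n - 1))) (fun b => ?_)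
  have h1 := wo_toV ℝ n b M (fun _ => false) 0
  have h2 := wo_all hn b M (fun _ => false) (m := 0) (by omega)
  have e1 : drows (LI ℝ).toI (2 * n) b M (vb ℝ n) = toV ℝ (wo n b M (fun _ => false) 0) := h1
  rw [e1, lapply_toV]
  have e2 : (∀ j : ℕ, j % 2 = 1 → j < 2 * n → drows IR (2 * n) b M (fun _ _ => True) none (some j)) ↔
      wo n b M (fun _ => false) 0 = some (bb (n - 1)) := h2.symm
  rw [e2]
  constructor
  · intro h
    rw [if_pos h]
  · intro h
    rw [if_neg h]

/-- `(1 + e_{2m-1}) ... (1 + e_1)` -/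
noncomputable def PmT (m : ℕ) : Module.End ℝ (Pat →₀ ℝ) :=
  match m with
  | 0 => 1
  | k + 1 => (1 + (TP ℝ).e (2 * k + 1)) * PmT k

theorem LI_Pm : ∀ m : ℕ, (LI ℝ).Pm m = PmT m
  | 0 => rfl
  | k + 1 => by
    have e : (LI ℝ).tl (2 * k + 1) false + (LI ℝ).tl (2 * k + 1) true = 1 + (TP ℝ).e (2 * k + 1) := by
      show (if (2 * k + 1) % 2 = 1 then (if false = true then (TP ℝ).e (2 * k + 1) else 1) else
        (if false = true then 1 else (TP ℝ).e (2 * k + 1))) +
        (if (2 * k + 1) % 2 = 1 then (if true = true then (TP ℝ).e (2 * k + 1) else 1) else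
        (if true = true then 1 else (TP ℝ).e (2 * k + 1))) = _
      have hp : (2 * k + 1) % 2 = 1 := by omega
      rw [if_pos hp, if_pos hp]
      simp
    show ((LI ℝ).tl (2 * k + 1) false + (LI ℝ).tl (2 * k + 1) true) ∘ₗ (LI ℝ).Pm k = _
    rw [e, LI_Pm k]
    rfl

open Rect.Alg in
/-- **the merged events** -/
theorem sum_pI_dict {n : ℕ} (hn : 1 ≤ n) (M : ℕ) :
    ∑ I ∈ (range (n - 1)).powerset, pI n M I =
      (PmT (n - 1) ((((TP ℝ).Dh (2 * n) 0 (2⁻¹)) ^ M) (vb ℝ n))) (bb (n - 1)) := by
  rw [← LI_T ℝ two_ne_zero, ← LI_Pm]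
  refine H47Perc.RC.sum_pI_eq (LI ℝ) hn M (vb ℝ n) (Finsupp.lapply (bb (n - 1))) (fun b c => ?_)
  have h1 := wo_toV ℝ n b M c (n - 1)
  have h2 := wo_all hn b M c (m := n - 1) (by omega)
  rw [h1, lapply_toV, ← h2]
  constructor
  · intro h
    rw [if_pos h]
  · intro h
    rw [if_neg h]

end H81Rect
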