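import Pool.Agent.Rect.Perc.Sym
import Pool.Agent.Helper81.Rect.Diag
import Pool.Agent.Helper47.Arms.Dual

/-!
Exact duality for diagonal rectangles: either there is an open crossing in the `w`-direction or a
dual crossing in the `u`-direction, never both.  Consequences for the crossing probabilities.
-/

set_option autoImplicit false

namespace H47Perc.RC
open Finset H47Perc
open Pool.Agent.Helper69.RSW (P_congr P_compl)
open H47Perc.Arms (dI du mem_du dI_hE dI_vE P_du mem_edgesIn_lattice fine fine_primal_dual FineSup dbl mid)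

/-! ### the counting lemma -/

/-- the products of the two diagonals of all squares of a rectangle telescope -/
lemma sq_count (A B : ℕ) (h : ℕ → ℕ → ZMod 2) :
    ∑ i ∈ range A, ∑ j ∈ range B, (h i j + h (i+1) (j+1)) * (h (i+1) j + h i (j+1)) =
      ∑ i ∈ range A, (h i 0 * h (i+1) 0 + h i B * h (i+1) B) +
      ∑ j ∈ range B, (h 0 j * h 0 (j+1) + h A j * h A (j+1)) := by
  have e1 : ∀ i j, (h i j + h (i+1) (j+1)) * (h (i+1) j + h i (j+1)) =
      (h i j * h (i+1) j + h i (j+1) * h (i+1) (j+1)) +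
      (h i j * h i (j+1) + h (i+1) j * h (i+1) (j+1)) := by
    intro i j
    ring
  simp only [e1, sum_add_distrib]
  have e2 : ∑ i ∈ range A, ∑ j ∈ range B, h i j * h (i+1) j +
      ∑ i ∈ range A, ∑ j ∈ range B, h i (j+1) * h (i+1) (j+1) =
      ∑ i ∈ range A, h i 0 * h (i+1) 0 + ∑ i ∈ range A, h i B * h (i+1) B := by
    rw [← sum_add_distrib, ← sum_add_distrib]
    apply sum_congr rfl
    intro i _
    rw [← sum_add_distrib]
    exact tel2 (fun j => h i j * h (i+1) j) B
  have e3 : ∑ i ∈ range A, ∑ j ∈ range B, h i j * h i (j+1) +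
      ∑ i ∈ range A, ∑ j ∈ range B, h (i+1) j * h (i+1) (j+1) =
      ∑ j ∈ range B, h 0 j * h 0 (j+1) + ∑ j ∈ range B, h A j * h A (j+1) := by
    rw [← sum_add_distrib, ← sum_add_distrib]
    simp only [← sum_add_distrib]
    rw [sum_comm]
    apply sum_congr rfl
    intro j _
    exact tel2 (fun i => h i j * h i (j+1)) A
  rw [e2, e3]

theorem diag_count (n M : ℕ) (h : ℕ → ℕ → ZMod 2)
    (hb : ∀ i ≤ 2 * n, i % 2 = 1 → h i 0 = 1) (ht : ∀ i ≤ 2 * n, i % 2 = 1 → h i (2 * M) = 0)
    (hl : ∀ j ≤ 2 * M, j % 2 = 0 → h 0 j = 1) (hr : ∀ j ≤ 2 * M, j % 2 = 0 → h (2 * n) j = 0)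
    (H : ∀ i < 2 * n, ∀ j < 2 * M, (h i j + h (i+1) (j+1)) * (h (i+1) j + h i (j+1)) = 0) :
    False := by
  have h2 : ∀ a : ZMod 2, a + a = 0 := CharTwo.add_self_eq_zero
  have h0 := sq_count (2 * n) (2 * M) h
  rw [sum_eq_zero (fun i hi => sum_eq_zero (fun j hj => H i (mem_range.1 hi) j (mem_range.1 hj))),
    sum_add_distrib, sum_add_distrib] at h0
  have hbot : ∀ k ≤ n, ∑ i ∈ range (2 * k), h i 0 * h (i+1) 0 = h 0 0 + h (2 * k) 0 := by
    intro k
    induction k with
    | zero =>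
      intro _
      simp [h2]
    | succ k ih =>
      intro hk
      rw [show 2 * (k + 1) = 2 * k + 1 + 1 by ring, sum_range_succ, sum_range_succ, ih (by omega),
        hb (2 * k + 1) (by omega) (by omega)]
      linear_combination h2 (h (2 * k) 0)
  have hlft : ∀ k ≤ M, ∑ j ∈ range (2 * k), h 0 j * h 0 (j+1) = 0 := by
    intro k
    induction k with
    | zero =>
      intro _
      simp
    | succ k ih =>
      intro hk
      rw [show 2 * (k + 1) = 2 * k + 1 + 1 by ring, sum_range_succ, sum_range_succ, ih (by omega),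
        hl (2 * k) (by omega) (by omega), hl (2 * k + 1 + 1) (by omega) (by omega)]
      linear_combination h2 (h 0 (2 * k + 1))
  have htop : ∑ i ∈ range (2 * n), h i (2 * M) * h (i+1) (2 * M) = 0 := by
    apply sum_eq_zero
    intro i hi
    rw [mem_range] at hi
    rcases Nat.even_or_odd i with ⟨c, hc⟩ | ⟨c, hc⟩
    · rw [ht (i + 1) (by omega) (by omega), mul_zero]
    · rw [ht i (by omega) (by omega), zero_mul]
  have hrgt : ∑ j ∈ range (2 * M), h (2 * n) j * h (2 * n) (j+1) = 0 := by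
    apply sum_eq_zero
    intro j hj
    rw [mem_range] at hj
    rcases Nat.even_or_odd j with ⟨c, hc⟩ | ⟨c, hc⟩
    · rw [hr j (by omega) (by omega), zero_mul]
    · rw [hr (j + 1) (by omega) (by omega), mul_zero]
  rw [hbot n le_rfl, hlft M le_rfl, htop, hrgt, hl 0 (by omega) (by omega),
    hr 0 (by omega) (by omega)] at h0
  exact absurd h0 (by decide)

/-! ### the deterministic statement -/

/-- the vertex with `u = i`, `w = j + 1` -/
def vxp (i j : ℕ) : ℤ × ℤ := (((i : ℤ) + (j + 1)) / 2, ((i : ℤ) - (j + 1)) / 2)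

/-- the face with `u = i`, `w = j + 1` -/
def fxp (i j : ℕ) : ℤ × ℤ := (((i : ℤ) + j) / 2, ((i : ℤ) - j - 2) / 2)

/-- the edges of the rectangle -/
noncomputable def FD (n M : ℕ) : Finset (Sym2 (ℤ × ℤ)) := edgesIn (drect 0 (2 * n) 1 (2 * M + 1))

theorem cr_or_dual (n M : ℕ) (ω : Finset (Sym2 (ℤ × ℤ))) :
    Cr 1 (2 * M + 1) ω ∨ CrU (-1) (2 * n - 1) (du (FD n M) ω) := by
  classical
  by_contra hcon
  rw [not_or] at hcon
  obtain ⟨c1, c2⟩ := hcon
  set δ := du (FD n M) ω with hδ
  let A : ℤ × ℤ → Prop := fun z => ∃ z' : ℤ × ℤ, z'.1 - z'.2 = 1 ∧ Joined ω z' z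
  let B : ℤ × ℤ → Prop := fun z => ∃ z' : ℤ × ℤ, z'.1 + z'.2 = -1 ∧ Joined δ z' z
  let h : ℕ → ℕ → ZMod 2 := fun i j => if (i + j) % 2 = 1 then (if A (vxp i j) then 1 else 0)
    else (if B (fxp i j) then 1 else 0)
  have hodd : ∀ i j, (i + j) % 2 = 1 → h i j = if A (vxp i j) then 1 else 0 := by
    intro i j hij
    simp only [h]
    rw [if_pos hij]
  have heven : ∀ i j, (i + j) % 2 = 0 → h i j = if B (fxp i j) then 1 else 0 := by
    intro i j hij
    simp only [h]
    rw [if_neg (by omega)]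
  have hA : ∀ u v : ℤ × ℤ, s(u, v) ∈ ω → (A u ↔ A v) := by
    intro u v he
    constructor
    · rintro ⟨z', h1, h2⟩
      exact ⟨z', h1, joined_trans h2 (joined_edge he)⟩
    · rintro ⟨z', h1, h2⟩
      exact ⟨z', h1, joined_trans h2 (joined_symm (joined_edge he))⟩
  have hB : ∀ u v : ℤ × ℤ, s(u, v) ∈ δ → (B u ↔ B v) := by
    intro u v he
    constructor
    · rintro ⟨z', h1, h2⟩
      exact ⟨z', h1, joined_trans h2 (joined_edge he)⟩
    · rintro ⟨z', h1, h2⟩
      exact ⟨z', h1, joined_trans h2 (joined_symm (joined_edge he))⟩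
  have hz : ∀ p q : Prop, (p ↔ q) → (if p then (1 : ZMod 2) else 0) + (if q then 1 else 0) = 0 := by
    intro p q hpq
    by_cases hp : p
    · rw [if_pos hp, if_pos (hpq.1 hp)]
      exact CharTwo.add_self_eq_zero _
    · rw [if_neg hp, if_neg (fun hq => hp (hpq.2 hq)), add_zero]
  refine diag_count n M h ?_ ?_ ?_ ?_ ?_
  · intro i hi hi2
    rw [hodd i 0 (by omega), if_pos]
    refine ⟨vxp i 0, ?_, joined_refl _ _⟩
    unfold vxp
    simp only
    omega
  · intro i hi hi2
    rw [hodd i (2 * M) (by omega), if_neg]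
    rintro ⟨z', h1, h2⟩
    refine c1 ⟨z', vxp i (2 * M), h1, ?_, h2⟩
    unfold vxp
    simp only
    push_cast
    omega
  · intro j hj hj2
    rw [heven 0 j (by omega), if_pos]
    refine ⟨fxp 0 j, ?_, joined_refl _ _⟩
    unfold fxp
    simp only
    push_cast
    omega
  · intro j hj hj2
    rw [heven (2 * n) j (by omega), if_neg]
    rintro ⟨z', h1, h2⟩
    refine c2 ⟨z', fxp (2 * n) j, h1, ?_, h2⟩
    unfold fxp
    simp only
    push_cast
    omega
  · intro i hi j hj
    rcases Nat.even_or_odd (i + j) with ⟨c, hc⟩ | ⟨c, hc⟩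
    · -- dual diagonal `(i,j)`, `(i+1,j+1)`
      rw [heven i j (by omega), heven (i+1) (j+1) (by omega), hodd (i+1) j (by omega),
        hodd i (j+1) (by omega)]
      obtain ⟨a, ha⟩ : ∃ a : ℤ, a = ((i : ℤ) + j) / 2 := ⟨_, rfl⟩
      obtain ⟨b, hb⟩ : ∃ b : ℤ, b = ((i : ℤ) - j - 2) / 2 := ⟨_, rfl⟩
      have f1 : fxp i j = (a, b) := by
        unfold fxp; rw [ha, hb]
      have f2 : fxp (i+1) (j+1) = (a + 1, b) := by
        unfold fxp; rw [Prod.mk.injEq]; push_cast; omega
      have f3 : vxp (i+1) j = (a + 1, b + 1) := by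
        unfold vxp; rw [Prod.mk.injEq]; push_cast; omega
      have f4 : vxp i (j+1) = (a + 1, b) := by
        unfold vxp; rw [Prod.mk.injEq]; push_cast; omega
      rw [f1, f2, f3, f4]
      by_cases he : vE (a + 1) b ∈ ω
      · rw [hz (A (a + 1, b + 1)) (A (a + 1, b)) (hA _ _ he).symm, mul_zero]
      · have hm : hE a b ∈ δ := by
          rw [hδ]
          unfold du
          rw [mem_image]
          refine ⟨vE (a + 1) b, ?_, ?_⟩
          · rw [mem_sdiff]
            refine ⟨?_, he⟩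
            unfold FD
            rw [vE_mem, mem_drect, mem_drect]
            simp only
            omega
          · rw [dI_vE]
            congr 1
            ring
        rw [hz (B (a, b)) (B (a + 1, b)) (hB _ _ hm), zero_mul]
    · rw [hodd i j (by omega), hodd (i+1) (j+1) (by omega), heven (i+1) j (by omega),
        heven i (j+1) (by omega)]
      obtain ⟨x, hx⟩ : ∃ x : ℤ, x = ((i : ℤ) + (j + 1)) / 2 := ⟨_, rfl⟩
      obtain ⟨y, hy⟩ : ∃ y : ℤ, y = ((i : ℤ) - (j + 1)) / 2 := ⟨_, rfl⟩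
      have f1 : vxp i j = (x, y) := by
        unfold vxp; rw [hx, hy]
      have f2 : vxp (i+1) (j+1) = (x + 1, y) := by
        unfold vxp; rw [Prod.mk.injEq]; push_cast; omega
      have f3 : fxp (i+1) j = (x, y - 1 + 1) := by
        unfold fxp; rw [Prod.mk.injEq]; push_cast; omega
      have f4 : fxp i (j+1) = (x, y - 1) := by
        unfold fxp; rw [Prod.mk.injEq]; push_cast; omega
      rw [f1, f2, f3, f4]
      by_cases he : hE x y ∈ ω
      · rw [hz (A (x, y)) (A (x + 1, y)) (hA _ _ he), zero_mul]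
      · have hm : vE x (y - 1) ∈ δ := by
          rw [hδ]
          unfold du
          rw [mem_image]
          refine ⟨hE x y, ?_, dI_hE x y⟩
          rw [mem_sdiff]
          refine ⟨?_, he⟩
          unfold FD
          rw [hE_mem, mem_drect, mem_drect]
          simp only
          omega
        rw [hz (B (x, y - 1 + 1)) (B (x, y - 1)) (hB _ _ hm).symm, mul_zero]

/-- the edges of the dual rectangle -/
lemma image_dI (n M : ℕ) :
    (FD n M).image dI = edgesIn (drect (-1) (2 * n - 1) 1 (2 * M + 1)) := by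
  ext e
  rw [mem_image]
  constructor
  · rintro ⟨e', he', rfl⟩
    unfold FD at he'
    rcases edgesIn_cases he' with ⟨i, j, rfl⟩ | ⟨i, j, rfl⟩
    · rw [hE_mem, mem_drect, mem_drect] at he'
      rw [dI_hE, vE_mem, mem_drect, mem_drect]
      simp only at he' ⊢
      omega
    · rw [vE_mem, mem_drect, mem_drect] at he'
      rw [dI_vE, hE_mem, mem_drect, mem_drect]
      simp only at he' ⊢
      omega
  · intro he
    rcases edgesIn_cases he with ⟨i, j, rfl⟩ | ⟨i, j, rfl⟩
    · refine ⟨vE (i + 1) j, ?_, ?_⟩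
      · unfold FD
        rw [hE_mem, mem_drect, mem_drect] at he
        rw [vE_mem, mem_drect, mem_drect]
        simp only at he ⊢
        omega
      · rw [dI_vE]
        congr 1
        ring
    · refine ⟨hE i (j + 1), ?_, ?_⟩
      · unfold FD
        rw [vE_mem, mem_drect, mem_drect] at he
        rw [hE_mem, mem_drect, mem_drect]
        simp only at he ⊢
        omega
      · rw [dI_hE]
        congr 1
        ring

theorem not_both {n M : ℕ} (hn : 1 ≤ n) (hM : 1 ≤ M) {ω : Finset (Sym2 (ℤ × ℤ))}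
    (hω : ω ⊆ FD n M) (h1 : Cr 1 (2 * M + 1) ω) (h2 : CrU (-1) (2 * n - 1) (du (FD n M) ω)) :
    False := by
  obtain ⟨z, z', hz, hz', hj⟩ := h1
  obtain ⟨f, f', hf, hf', hj'⟩ := h2
  have hδ : du (FD n M) ω ⊆ edgesIn (drect (-1) (2 * n - 1) 1 (2 * M + 1)) := by
    rw [← image_dI]
    exact image_subset_image sdiff_subset
  have hne : z ≠ z' := by
    rintro rfl
    omega
  have hne' : f ≠ f' := by
    rintro rfl
    omega
  unfold FD at hω
  obtain ⟨p, hp1, hp2⟩ := joined_walk_in hω (mem_of_joined_ne hω hj hne) hj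
  obtain ⟨q, hq1, hq2⟩ := joined_walk_in hδ (mem_of_joined_ne hδ hj' hne') hj'
  obtain ⟨Pw, hP⟩ := fine (0, 0) p
  obtain ⟨Qw, hQ⟩ := fine (1, 1) q
  have hP2 : ∀ w ∈ Pw.support, w ∈ H81Rect.dbox 0 (4 * n) 2 (4 * M + 2) := by
    intro w hw
    rw [H81Rect.mem_dbox]
    rcases hP w hw with ⟨a, ha, rfl⟩ | ⟨a, b, hab, rfl⟩
    · have := hp2 a ha
      rw [mem_drect] at this
      unfold dbl
      simp only
      omega
    · have e1 := hp2 a (p.fst_mem_support_of_mem_edges hab)
      have e2 := hp2 b (p.snd_mem_support_of_mem_edges hab)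
      rw [mem_drect] at e1 e2
      unfold mid
      simp only
      omega
  have hQ2 : ∀ w ∈ Qw.reverse.support, w ∈ H81Rect.dbox 0 (4 * n) 2 (4 * M + 2) := by
    intro w hw
    rw [SimpleGraph.Walk.support_reverse, List.mem_reverse] at hw
    rw [H81Rect.mem_dbox]
    rcases hQ w hw with ⟨a, ha, rfl⟩ | ⟨a, b, hab, rfl⟩
    · have := hq2 a ha
      rw [mem_drect] at this
      unfold dbl
      simp only
      omega
    · have e1 := hq2 a (q.fst_mem_support_of_mem_edges hab)
      have e2 := hq2 b (q.snd_mem_support_of_mem_edges hab)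
      rw [mem_drect] at e1 e2
      unfold mid
      simp only
      omega
  obtain ⟨w, hw1, hw2⟩ := H81Rect.diag_cross Qw.reverse Pw hQ2 hP2
    (by unfold dbl; simp only; omega) (by unfold dbl; simp only; omega)
    (by unfold dbl; simp only; omega) (by unfold dbl; simp only; omega)
  rw [SimpleGraph.Walk.support_reverse, List.mem_reverse] at hw1
  obtain ⟨a, b, hab, hc⟩ := fine_primal_dual (hP w hw2) (hQ w hw1)
  have h3 := (mem_du (fun e he => mem_edgesIn_lattice he)).1 (hq1 _ hab)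
  exact h3.2.2 (hp1 _ hc)

/-- **exact duality** -/
theorem dual_exact {n M : ℕ} (hn : 1 ≤ n) (hM : 1 ≤ M) :
    P n M + pC 0 (2 * M) 0 (2 * n) = 1 := by
  have h1 : P n M = Pool.Agent.Helper69.RSW.P (FD n M) (Cr 1 (2 * M + 1)) := by
    unfold P pC FD
    rw [Pool.Agent.Helper69.RSW.perc_half_eq]
  have h2 : pC 0 (2 * M) 0 (2 * n) =
      Pool.Agent.Helper69.RSW.P (FD n M) (fun ω => ¬ Cr 1 (2 * M + 1) ω) := by
    have e1 : Pool.Agent.Helper69.RSW.P (FD n M) (fun ω => ¬ Cr 1 (2 * M + 1) ω) =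
        Pool.Agent.Helper69.RSW.P (FD n M) (fun ω => CrU (-1) (2 * n - 1) (du (FD n M) ω)) := by
      apply P_congr
      intro ω hω
      constructor
      · exact fun h => (cr_or_dual n M ω).resolve_left h
      · exact fun h h' => not_both hn hM hω h' h
    have hF : ∀ e ∈ FD n M, e ∈ lattice.edgeSet := fun e he => mem_edgesIn_lattice he
    rw [e1, P_du hF (CrU (-1) (2 * n - 1)), image_dI, ← Pool.Agent.Helper69.RSW.perc_half_eq,
      perc_CrU]
    have := pC_transl (i := 1) (j := -1) ⟨0, by norm_num⟩ 0 (2 * M) 0 (2 * n)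
    rw [← this]
    congr 1 <;> ring
  rw [h1, h2, P_compl]

/-- **(D2), lower bound** -/
theorem one_sub_le_P {n M : ℕ} (hn : 1 ≤ n) (hM : 1 ≤ M) : 1 - P M (n - 1) ≤ P n M := by
  have h1 := dual_exact hn hM
  have h2 : pC 0 (2 * M) 0 (2 * n) ≤ P M (n - 1) := by
    unfold P
    apply pC_height
    · norm_num
    · push_cast [Nat.cast_sub hn]
      omega
    · push_cast [Nat.cast_sub hn]
      omega
  linarith

/-- **(D2), upper bound** -/
theorem P_le_one_sub {n M : ℕ} (hn : 1 ≤ n) (hM : 1 ≤ M) : P n M ≤ 1 - P (M - 1) n := by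
  have h1 := dual_exact hn hM
  have h2 : P (M - 1) n ≤ pC 0 (2 * M) 0 (2 * n) := by
    rw [← pC_odd (a := 1) (c := 0) ⟨0, by norm_num⟩ (M - 1) n]
    have e1 : (1 : ℤ) + 2 * ((M - 1 : ℕ) : ℤ) = 2 * M - 1 := by
      push_cast [Nat.cast_sub hM]
      ring
    rw [e1]
    apply pC_le <;> omega
  linarith

end H47Perc.RC
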