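import Pool.Agent.Rect.Perc.Defs
import Pool.Agent.Helper81.Rect.Diag

/-!
Crossing probabilities of diagonal rectangles: submultiplicativity, gluing, and the consequences for
the Perron eigenvalue (D5b).
-/

set_option autoImplicit false

namespace H47Perc.RC
open Finset H47Perc
open Pool.Agent.Helper69.RSW (Dep Up P_indep P_restrict P_congr P_le_one)

lemma fek_drect_eq (a b c d : ℤ) : drect a b c d = H81Rect.dbox a b c d := by
  ext z
  rw [mem_drect, H81Rect.mem_dbox]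

lemma fek_drect_mono {a b c d a' b' c' d' : ℤ} (ha : a' ≤ a) (hb : b ≤ b') (hc : c' ≤ c)
    (hd : d ≤ d') : drect a b c d ⊆ drect a' b' c' d' := by
  intro z hz
  rw [mem_drect] at *
  omega

/-! ### symmetries -/

lemma fek_drect_transl (a b c d i j : ℤ) : (drect a b c d).map (transl (i, j)).toEmbedding =
    drect (a + (i + j)) (b + (i + j)) (c + (i - j)) (d + (i - j)) := by
  ext ⟨u, v⟩
  rw [mem_map_equiv, mem_drect, mem_drect]
  simp only [transl, Equiv.addRight_symm, Equiv.coe_addRight, Prod.neg_mk, Prod.mk_add_mk]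
  omega

lemma fek_Cr_transl {c d i j : ℤ} {ω : Finset (Sym2 (ℤ × ℤ))} :
    Cr (c + (i - j)) (d + (i - j)) (ω.map (emb (transl (i, j)))) ↔ Cr c d ω := by
  unfold Cr
  constructor
  · rintro ⟨z, z', h1, h2, h3⟩
    refine ⟨(z.1 - i, z.2 - j), (z'.1 - i, z'.2 - j), by simp only; omega, by simp only; omega, ?_⟩
    rw [← joined_map (f := transl (i, j))]
    simpa [transl] using h3
  · rintro ⟨z, z', h1, h2, h3⟩
    refine ⟨transl (i, j) z, transl (i, j) z', ?_, ?_, joined_map.2 h3⟩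
    · change (z.1 + i) - (z.2 + j) = _
      omega
    · change (z'.1 + i) - (z'.2 + j) = _
      omega

/-- translations -/
lemma fek_pC_transl (a b c d i j : ℤ) :
    pC (a + (i + j)) (b + (i + j)) (c + (i - j)) (d + (i - j)) = pC a b c d := by
  unfold pC
  rw [← fek_drect_transl, perc_half_map (transl_iso _)]
  congr 1
  funext ω
  exact propext fek_Cr_transl

/-- the reflection `(x, y) ↦ (x, -y)` -/
def fekR : ℤ × ℤ ≃ ℤ × ℤ where
  toFun z := (z.1, -z.2)
  invFun z := (z.1, -z.2)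
  left_inv z := by simp
  right_inv z := by simp

lemma fekR_iso : IsIso fekR := by
  rintro ⟨a, b⟩ ⟨c, d⟩
  unfold lattice fekR
  simp only [Equiv.coe_fn_mk, neg_inj, neg_sub_neg]
  rw [abs_sub_comm d b]

lemma fek_drect_R (a b c d : ℤ) : (drect a b c d).map fekR.toEmbedding = drect c d a b := by
  ext ⟨u, v⟩
  rw [mem_map_equiv, mem_drect, mem_drect]
  simp only [fekR, Equiv.symm, Equiv.coe_fn_mk]
  omega

/-- crossing in the `x + y` direction -/
def fekU (a b : ℤ) (ω : Finset (Sym2 (ℤ × ℤ))) : Prop :=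
  ∃ z z' : ℤ × ℤ, z.1 + z.2 = a ∧ z'.1 + z'.2 = b ∧ Joined ω z z'

lemma fek_Cr_R {a b : ℤ} {ω : Finset (Sym2 (ℤ × ℤ))} :
    Cr a b (ω.map (emb fekR)) ↔ fekU a b ω := by
  unfold Cr fekU
  constructor
  · rintro ⟨z, z', h1, h2, h3⟩
    refine ⟨(z.1, -z.2), (z'.1, -z'.2), by simp only; omega, by simp only; omega, ?_⟩
    rw [← joined_map (f := fekR)]
    simpa [fekR] using h3
  · rintro ⟨z, z', h1, h2, h3⟩
    refine ⟨(z.1, -z.2), (z'.1, -z'.2), by simp only; omega, by simp only; omega, ?_⟩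
    rw [← joined_map (f := fekR)] at h3
    simpa [fekR] using h3

lemma fek_pU (a b c d : ℤ) : perc half (drect a b c d) (fekU a b) = pC c d a b := by
  unfold pC
  rw [← fek_drect_R a b c d, perc_half_map fekR_iso]
  congr 1
  funext ω
  exact propext fek_Cr_R.symm

/-- the crossing of the overlap -/
lemma fek_pU_P (n r m : ℕ) :
    perc half (drect 0 (2 * n) (2 * r + 1) (2 * r + 2 * m + 1)) (fekU 0 (2 * n)) = P m n := by
  rw [fek_pU]
  unfold P
  rw [← fek_pC_transl (2 * r + 1) (2 * r + 2 * m + 1) 0 (2 * n) (-r) (-r - 1)]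
  congr 1 <;> ring

lemma fek_pC_P (n r m : ℕ) : pC 0 (2 * n) (2 * r + 1) (2 * (r + m : ℕ) + 1) = P n m := by
  unfold P
  rw [← fek_pC_transl 0 (2 * n) (2 * r + 1) (2 * (r + m : ℕ) + 1) (-r) r]
  push_cast
  congr 1 <;> ring

lemma P_le_one' (n M : ℕ) : P n M ≤ 1 := by
  unfold P pC
  rw [Pool.Agent.Helper69.RSW.perc_half_eq]
  exact P_le_one _ _

/-! ### cutting a path -/

lemma fek_cut {S D : Finset (ℤ × ℤ)} {ω : Finset (Sym2 (ℤ × ℤ))} {u v : ℤ × ℤ}
    (hω : ω ⊆ edgesIn S) (hD : D ⊆ S) (hu : u ∈ D) (h : Joined ω u v) :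
    (v ∈ D ∧ Joined (ω ∩ edgesIn D) u v) ∨ ∃ w w' : ℤ × ℤ, w ∈ D ∧ w' ∉ D ∧ w' ∈ S ∧
      lattice.Adj w w' ∧ Joined (ω ∩ edgesIn D) u w := by
  classical
  have key : ∀ w, Joined (ω ∩ edgesIn D) u w → w ∈ D := by
    intro w hw
    obtain ⟨p, hp⟩ := walk_in hu hw
    exact (hp w p.end_mem_support).1
  have h1 : Joined (ω ∩ edgesIn S) u v := by rwa [inter_eq_left.2 hω]
  rcases joined_trunc h1 hu with h2 | ⟨w, w', h2, h3, h4, h5⟩
  · rw [inter_eq_left.2 hD] at h2
    exact Or.inl ⟨key v h2, h2⟩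
  · rw [inter_eq_left.2 hD] at h5
    exact Or.inr ⟨w, w', key w h5, h2, h3, h4, h5⟩

lemma fek_mem {S : Finset (ℤ × ℤ)} {ω : Finset (Sym2 (ℤ × ℤ))} {u v : ℤ × ℤ}
    (hω : ω ⊆ edgesIn S) (h : Joined ω u v) (hne : u ≠ v) : u ∈ S := by
  obtain ⟨p⟩ := h
  cases p with
  | nil => exact absurd rfl hne
  | cons hab p =>
    rw [SimpleGraph.fromEdgeSet_adj] at hab
    have h1 := hω (by exact_mod_cast hab.1)
    rw [mem_edgesIn] at h1
    exact h1.1

lemma fek_adj {w w' : ℤ × ℤ} (h : lattice.Adj w w') :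
    w'.1 - w'.2 = w.1 - w.2 + 1 ∨ w'.1 - w'.2 = w.1 - w.2 - 1 := by
  rcases h with ⟨h1, h2⟩ | ⟨h1, h2⟩ <;>
  · rcases abs_eq (by norm_num : (0 : ℤ) ≤ 1) |>.1 h2 with h3 | h3 <;> omega

lemma fek_low {a b c m d : ℤ} (h1 : c ≤ m) (h2 : m ≤ d) {ω : Finset (Sym2 (ℤ × ℤ))}
    (hω : ω ⊆ edgesIn (drect a b c d)) (h : Cr c d ω) :
    Cr c m (ω ∩ edgesIn (drect a b c m)) := by
  obtain ⟨z, z', hz, hz', hj⟩ := h
  by_cases hne : z = z'
  · subst hne
    exact ⟨z, z, hz, by omega, joined_refl _ _⟩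
  have hzS := fek_mem hω hj hne
  have hsub : drect a b c m ⊆ drect a b c d := fek_drect_mono le_rfl le_rfl le_rfl h2
  have hzD : z ∈ drect a b c m := by
    rw [mem_drect] at hzS ⊢
    omega
  rcases fek_cut hω hsub hzD hj with ⟨h3, h4⟩ | ⟨w, w', h3, h4, h5, h6, h7⟩
  · rw [mem_drect] at h3
    exact ⟨z, z', hz, by omega, h4⟩
  · refine ⟨z, w, hz, ?_, h7⟩
    have h8 := fek_adj h6
    rw [mem_drect] at h3 h5
    rw [mem_drect] at h4
    omega

lemma fek_high {a b c m d : ℤ} (h1 : c ≤ m) (h2 : m ≤ d) {ω : Finset (Sym2 (ℤ × ℤ))}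
    (hω : ω ⊆ edgesIn (drect a b c d)) (h : Cr c d ω) :
    Cr m d (ω ∩ edgesIn (drect a b m d)) := by
  obtain ⟨z, z', hz, hz', hj⟩ := h
  by_cases hne : z = z'
  · subst hne
    exact ⟨z, z, by omega, hz', joined_refl _ _⟩
  have hzS := fek_mem hω (joined_symm hj) (Ne.symm hne)
  have hsub : drect a b m d ⊆ drect a b c d := fek_drect_mono le_rfl le_rfl h1 le_rfl
  have hzD : z' ∈ drect a b m d := by
    rw [mem_drect] at hzS ⊢
    omega
  rcases fek_cut hω hsub hzD (joined_symm hj) with ⟨h3, h4⟩ | ⟨w, w', h3, h4, h5, h6, h7⟩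
  · rw [mem_drect] at h3
    exact ⟨z, z', by omega, hz', joined_symm h4⟩
  · refine ⟨w, z', ?_, hz', joined_symm h7⟩
    have h8 := fek_adj h6
    rw [mem_drect] at h3 h5
    rw [mem_drect] at h4
    omega

lemma fek_disjoint {a b c m d : ℤ} :
    Disjoint (edgesIn (drect a b c m)) (edgesIn (drect a b m d)) := by
  rw [Finset.disjoint_left]
  intro e
  induction e using Sym2.ind with
  | _ u v =>
    intro h1 h2
    rw [mem_edgesIn] at h1 h2
    obtain ⟨h1, h3, h4⟩ := h1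
    obtain ⟨h5, h6, h7⟩ := h2
    rw [mem_drect] at h1 h3 h5 h6
    have := fek_adj h4
    omega

/-- no edges in a segment -/
lemma fek_flat {S : Finset (ℤ × ℤ)} (hS : ∀ z ∈ S, z.1 + z.2 = 0) {ω : Finset (Sym2 (ℤ × ℤ))}
    {u v : ℤ × ℤ} (hω : ω ⊆ edgesIn S) (h : Joined ω u v) : u = v := by
  obtain ⟨p⟩ := h
  cases p with
  | nil => rfl
  | @cons _ b _ hab p =>
    exfalso
    rw [SimpleGraph.fromEdgeSet_adj] at hab
    have h1 := hω (by exact_mod_cast hab.1)
    rw [mem_edgesIn] at h1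
    have h2 := hS _ h1.1
    have h3 := hS _ h1.2.1
    rcases h1.2.2 with ⟨h4, h5⟩ | ⟨h4, h5⟩ <;>
    · rcases abs_eq (by norm_num : (0 : ℤ) ≤ 1) |>.1 h5 with h6 | h6 <;> omega

/-- **submultiplicativity** -/
theorem pC_split {a b c m d : ℤ} (h1 : c ≤ m) (h2 : m ≤ d) :
    pC a b c d ≤ pC a b c m * pC a b m d := by
  unfold pC
  have e1 : perc half (drect a b c m) (Cr c m) =
      perc half (drect a b c d) (fun ω => Cr c m (ω ∩ edgesIn (drect a b c m))) :=
    (perc_restrict (fek_drect_mono le_rfl le_rfl le_rfl h2) _).symm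
  have e2 : perc half (drect a b m d) (Cr m d) =
      perc half (drect a b c d) (fun ω => Cr m d (ω ∩ edgesIn (drect a b m d))) :=
    (perc_restrict (fek_drect_mono le_rfl le_rfl h1 le_rfl) _).symm
  rw [e1, e2, Pool.Agent.Helper69.RSW.perc_half_eq, Pool.Agent.Helper69.RSW.perc_half_eq,
    Pool.Agent.Helper69.RSW.perc_half_eq]
  rw [← P_indep (edgesIn_mono (fek_drect_mono le_rfl le_rfl le_rfl h2))
    (edgesIn_mono (fek_drect_mono le_rfl le_rfl h1 le_rfl)) fek_disjoint]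
  · apply Pool.Agent.Helper69.RSW.P_mono
    intro ω hω h
    exact ⟨fek_low h1 h2 hω h, fek_high h1 h2 hω h⟩
  · intro S
    simp only [inter_assoc, inter_self]
  · intro S
    simp only [inter_assoc, inter_self]

theorem P_add_le (n M₁ M₂ : ℕ) : P n (M₁ + M₂) ≤ P n M₁ * P n M₂ := by
  have h := pC_split (a := 0) (b := 2 * n) (c := 1) (m := 2 * M₁ + 1) (d := 2 * (M₁ + M₂ : ℕ) + 1)
    (by omega) (by push_cast; omega)
  have e2 := fek_pC_P n M₁ M₂
  unfold P at e2 ⊢
  rwa [e2] at h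

theorem P_anti {n M M' : ℕ} (h : M ≤ M') : P n M' ≤ P n M := by
  obtain ⟨k, rfl⟩ := Nat.exists_eq_add_of_le h
  refine (P_add_le n M k).trans ?_
  have h1 := P_le_one' n k
  have h2 := P_nonneg n M
  nlinarith

/-! ### gluing -/

/-- **gluing** two crossings by a crossing of the overlap -/
theorem P_glue {n M₁ M₂ M₃ : ℕ} (h1 : M₃ ≤ M₁) (h2 : M₃ ≤ M₂) :
    P n M₁ * P n M₂ * P M₃ n ≤ P n (M₁ + M₂ - M₃) := by
  obtain ⟨r, rfl⟩ := Nat.exists_eq_add_of_le h1
  obtain ⟨s, rfl⟩ := Nat.exists_eq_add_of_le h2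
  have eM : M₃ + r + (M₃ + s) - M₃ = r + (M₃ + s) := by omega
  rw [eM]
  have p1 := P_nonneg n (M₃ + r)
  have p2 := P_nonneg n (M₃ + s)
  have p3 := P_nonneg M₃ n
  have q1 := P_le_one' n (M₃ + r)
  have q2 := P_le_one' n (M₃ + s)
  have q3 := P_le_one' M₃ n
  have p12 := mul_nonneg p1 p2
  rcases Nat.eq_zero_or_pos (M₃ + r) with hz | hpos1
  · have hr : r = 0 := by omega
    have h3 : M₃ = 0 := by omega
    subst hr h3
    simp only [zero_add] at *
    nlinarith
  rcases Nat.eq_zero_or_pos (M₃ + s) with hz | hpos2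
  · have hs : s = 0 := by omega
    have h3 : M₃ = 0 := by omega
    subst hs h3
    simp only [zero_add, add_zero] at *
    nlinarith
  set S := drect 0 (2 * n) 1 (2 * (r + (M₃ + s) : ℕ) + 1) with hS
  set T₁ := drect 0 (2 * n) 1 (2 * (M₃ + r : ℕ) + 1) with hT₁
  set T₂ := drect 0 (2 * n) (2 * r + 1) (2 * (r + (M₃ + s) : ℕ) + 1) with hT₂
  set T₃ := drect 0 (2 * n) (2 * r + 1) (2 * r + 2 * M₃ + 1) with hT₃
  have s1 : T₁ ⊆ S := fek_drect_mono le_rfl le_rfl le_rfl (by push_cast; omega)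
  have s2 : T₂ ⊆ S := fek_drect_mono le_rfl le_rfl (by omega) le_rfl
  have s31 : T₃ ⊆ T₁ := fek_drect_mono le_rfl le_rfl (by omega) (by push_cast; omega)
  have s32 : T₃ ⊆ T₂ := fek_drect_mono le_rfl le_rfl le_rfl (by push_cast; omega)
  have e1 : P n (M₃ + r) = perc half S (fun ω => Cr 1 (2 * (M₃ + r : ℕ) + 1) (ω ∩ edgesIn T₁)) :=
    (perc_restrict s1 _).symm
  have e2 : P n (M₃ + s) = perc half S
      (fun ω => Cr (2 * r + 1) (2 * (r + (M₃ + s) : ℕ) + 1) (ω ∩ edgesIn T₂)) := by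
    rw [perc_restrict s2, ← fek_pC_P n r (M₃ + s)]
    rfl
  have e3 : P M₃ n = perc half S (fun ω => fekU 0 (2 * n) (ω ∩ edgesIn T₃)) := by
    rw [perc_restrict (s31.trans s1), ← fek_pU_P n r M₃]
  have u1 : Up (fun ω => Cr 1 (2 * (M₃ + r : ℕ) + 1) (ω ∩ edgesIn T₁)) :=
    fun ω ω' h h' => cr_mono (inter_subset_inter_right h) h'
  have u2 : Up (fun ω => Cr (2 * r + 1) (2 * (r + (M₃ + s) : ℕ) + 1) (ω ∩ edgesIn T₂)) :=
    fun ω ω' h h' => cr_mono (inter_subset_inter_right h) h'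
  have u3 : Up (fun ω => fekU 0 (2 * n) (ω ∩ edgesIn T₃)) := by
    rintro ω ω' h ⟨z, z', h3, h4, h5⟩
    exact ⟨z, z', h3, h4, joined_mono (inter_subset_inter_right h) h5⟩
  rw [e1, e2, e3]
  refine (mul_le_mul_of_nonneg_right (perc_harris S u1 u2) (perc_half_nonneg _ _)).trans ?_
  refine (perc_harris S (u1.and u2) u3).trans ?_
  unfold P pC
  apply perc_half_mono
  rintro ω hω ⟨⟨⟨z1, w1, hz1, hw1, j1⟩, ⟨z2, w2, hz2, hw2, j2⟩⟩, ⟨l, l', hl, hl', jl⟩⟩
  have ne1 : z1 ≠ w1 := by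
    rintro rfl
    omega
  have ne2 : z2 ≠ w2 := by
    rintro rfl
    push_cast at hw2
    omega
  have m1 : z1 ∈ T₁ := fek_mem inter_subset_right j1 ne1
  have m2 : w2 ∈ T₂ := fek_mem inter_subset_right (joined_symm j2) (Ne.symm ne2)
  have nel : l ≠ l' := by
    rintro rfl
    have hn : n = 0 := by omega
    subst hn
    exact ne1 (fek_flat (S := T₁) (fun z hz => by rw [hT₁, mem_drect] at hz; push_cast at hz; omega)
      inter_subset_right j1)
  have ml : l' ∈ T₃ := fek_mem inter_subset_right (joined_symm jl) (Ne.symm nel)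
  have k1 : Joined ω l' z1 := by
    refine joined_mono (inter_subset_left (s₂ := edgesIn T₁)) ?_
    refine H81Rect.joined_cross (a := 0) (b := 2 * n) (c := 1) (d := 2 * (M₃ + r : ℕ) + 1)
      (u := l') (v := l) (l := z1) (r := w1) ?_ ?_ ?_ hl' hl hz1 hw1 ?_ j1
    · rw [← fek_drect_eq]
      exact inter_subset_right
    · rw [← fek_drect_eq]
      exact s31 ml
    · rw [← fek_drect_eq]
      exact m1
    · exact joined_mono (inter_subset_inter_left (edgesIn_mono s31)) (joined_symm jl)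
  have k2 : Joined ω l' z2 := by
    refine joined_mono (inter_subset_left (s₂ := edgesIn T₂)) ?_
    refine H81Rect.joined_cross (a := 0) (b := 2 * n) (c := 2 * r + 1)
      (d := 2 * (r + (M₃ + s) : ℕ) + 1)
      (u := l') (v := l) (l := z2) (r := w2) ?_ ?_ ?_ hl' hl hz2 hw2 ?_ j2
    · rw [← fek_drect_eq]
      exact inter_subset_right
    · rw [← fek_drect_eq]
      exact s32 ml
    · rw [← fek_drect_eq]
      exact fek_mem inter_subset_right j2 ne2
    · exact joined_mono (inter_subset_inter_left (edgesIn_mono s32)) (joined_symm jl)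
  exact ⟨z1, w2, hz1, hw2, joined_trans (joined_symm k1)
    (joined_trans k2 (joined_mono inter_subset_left j2))⟩

/-! ### consequences -/

/-- from the RSW bound for one aspect ratio to all aspect ratios -/
theorem P_long {c : ℝ} (hc : 0 ≤ c) (h : ∀ n : ℕ, 1 ≤ n → c ≤ P n (2 * n)) {n : ℕ} (hn : 1 ≤ n)
    {k : ℕ} (hk : 1 ≤ k) : (c ^ 2) ^ k ≤ P n (k * n) := by
  have hc1 : c ≤ 1 := (h 1 le_rfl).trans (P_le_one' _ _)
  have h1 : c ≤ P n n := (h n hn).trans (P_anti (by omega))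
  induction k, hk using Nat.le_induction with
  | base =>
    rw [pow_one, one_mul]
    nlinarith
  | succ k hk ih =>
    have h2 := P_glue (n := n) (M₁ := k * n) (M₂ := 2 * n) (M₃ := n)
      (Nat.le_mul_of_pos_left n hk) (by omega)
    have e : k * n + 2 * n - n = (k + 1) * n := by
      rw [add_mul, one_mul]
      omega
    rw [e] at h2
    refine le_trans ?_ h2
    rw [pow_succ]
    have h3 := h n hn
    have h4 : c ^ 2 ≤ P n (2 * n) * P n n := by nlinarith
    calc (c ^ 2) ^ k * c ^ 2 ≤ P n (k * n) * (P n (2 * n) * P n n) :=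
          mul_le_mul ih h4 (sq_nonneg _) (P_nonneg _ _)
      _ = P n (k * n) * P n (2 * n) * P n n := by ring

/-- exact lower bound by the Perron eigenvalue -/
theorem pow_le_of_submul {a : ℕ → ℝ} (h0 : ∀ M, 0 ≤ a M) (hs : ∀ M M', a (M + M') ≤ a M * a M')
    {d δ : ℝ} (hd : 0 < d) (hδ : 0 < δ) (hl : ∀ M, δ * d ^ M ≤ a M) (M : ℕ) : d ^ M ≤ a M := by
  by_contra hlt
  push Not at hlt
  have hp : ∀ j : ℕ, a ((j + 1) * M) ≤ a M ^ (j + 1) := by
    intro j
    induction j with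
    | zero => simp
    | succ j ih =>
      rw [show (j + 1 + 1) * M = (j + 1) * M + M by ring, pow_succ]
      exact (hs _ _).trans (mul_le_mul_of_nonneg_right ih (h0 M))
  have hdM : 0 < d ^ M := pow_pos hd M
  set t : ℝ := a M / d ^ M with ht
  have ht0 : 0 ≤ t := div_nonneg (h0 M) hdM.le
  have ht1 : t < 1 := by
    rw [ht, div_lt_one hdM]
    exact hlt
  have hb : ∀ j : ℕ, δ ≤ t ^ (j + 1) := by
    intro j
    rw [ht, div_pow, le_div_iff₀ (by positivity), ← pow_mul, mul_comm M]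
    exact (hl _).trans (hp j)
  obtain ⟨j, hj⟩ := exists_pow_lt_of_lt_one hδ ht1
  have h1 := hb j
  have h2 : t ^ (j + 1) ≤ t ^ j := pow_le_pow_of_le_one ht0 ht1.le (by omega)
  linarith

/-- lower bound of the Perron eigenvalue -/
theorem le_pow_of_le {a : ℕ → ℝ} {n : ℕ} {c C d : ℝ} (hd : 0 < d)
    (hl : ∀ k : ℕ, 1 ≤ k → c ^ k ≤ a (k * n)) (hu : ∀ M, a M ≤ C * d ^ M) : c ≤ d ^ n := by
  by_contra hlt
  push Not at hlt
  have hdn : 0 < d ^ n := pow_pos hd n
  have h1 : 1 < c / d ^ n := (one_lt_div hdn).2 hlt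
  obtain ⟨k, hk⟩ := pow_unbounded_of_one_lt C h1
  have h2 : (c / d ^ n) ^ (k + 1) ≤ C := by
    rw [div_pow, div_le_iff₀ (by positivity), ← pow_mul, mul_comm n]
    exact (hl (k + 1) (by omega)).trans (hu _)
  have h3 : (c / d ^ n) ^ k ≤ (c / d ^ n) ^ (k + 1) := pow_le_pow_right₀ h1.le (by omega)
  linarith

/-- a positive combination of powers with one dominant term is at least a multiple of it -/
theorem spectral_lower {K : Type*} [Fintype K] [DecidableEq K] {c d : K → ℝ} {k0 : K} (hc : 0 < c k0)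
    (hd : 0 < d k0) (hdom : ∀ k, k ≠ k0 → |d k| < d k0) {a : ℕ → ℝ} (ha : ∀ M, a M = ∑ k, c k * d k ^ M)
    (hpos : ∀ M, 0 < a M) : ∃ δ > 0, ∀ M, δ * d k0 ^ M ≤ a M := by
  classical
  have hlim : Filter.Tendsto (fun M => a M / d k0 ^ M) Filter.atTop (nhds (c k0)) := by
    have e : (fun M => a M / d k0 ^ M) = fun M => ∑ k, c k * (d k / d k0) ^ M := by
      funext M
      rw [ha, sum_div]
      refine sum_congr rfl fun k _ => ?_
      rw [div_pow, mul_div_assoc]
    have e2 : c k0 = ∑ k, c k * (if k = k0 then 1 else 0) := by simp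
    rw [e, e2]
    apply tendsto_finsetSum
    intro k _
    apply Filter.Tendsto.const_mul
    split_ifs with hk
    · subst hk
      refine tendsto_const_nhds.congr (fun M => ?_)
      rw [div_self hd.ne', one_pow]
    · apply tendsto_pow_atTop_nhds_zero_of_abs_lt_one
      rw [abs_div, abs_of_pos hd, div_lt_one hd]
      exact hdom k hk
  have hev : ∀ᶠ M in Filter.atTop, c k0 / 2 < a M / d k0 ^ M :=
    hlim.eventually (lt_mem_nhds (by linarith))
  obtain ⟨N, hN⟩ := Filter.eventually_atTop.1 hev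
  -- the finitely many first terms
  have hfin : ∃ δ' > 0, ∀ M < N, δ' ≤ a M / d k0 ^ M := by
    clear hev hN hlim
    induction N with
    | zero => exact ⟨1, one_pos, fun M hM => absurd hM (Nat.not_lt_zero M)⟩
    | succ N ih =>
      obtain ⟨δ', h1, h2⟩ := ih
      refine ⟨min δ' (a N / d k0 ^ N), lt_min h1 (div_pos (hpos N) (pow_pos hd N)), ?_⟩
      intro M hM
      rcases Nat.lt_succ_iff_lt_or_eq.1 hM with h | rfl
      · exact (min_le_left _ _).trans (h2 M h)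
      · exact min_le_right _ _
  obtain ⟨δ', h1, h2⟩ := hfin
  refine ⟨min (c k0 / 2) δ', lt_min (by linarith) h1, fun M => ?_⟩
  rw [← le_div_iff₀ (pow_pos hd M)]
  rcases lt_or_ge M N with h | h
  · exact (min_le_right _ _).trans (h2 M h)
  · exact (min_le_left _ _).trans (hN M h).le

end H47Perc.RC
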