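import Mathlib

/-!
Ultrafilter limits of crossing probabilities (module D8).

`P n M` is a two-parameter family with values in `[0, 1]`, monotone in the width `n`, antitone in the
height `M`.  `H P U a b` is its limit along the ultrafilter `U` for the rectangles `a N × b N`.
-/

set_option autoImplicit false

namespace H47Perc.RC.Ultra

open Filter Topology Set

/-- bounded, monotone in the width, antitone in the height -/
structure Fam (P : ℕ → ℕ → ℝ) : Prop where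
  nonneg : ∀ n M, 0 ≤ P n M
  le_one : ∀ n M, P n M ≤ 1
  mono : ∀ n M, P n M ≤ P (n + 1) M
  anti : ∀ n M, P n (M + 1) ≤ P n M

/-- the limit along an ultrafilter -/
noncomputable def H (P : ℕ → ℕ → ℝ) (U : Ultrafilter ℕ) (a b : ℝ) : ℝ :=
  limUnder (U : Filter ℕ) (fun N : ℕ => P ⌊a * N⌋₊ ⌊b * N⌋₊)

variable {P : ℕ → ℕ → ℝ}

lemma Fam.mono' (hP : Fam P) {n n' : ℕ} (h : n ≤ n') (M : ℕ) : P n M ≤ P n' M :=
  monotone_nat_of_le_succ (f := fun n => P n M) (fun n => hP.mono n M) h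

lemma Fam.anti' (hP : Fam P) (n : ℕ) {M M' : ℕ} (h : M ≤ M') : P n M' ≤ P n M :=
  antitone_nat_of_succ_le (f := fun M => P n M) (fun M => hP.anti n M) h

lemma Fam.le (hP : Fam P) {n n' M M' : ℕ} (h : n ≤ n') (h' : M' ≤ M) : P n M ≤ P n' M' :=
  (hP.mono' h M).trans (hP.anti' n' h')

/-- a family with values in `[0, 1]` converges along every ultrafilter -/
lemma exists_lim {ι : Type*} (U : Ultrafilter ι) (f : ι → ℝ) (h0 : ∀ i, 0 ≤ f i)
    (h1 : ∀ i, f i ≤ 1) : ∃ x, Tendsto f (U : Filter ι) (𝓝 x) := by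
  have h : ((U.map f : Ultrafilter ℝ) : Filter ℝ) ≤ 𝓟 (Icc 0 1) := by
    rw [Ultrafilter.coe_map, Filter.map_le_iff_le_comap, Filter.comap_principal]
    intro s hs
    exact Filter.mem_of_superset Filter.univ_mem (fun i _ => hs ⟨h0 i, h1 i⟩)
  obtain ⟨x, -, hx⟩ := isCompact_Icc.ultrafilter_le_nhds (U.map f) h
  exact ⟨x, hx⟩

lemma tendsto_H (hP : Fam P) (U : Ultrafilter ℕ) (a b : ℝ) :
    Tendsto (fun N : ℕ => P ⌊a * N⌋₊ ⌊b * N⌋₊) (U : Filter ℕ) (𝓝 (H P U a b)) :=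
  tendsto_nhds_limUnder (exists_lim U _ (fun _ => hP.nonneg _ _) (fun _ => hP.le_one _ _))

/-- the limit is unique -/
lemma H_eq (hP : Fam P) (U : Ultrafilter ℕ) {a b x : ℝ}
    (h : Tendsto (fun N : ℕ => P ⌊a * N⌋₊ ⌊b * N⌋₊) (U : Filter ℕ) (𝓝 x)) : H P U a b = x :=
  tendsto_nhds_unique (tendsto_H hP U a b) h

lemma H_nonneg (hP : Fam P) (U : Ultrafilter ℕ) (a b : ℝ) : 0 ≤ H P U a b :=
  ge_of_tendsto' (tendsto_H hP U a b) (fun _ => hP.nonneg _ _)

lemma H_le_one (hP : Fam P) (U : Ultrafilter ℕ) (a b : ℝ) : H P U a b ≤ 1 :=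
  le_of_tendsto' (tendsto_H hP U a b) (fun _ => hP.le_one _ _)

lemma floor_mono {a a' : ℝ} (h : a ≤ a') (N : ℕ) : ⌊a * N⌋₊ ≤ ⌊a' * N⌋₊ :=
  Nat.floor_le_floor (mul_le_mul_of_nonneg_right h (Nat.cast_nonneg N))

lemma H_mono (hP : Fam P) (U : Ultrafilter ℕ) {a a' : ℝ} (h : a ≤ a') (b : ℝ) :
    H P U a b ≤ H P U a' b :=
  le_of_tendsto_of_tendsto' (tendsto_H hP U a b) (tendsto_H hP U a' b)
    (fun N => hP.mono' (floor_mono h N) _)

lemma H_anti (hP : Fam P) (U : Ultrafilter ℕ) (a : ℝ) {b b' : ℝ} (h : b ≤ b') :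
    H P U a b' ≤ H P U a b :=
  le_of_tendsto_of_tendsto' (tendsto_H hP U a b') (tendsto_H hP U a b)
    (fun N => hP.anti' _ (floor_mono h N))

/-- for `a < a'` the floors of `a N` and `a' N` are eventually far apart -/
lemma floor_add_lt {a a' : ℝ} (ha : 0 ≤ a) (h : a < a') (k : ℕ) :
    ∀ᶠ N : ℕ in atTop, ⌊a * N⌋₊ + k ≤ ⌊a' * N⌋₊ := by
  have h1 : 0 < a' - a := by linarith
  have h2 : Tendsto (fun N : ℕ => (a' - a) * (N : ℝ)) atTop atTop :=
    Tendsto.const_mul_atTop h1 tendsto_natCast_atTop_atTop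
  filter_upwards [h2.eventually_ge_atTop (k : ℝ)] with N hN
  have h3 : (0 : ℝ) ≤ a * N := mul_nonneg ha (Nat.cast_nonneg N)
  apply Nat.le_floor
  push_cast
  have h4 : (⌊a * N⌋₊ : ℝ) ≤ a * N := Nat.floor_le h3
  nlinarith

/-- DUALITY in the limit, from the sandwich on the lattice and the continuity in the height -/
theorem H_dual (hP : Fam P)
    (hD : ∀ n M : ℕ, 1 ≤ n → 1 ≤ M → 1 - P M (n - 1) ≤ P n M ∧ P n M ≤ 1 - P (M - 1) n)
    (U : Ultrafilter ℕ) (hU : (U : Filter ℕ) ≤ atTop)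
    (hc : ∀ a : ℝ, 0 < a → ContinuousOn (fun b => H P U a b) (Ioi 0)) {a b : ℝ} (ha : 0 < a)
    (hb : 0 < b) : H P U a b = 1 - H P U b a := by
  apply le_antisymm
  · -- `H a b' ≤ 1 - H b a` for `b' > b`
    have h1 : ∀ b' : ℝ, b < b' → H P U a b' ≤ 1 - H P U b a := by
      intro b' hb'
      have h2 := tendsto_H hP U a b'
      have h3 : Tendsto (fun N : ℕ => 1 - P ⌊b * N⌋₊ ⌊a * N⌋₊) (U : Filter ℕ)
          (𝓝 (1 - H P U b a)) := (tendsto_H hP U b a).const_sub 1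
      refine le_of_tendsto_of_tendsto h2 h3 ?_
      have h4 := hU (floor_add_lt hb.le hb' 1)
      have h5 := hU (floor_add_lt le_rfl ha 1)
      filter_upwards [h4, h5] with N hN hN'
      have h6 := (hD ⌊a * N⌋₊ (⌊b * N⌋₊ + 1) (by omega) (by omega)).2
      rw [Nat.add_sub_cancel] at h6
      exact (hP.anti' _ hN).trans h6
    have h2 : Tendsto (fun b' => H P U a b') (𝓝[>] b) (𝓝 (H P U a b)) :=
      ((hc a ha).continuousAt (Ioi_mem_nhds hb)).tendsto.mono_left nhdsWithin_le_nhds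
    exact le_of_tendsto h2 (by filter_upwards [self_mem_nhdsWithin] with b' hb' using h1 b' hb')
  · -- `1 - H b a' ≤ H a b` for `a' < a`
    have h1 : ∀ a' : ℝ, 0 < a' → a' < a → 1 - H P U a b ≤ H P U b a' := by
      intro a' ha' haa
      have h2 := tendsto_H hP U b a'
      have h3 : Tendsto (fun N : ℕ => 1 - P ⌊a * N⌋₊ ⌊b * N⌋₊) (U : Filter ℕ)
          (𝓝 (1 - H P U a b)) := (tendsto_H hP U a b).const_sub 1
      refine le_of_tendsto_of_tendsto h3 h2 ?_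
      have h4 := hU (floor_add_lt ha'.le haa 1)
      have h5 := hU (floor_add_lt le_rfl hb 1)
      filter_upwards [h4, h5] with N hN hN'
      have h6 := (hD ⌊a * N⌋₊ ⌊b * N⌋₊ (by omega) (by omega)).1
      have h7 : P ⌊b * N⌋₊ (⌊a * N⌋₊ - 1) ≤ P ⌊b * N⌋₊ ⌊a' * N⌋₊ := hP.anti' _ (by omega)
      linarith
    have h2 : Tendsto (fun a' => H P U b a') (𝓝[<] a) (𝓝 (H P U b a)) :=
      ((hc b hb).continuousAt (Ioi_mem_nhds ha)).tendsto.mono_left nhdsWithin_le_nhds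
    have h3 : 1 - H P U a b ≤ H P U b a := by
      refine ge_of_tendsto h2 ?_
      filter_upwards [self_mem_nhdsWithin, mem_nhdsWithin_of_mem_nhds (Ioi_mem_nhds ha)]
        with a' h4 h5 using h1 a' h5 h4
    linarith

/-- if all ultrafilter limits agree, the limit exists -/
theorem tendsto_floor (hP : Fam P) {g : ℝ → ℝ}
    (h : ∀ U : Ultrafilter ℕ, (U : Filter ℕ) ≤ atTop → ∀ ρ : ℝ, 0 < ρ → H P U 1 ρ = g ρ)
    {ρ : ℝ} (hρ : 0 < ρ) : Tendsto (fun N : ℕ => P N ⌊ρ * N⌋₊) atTop (𝓝 (g ρ)) := by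
  rw [tendsto_iff_ultrafilter]
  intro U hU
  have h1 := tendsto_H hP U 1 ρ
  rw [h U hU ρ hρ] at h1
  simpa using h1

/-- THE LIMIT ALONG ALL SEQUENCES OF RECTANGLES -/
theorem tendsto_rect (hP : Fam P) {g : ℝ → ℝ} (hg : ContinuousOn g (Ioi 0))
    (h : ∀ U : Ultrafilter ℕ, (U : Filter ℕ) ≤ atTop → ∀ ρ : ℝ, 0 < ρ → H P U 1 ρ = g ρ)
    {ι : Type*} {l : Filter ι} {n M : ι → ℕ} (hn : Tendsto n l atTop) {ρ : ℝ} (hρ : 0 < ρ)
    (hM : Tendsto (fun i => (M i : ℝ) / n i) l (𝓝 ρ)) :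
    Tendsto (fun i => P (n i) (M i)) l (𝓝 (g ρ)) := by
  have hga : ContinuousAt g ρ := hg.continuousAt (Ioi_mem_nhds hρ)
  have hn0 : ∀ᶠ i in l, (0 : ℝ) < n i := by
    filter_upwards [hn.eventually_ge_atTop 1] with i hi
    exact_mod_cast hi
  rw [Metric.tendsto_nhds]
  intro ε hε
  obtain ⟨δ, hδ, hδg⟩ := Metric.continuousAt_iff.mp hga (ε / 2) (by linarith)
  set r : ℝ := min (δ / 2) (ρ / 2) with hr
  have hr0 : 0 < r := lt_min (by linarith) (by linarith)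
  have hrδ : r ≤ δ / 2 := min_le_left _ _
  have hrρ : r ≤ ρ / 2 := min_le_right _ _
  -- the upper bound
  have hlo : 0 < ρ - r := by linarith
  have hhi : 0 < ρ + r := by linarith
  have h1 := (tendsto_floor hP h hlo).comp hn
  have h2 := (tendsto_floor hP h hhi).comp hn
  rw [Metric.tendsto_nhds] at h1 h2
  have h3 := h1 (ε / 2) (by linarith)
  have h4 := h2 (ε / 2) (by linarith)
  have h5 : dist (g (ρ - r)) (g ρ) < ε / 2 := hδg (by
    rw [Real.dist_eq, show ρ - r - ρ = -r by ring, abs_neg, abs_of_pos hr0]; linarith)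
  have h6 : dist (g (ρ + r)) (g ρ) < ε / 2 := hδg (by
    rw [Real.dist_eq, show ρ + r - ρ = r by ring, abs_of_pos hr0]; linarith)
  have h7 : ∀ᶠ i in l, ρ - r < (M i : ℝ) / n i ∧ (M i : ℝ) / n i < ρ + r := by
    have := hM.eventually (Ioo_mem_nhds (show ρ - r < ρ by linarith) (show ρ < ρ + r by linarith))
    exact this
  filter_upwards [h3, h4, h7, hn0] with i k3 k4 k7 k0
  simp only [Function.comp_apply] at k3 k4
  have e1 : ⌊(ρ - r) * (n i : ℝ)⌋₊ ≤ M i := by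
    apply Nat.floor_le_of_le
    have := k7.1
    rw [lt_div_iff₀ k0] at this
    exact this.le
  have e2 : M i ≤ ⌊(ρ + r) * (n i : ℝ)⌋₊ := by
    apply Nat.le_floor
    have := k7.2
    rw [div_lt_iff₀ k0] at this
    exact this.le
  have u1 : P (n i) (M i) ≤ P (n i) ⌊(ρ - r) * (n i : ℝ)⌋₊ := hP.anti' _ e1
  have u2 : P (n i) ⌊(ρ + r) * (n i : ℝ)⌋₊ ≤ P (n i) (M i) := hP.anti' _ e2
  rw [Real.dist_eq, abs_lt] at k3 k4 h5 h6 ⊢
  constructor <;> linarith [k3.1, k3.2, k4.1, k4.2, h5.1, h5.2, h6.1, h6.2]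

/-- the same in the epsilon form -/
theorem eps_rect (hP : Fam P) {g : ℝ → ℝ} (hg : ContinuousOn g (Ioi 0))
    (h : ∀ U : Ultrafilter ℕ, (U : Filter ℕ) ≤ atTop → ∀ ρ : ℝ, 0 < ρ → H P U 1 ρ = g ρ)
    {ρ : ℝ} (hρ : 0 < ρ) {ε : ℝ} (hε : 0 < ε) :
    ∃ δ > 0, ∃ L : ℕ, ∀ n M : ℕ, L ≤ n → |(M : ℝ) / n - ρ| < δ → |P n M - g ρ| < ε := by
  have hf : Tendsto (fun p : ℕ × ℕ => p.1) (atTop.comap (fun p : ℕ × ℕ => p.1) ⊓
      (𝓝 ρ).comap (fun p : ℕ × ℕ => (p.2 : ℝ) / p.1)) atTop :=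
    tendsto_comap.mono_left inf_le_left
  have hf2 : Tendsto (fun p : ℕ × ℕ => (p.2 : ℝ) / p.1) (atTop.comap (fun p : ℕ × ℕ => p.1) ⊓
      (𝓝 ρ).comap (fun p : ℕ × ℕ => (p.2 : ℝ) / p.1)) (𝓝 ρ) :=
    tendsto_comap.mono_left inf_le_right
  have h1 := tendsto_rect hP hg h hf hρ hf2
  rw [Metric.tendsto_nhds] at h1
  have h2 := h1 ε hε
  rw [Filter.eventually_inf] at h2
  obtain ⟨s, hs, t, ht, hst⟩ := h2
  rw [Filter.mem_comap] at hs ht
  obtain ⟨s', hs', hss⟩ := hs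
  obtain ⟨t', ht', htt⟩ := ht
  obtain ⟨L, hL⟩ := Filter.mem_atTop_sets.mp hs'
  obtain ⟨δ, hδ, hδt⟩ := Metric.mem_nhds_iff.mp ht'
  refine ⟨δ, hδ, L, fun n M hn hM => ?_⟩
  have h3 := hst (n, M) ⟨hss (hL n hn), htt (hδt (by
    rw [Metric.mem_ball, Real.dist_eq]; exact hM))⟩
  rw [Real.dist_eq] at h3
  exact h3

/-- all sizes and parities: a sandwich between neighbouring rectangles is enough -/
theorem tendsto_sandwich (hP : Fam P) {g : ℝ → ℝ} (hg : ContinuousOn g (Ioi 0))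
    (h : ∀ U : Ultrafilter ℕ, (U : Filter ℕ) ≤ atTop → ∀ ρ : ℝ, 0 < ρ → H P U 1 ρ = g ρ)
    {ι : Type*} {l : Filter ι} {n M : ι → ℕ} (hn : Tendsto n l atTop) {ρ : ℝ} (hρ : 0 < ρ)
    (hM : Tendsto (fun i => (M i : ℝ) / n i) l (𝓝 ρ)) (k : ℕ) {f : ι → ℝ}
    (hlo : ∀ᶠ i in l, P (n i - k) (M i + k) ≤ f i) (hhi : ∀ᶠ i in l, f i ≤ P (n i + k) (M i - k)) :
    Tendsto f l (𝓝 (g ρ)) := by
  have hnR : Tendsto (fun i => (n i : ℝ)) l atTop := tendsto_natCast_atTop_atTop.comp hn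
  have hMR : Tendsto (fun i => (M i : ℝ)) l atTop := by
    have h1 : Tendsto (fun i => (M i : ℝ) / n i * n i) l atTop := hM.pos_mul_atTop hρ hnR
    refine h1.congr' ?_
    filter_upwards [hnR.eventually_gt_atTop 0] with i hi
    field_simp
  have hMN : Tendsto M l atTop := tendsto_natCast_atTop_iff.mp hMR
  have hkn : Tendsto (fun i => (k : ℝ) / n i) l (𝓝 0) := hnR.const_div_atTop _
  have hlo1 : Tendsto (fun i => P (n i - k) (M i + k)) l (𝓝 (g ρ)) := by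
    refine tendsto_rect hP hg h ((Filter.tendsto_sub_atTop_nat k).comp hn) hρ ?_
    · have h1 : Tendsto (fun i => ((M i : ℝ) / n i + k / n i) / (1 - k / n i)) l
          (𝓝 ((ρ + 0) / (1 - 0))) := (hM.add hkn).div (tendsto_const_nhds.sub hkn) (by norm_num)
      rw [add_zero, sub_zero, div_one] at h1
      refine h1.congr' ?_
      filter_upwards [hn.eventually_ge_atTop (k + 1)] with i hi
      have h2 : ((n i - k : ℕ) : ℝ) = n i - k := by
        rw [Nat.cast_sub (by omega)]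
      have h3 : (0 : ℝ) < n i - k := by
        have : ((k + 1 : ℕ) : ℝ) ≤ n i := by exact_mod_cast hi
        push_cast at this; linarith
      have h4 : (0 : ℝ) < n i := by
        have : (0 : ℝ) ≤ k := Nat.cast_nonneg k
        linarith
      simp only [Function.comp_apply]
      rw [h2]
      push_cast
      field_simp
  have hhi1 : Tendsto (fun i => P (n i + k) (M i - k)) l (𝓝 (g ρ)) := by
    refine tendsto_rect hP hg h (tendsto_atTop_mono (fun i => Nat.le_add_right (n i) k) hn) hρ ?_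
    have h1 : Tendsto (fun i => ((M i : ℝ) / n i - k / n i) / (1 + k / n i)) l
          (𝓝 ((ρ - 0) / (1 + 0))) := (hM.sub hkn).div (tendsto_const_nhds.add hkn) (by norm_num)
    rw [sub_zero, add_zero, div_one] at h1
    refine h1.congr' ?_
    filter_upwards [hn.eventually_ge_atTop 1, hMN.eventually_ge_atTop k] with i hi hi'
    have h2 : ((M i - k : ℕ) : ℝ) = M i - k := by
      rw [Nat.cast_sub hi']
    have h4 : (0 : ℝ) < n i := by exact_mod_cast hi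
    rw [h2]
    push_cast
    field_simp
  exact tendsto_of_tendsto_of_tendsto_of_le_of_le' hlo1 hhi1 hlo hhi

end H47Perc.RC.Ultra
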