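import Pool.Agent.Rect.Perc.Sym
import Pool.Agent.Rect.Perc.Ultra

/-!
The crossing probabilities `P n M` form a family in the sense of `Ultra.lean`; the limit along all integer
rectangles with sides in the diagonal directions.
-/

set_option autoImplicit false

namespace H47Perc.RC

open Filter Topology Set

theorem fam : Ultra.Fam P where
  nonneg := P_nonneg
  le_one := P_le_one
  mono n M := P_mono_left (Nat.le_succ n) M
  anti n M := P_anti_right n (Nat.le_succ M)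

/-- the limit along all sequences of rectangles, of all sizes, positions and parities -/
theorem tendsto_pC {g : ℝ → ℝ} (hg : ContinuousOn g (Ioi 0))
    (h : ∀ U : Ultrafilter ℕ, (U : Filter ℕ) ≤ atTop → ∀ ρ : ℝ, 0 < ρ → Ultra.H P U 1 ρ = g ρ)
    {ι : Type*} {l : Filter ι} {a b c d : ι → ℤ} (hn : Tendsto (fun i => b i - a i) l atTop)
    {ρ : ℝ} (hρ : 0 < ρ)
    (hM : Tendsto (fun i => ((d i - c i : ℤ) : ℝ) / ((b i - a i : ℤ) : ℝ)) l (𝓝 ρ)) :
    Tendsto (fun i => pC (a i) (b i) (c i) (d i)) l (𝓝 (g ρ)) := by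
  have hnR : Tendsto (fun i => ((b i - a i : ℤ) : ℝ)) l atTop := tendsto_intCast_atTop_iff.mpr hn
  have hMR : Tendsto (fun i => ((d i - c i : ℤ) : ℝ)) l atTop := by
    have h1 := hM.pos_mul_atTop hρ hnR
    refine h1.congr' ?_
    filter_upwards [hnR.eventually_gt_atTop 0] with i hi
    field_simp
  have hMZ : Tendsto (fun i => d i - c i) l atTop := tendsto_intCast_atTop_iff.mp hMR
  -- the half sides
  have hn2 : Tendsto (fun i => ((b i - a i) / 2).toNat) l atTop := by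
    rw [tendsto_atTop]
    intro k
    filter_upwards [hn.eventually_ge_atTop (2 * (k : ℤ))] with i hi
    omega
  have hb : ∀ x : ℤ, 0 ≤ x → |(((x / 2).toNat : ℕ) : ℝ) - (x : ℝ) / 2| ≤ 1 := by
    intro x hx
    have h1 : (((x / 2).toNat : ℕ) : ℝ) = ((x / 2 : ℤ) : ℝ) := by
      have h2 : (((x / 2).toNat : ℕ) : ℤ) = x / 2 := Int.toNat_of_nonneg (by omega)
      exact_mod_cast h2
    have h3 : 2 * (x / 2) ≤ x := by omega
    have h4 : x ≤ 2 * (x / 2) + 1 := by omega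
    have h3' : 2 * ((x / 2 : ℤ) : ℝ) ≤ x := by exact_mod_cast h3
    have h4' : (x : ℝ) ≤ 2 * ((x / 2 : ℤ) : ℝ) + 1 := by exact_mod_cast h4
    rw [h1, abs_le]
    constructor <;> linarith
  -- errors
  have he : ∀ f : ι → ℝ, (∀ᶠ i in l, |f i| ≤ 1) →
      Tendsto (fun i => f i / ((b i - a i : ℤ) : ℝ)) l (𝓝 0) := by
    intro f hf
    have h1 : Tendsto (fun i => (1 : ℝ) / ((b i - a i : ℤ) : ℝ)) l (𝓝 0) := hnR.const_div_atTop 1
    refine squeeze_zero_norm' ?_ h1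
    filter_upwards [hf, hnR.eventually_gt_atTop 0] with i h2 h3
    rw [Real.norm_eq_abs, abs_div, abs_of_pos h3]
    gcongr
  have e1 := he (fun i => ((((d i - c i) / 2).toNat : ℕ) : ℝ) - ((d i - c i : ℤ) : ℝ) / 2) (by
    filter_upwards [hMZ.eventually_ge_atTop 0] with i hi using hb _ hi)
  have e2 := he (fun i => ((((b i - a i) / 2).toNat : ℕ) : ℝ) - ((b i - a i : ℤ) : ℝ) / 2) (by
    filter_upwards [hn.eventually_ge_atTop 0] with i hi using hb _ hi)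
  have hM2 : Tendsto (fun i => ((((d i - c i) / 2).toNat : ℕ) : ℝ) / (((b i - a i) / 2).toNat : ℕ))
      l (𝓝 ρ) := by
    have h1 := ((e1.add (hM.div_const 2)).div (e2.add_const (1 / 2)) (by norm_num))
    have h2 : (0 + ρ / 2) / (0 + 1 / 2) = ρ := by ring
    rw [h2] at h1
    refine h1.congr' ?_
    filter_upwards [hnR.eventually_gt_atTop 0, hn2.eventually_ge_atTop 1] with i h3 h4
    have h5 : (0 : ℝ) < (((b i - a i) / 2).toNat : ℕ) := by exact_mod_cast h4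
    simp only [Pi.div_apply]
    field_simp
    ring
  refine Ultra.tendsto_sandwich fam hg h hn2 hρ hM2 1 ?_ ?_
  · filter_upwards [hn.eventually_ge_atTop 2, hMZ.eventually_ge_atTop 2] with i h1 h2
    exact (pC_sandwich h1 h2).1
  · filter_upwards [hn.eventually_ge_atTop 2, hMZ.eventually_ge_atTop 2] with i h1 h2
    exact (pC_sandwich h1 h2).2

/-- the epsilon form -/
theorem eps_pC {g : ℝ → ℝ} (hg : ContinuousOn g (Ioi 0))
    (h : ∀ U : Ultrafilter ℕ, (U : Filter ℕ) ≤ atTop → ∀ ρ : ℝ, 0 < ρ → Ultra.H P U 1 ρ = g ρ)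
    {ρ : ℝ} (hρ : 0 < ρ) {ε : ℝ} (hε : 0 < ε) :
    ∃ δ > 0, ∃ L : ℤ, ∀ a b c d : ℤ, L ≤ b - a →
      |((d - c : ℤ) : ℝ) / ((b - a : ℤ) : ℝ) - ρ| < δ → |pC a b c d - g ρ| < ε := by
  have hf : Tendsto (fun p : ℤ × ℤ × ℤ × ℤ => p.2.1 - p.1)
      (atTop.comap (fun p : ℤ × ℤ × ℤ × ℤ => p.2.1 - p.1) ⊓
      (𝓝 ρ).comap (fun p : ℤ × ℤ × ℤ × ℤ => ((p.2.2.2 - p.2.2.1 : ℤ) : ℝ) / ((p.2.1 - p.1 : ℤ) : ℝ)))
      atTop := tendsto_comap.mono_left inf_le_left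
  have hf2 : Tendsto (fun p : ℤ × ℤ × ℤ × ℤ => ((p.2.2.2 - p.2.2.1 : ℤ) : ℝ) / ((p.2.1 - p.1 : ℤ) : ℝ))
      (atTop.comap (fun p : ℤ × ℤ × ℤ × ℤ => p.2.1 - p.1) ⊓
      (𝓝 ρ).comap (fun p : ℤ × ℤ × ℤ × ℤ => ((p.2.2.2 - p.2.2.1 : ℤ) : ℝ) / ((p.2.1 - p.1 : ℤ) : ℝ)))
      (𝓝 ρ) := tendsto_comap.mono_left inf_le_right
  have h1 := tendsto_pC hg h hf hρ hf2
  rw [Metric.tendsto_nhds] at h1
  have h2 := h1 ε hε
  rw [Filter.eventually_inf] at h2
  obtain ⟨s, hs, t, ht, hst⟩ := h2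
  rw [Filter.mem_comap] at hs ht
  obtain ⟨s', hs', hss⟩ := hs
  obtain ⟨t', ht', htt⟩ := ht
  obtain ⟨L, hL⟩ := Filter.mem_atTop_sets.mp hs'
  obtain ⟨δ, hδ, hδt⟩ := Metric.mem_nhds_iff.mp ht'
  refine ⟨δ, hδ, L, fun a b c d hn hM => ?_⟩
  have h3 := hst (a, b, c, d) ⟨hss (hL (b - a) hn), htt (hδt (by
    rw [Metric.mem_ball, Real.dist_eq]; exact hM))⟩
  rw [Real.dist_eq] at h3
  exact h3

end H47Perc.RC
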