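import Pool.Agent.Rect.Perc.Sym
import Pool.Agent.Helper46.RSW.RSW

/-!
RSW for diagonal rectangles: `P n (2 n)` is bounded away from zero (D5a, helper32).

A staircase of axis-parallel boxes `[k s, k s + 2 s] × [-k s, -k s + s]` (crossed from left to right) and
`[k s + s, k s + 2 s] × [-k s - s, -k s + s]` (crossed from bottom to top) in the strip `0 ≤ x + y ≤ 3 s`.
-/

set_option autoImplicit false

namespace H47Perc.RC
open Finset H47Perc
open Pool.Agent.Helper69.RSW (Up)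

/-- crossings of a box and of a narrower, higher box meet -/
theorem meet2 {a b a' b' c d c' d' x x' y y' : ℤ} (hcd : c < d) (h1 : a ≤ a') (h2 : b' ≤ b) (h3 : c ≤ c')
    (h4 : d' ≤ d) {ω ω' : Finset (Sym2 (ℤ × ℤ))} (hω : ω ⊆ edgesIn (box a b c' d'))
    (hω' : ω' ⊆ edgesIn (box a' b' c d)) (hx' : a' ≤ x' ∧ x' ≤ b') (hy : c' ≤ y ∧ y ≤ d')
    (hj : Joined ω (a, y) (b, y')) (hj' : Joined ω' (x, c) (x', d)) :
    ∃ z, Joined ω (a, y) z ∧ Joined ω' (x, c) z := by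
  classical
  obtain ⟨q, hq1, hq2⟩ := joined_walk_in hω (by rw [mem_box]; simp only; omega) hj
  obtain ⟨p, hp1, hp2⟩ := joined_walk_in hω' (by rw [mem_box]; simp only; omega)
    (joined_symm hj')
  obtain ⟨w, hw1, hw2⟩ := crossing_walks p q (by simpa using hcd)
    (fun w hw => by have := hq2 w hw; rw [mem_box] at this; simp only; omega)
    (fun w hw => by
      have := hp2 w hw; rw [mem_box] at this; simp only; omega)
    (fun w hw => by
      have := hp2 w hw; rw [mem_box] at this; simp only; omega)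
  refine ⟨w, ?_, ?_⟩
  · exact walk_joined (q.takeUntil w hw2) (fun e he => hq1 e (q.edges_takeUntil_subset_edges hw2 he))
  · refine joined_trans hj' ?_
    exact walk_joined (p.takeUntil w hw1) (fun e he => hp1 e (p.edges_takeUntil_subset_edges hw1 he))

/-- the horizontal boxes -/
noncomputable def hB (s k : ℤ) : Finset (ℤ × ℤ) := box (k * s) (k * s + 2 * s) (-(k * s)) (-(k * s) + s)

/-- the vertical boxes -/
noncomputable def vB (s k : ℤ) : Finset (ℤ × ℤ) :=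
  box (k * s + s) (k * s + 2 * s) (-(k * s) - s) (-(k * s) + s)

/-- the horizontal crossings -/
def hE' (s k : ℤ) (ω : Finset (Sym2 (ℤ × ℤ))) : Prop :=
  LR (k * s) (k * s + 2 * s) (-(k * s)) (-(k * s) + s) (ω ∩ edgesIn (hB s k))

/-- the vertical crossings -/
def vE' (s k : ℤ) (ω : Finset (Sym2 (ℤ × ℤ))) : Prop :=
  BT (k * s + s) (k * s + 2 * s) (-(k * s) - s) (-(k * s) + s) (ω ∩ edgesIn (vB s k))

/-- the staircase event -/
def Ev (s : ℤ) : ℕ → Finset (Sym2 (ℤ × ℤ)) → Prop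
  | 0, ω => hE' s 0 ω
  | k + 1, ω => (Ev s k ω ∧ vE' s k ω) ∧ hE' s (k + 1 : ℕ) ω

lemma up_Ev (s : ℤ) : ∀ k, Up (Ev s k)
  | 0 => up_inter (up_LR _ _ _ _) _
  | k + 1 => ((up_Ev s k).and (up_inter (up_BT _ _ _ _) _)).and (up_inter (up_LR _ _ _ _) _)

lemma hE'_of_Ev {s : ℤ} {ω : Finset (Sym2 (ℤ × ℤ))} : ∀ {k : ℕ}, Ev s k ω → hE' s k ω
  | 0, h => h
  | _ + 1, h => h.2

/-- the staircase contains a long path -/
theorem chain {s : ℤ} (hs : 0 < s) {ω : Finset (Sym2 (ℤ × ℤ))} : ∀ {k : ℕ}, Ev s k ω →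
    ∀ v v' : ℤ, -((k : ℤ) * s) ≤ v → v ≤ -((k : ℤ) * s) + s → -((k : ℤ) * s) ≤ v' → v' ≤ -((k : ℤ) * s) + s →
      Joined (ω ∩ edgesIn (hB s k)) ((k : ℤ) * s, v) ((k : ℤ) * s + 2 * s, v') →
      ∃ y, 0 ≤ y ∧ y ≤ s ∧ Joined ω (0, y) ((k : ℤ) * s, v)
  | 0, _, v, v', h1, h2, _, _, _ => by
    refine ⟨v, by simpa using h1, by simpa using h2, ?_⟩
    have : ((0 : ℕ) : ℤ) * s = 0 := by simp
    rw [this]
    exact joined_refl _ _
  | k + 1, h, v, v', h1, h2, h3, h4, hj => by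
    obtain ⟨⟨he, hv⟩, _⟩ := h
    obtain ⟨u, u', a1, a2, a3, a4, a5⟩ := hE'_of_Ev he
    obtain ⟨y, hy0, hys, hy⟩ := chain hs he u u' a1 a2 a3 a4 a5
    obtain ⟨x, x', b1, b2, b3, b4, b5⟩ := hv
    -- the horizontal crossing `k` meets the vertical crossing `k`
    obtain ⟨w, w1, w2⟩ := meet2 (a := (k : ℤ) * s) (b := (k : ℤ) * s + 2 * s) (a' := (k : ℤ) * s + s)
      (b' := (k : ℤ) * s + 2 * s) (c := -((k : ℤ) * s) - s) (d := -((k : ℤ) * s) + s)
      (c' := -((k : ℤ) * s)) (d' := -((k : ℤ) * s) + s) (by omega) (by omega) (by omega) (by omega) (by omega)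
      (inter_subset_right (s₁ := ω) (s₂ := edgesIn (hB s k)))
      (inter_subset_right (s₁ := ω) (s₂ := edgesIn (vB s k))) ⟨b3, b4⟩ ⟨a1, a2⟩ a5 b5
    -- the vertical crossing `k` meets the horizontal crossing `k + 1`
    have e : ((k + 1 : ℕ) : ℤ) * s = (k : ℤ) * s + s := by push_cast; ring
    have hj' := hj
    rw [e] at h1 h2 h3 h4
    obtain ⟨w', w1', w2'⟩ := meet2 (a := ((k + 1 : ℕ) : ℤ) * s) (b := ((k + 1 : ℕ) : ℤ) * s + 2 * s)
      (a' := (k : ℤ) * s + s) (b' := (k : ℤ) * s + 2 * s) (c := -((k : ℤ) * s) - s)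
      (d := -((k : ℤ) * s) + s) (c' := -(((k + 1 : ℕ) : ℤ) * s)) (d' := -(((k + 1 : ℕ) : ℤ) * s) + s)
      (by omega) (by omega) (by omega) (by omega) (by omega)
      (inter_subset_right (s₁ := ω) (s₂ := edgesIn (hB s (k + 1 : ℕ))))
      (inter_subset_right (s₁ := ω) (s₂ := edgesIn (vB s k))) ⟨b3, b4⟩ ⟨by omega, by omega⟩ hj' b5
    refine ⟨y, hy0, hys, ?_⟩
    have i1 := joined_mono (inter_subset_left (s₁ := ω) (s₂ := edgesIn (hB s k))) w1
    have i2 := joined_mono (inter_subset_left (s₁ := ω) (s₂ := edgesIn (vB s k))) w2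
    have i3 := joined_mono (inter_subset_left (s₁ := ω) (s₂ := edgesIn (vB s k))) w2'
    have i4 := joined_mono (inter_subset_left (s₁ := ω) (s₂ := edgesIn (hB s (k + 1 : ℕ)))) w1'
    exact joined_trans hy (joined_trans i1 (joined_trans (joined_symm i2) (joined_trans i3 (joined_symm i4))))

/-- a path from `w < c` to `w > d` contains a crossing -/
theorem cr_of_long {a b A B c d : ℤ} (hAc : A ≤ c) (hcd : c ≤ d) (hdB : d ≤ B)
    {ω : Finset (Sym2 (ℤ × ℤ))} (hω : ω ⊆ edgesIn (drect a b A B)) {z z' : ℤ × ℤ} (hz : z ∈ drect a b A B)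
    (h1 : z.1 - z.2 < c) (h2 : d < z'.1 - z'.2) (hj : Joined ω z z') :
    Cr c d (ω ∩ edgesIn (drect a b c d)) := by
  have hzT : z ∈ drect a b A d := by rw [mem_drect] at hz ⊢; omega
  have hzT' : z' ∉ drect a b A d := by rw [mem_drect]; omega
  obtain ⟨w, w', w1, w2, w3, w4, _, w6⟩ := joined_exit hω hj hzT hzT'
  have hw : w.1 - w.2 = d := by
    have h5 := adj_uw w4
    rw [mem_drect] at w1 w2 w3
    omega
  have hwT : w ∈ drect a b c d := by rw [mem_drect] at w1 ⊢; omega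
  have hzT2 : z ∉ drect a b c d := by rw [mem_drect]; omega
  obtain ⟨v, v', v1, v2, v3, v4, _, v6⟩ := joined_exit inter_subset_right (joined_symm w6) hwT hzT2
  have hv : v.1 - v.2 = c := by
    have h5 := adj_uw v4
    rw [mem_drect] at v1 v2 v3
    omega
  refine ⟨v, w, hv, hw, joined_mono ?_ (joined_symm v6)⟩
  exact inter_subset_inter_right inter_subset_left

lemma hB_sub {s k n : ℤ} (hs : 0 ≤ s) (hk : 0 ≤ k) (hk7 : k ≤ 7) (hn : 3 * s ≤ 2 * n) :
    hB s k ⊆ drect 0 (2 * n) (-(20 * s)) (20 * s) := by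
  intro z hz
  unfold hB at hz
  rw [mem_box] at hz
  rw [mem_drect]
  have h1 : 0 ≤ k * s := mul_nonneg hk hs
  have h2 : k * s ≤ 7 * s := mul_le_mul_of_nonneg_right hk7 hs
  omega

lemma vB_sub {s k n : ℤ} (hs : 0 ≤ s) (hk : 0 ≤ k) (hk7 : k ≤ 7) (hn : 3 * s ≤ 2 * n) :
    vB s k ⊆ drect 0 (2 * n) (-(20 * s)) (20 * s) := by
  intro z hz
  unfold vB at hz
  rw [mem_box] at hz
  rw [mem_drect]
  have h1 : 0 ≤ k * s := mul_nonneg hk hs
  have h2 : k * s ≤ 7 * s := mul_le_mul_of_nonneg_right hk7 hs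
  omega

lemma hE'_prob {s k : ℤ} {S : Finset (ℤ × ℤ)} (h : hB s k ⊆ S) : perc half S (hE' s k) = pLR (2 * s) s := by
  unfold hE'
  rw [perc_restrict h]
  unfold hB
  rw [perc_LR]
  congr 1 <;> ring

lemma vE'_prob {s k : ℤ} {S : Finset (ℤ × ℤ)} (h : vB s k ⊆ S) : perc half S (vE' s k) = pLR (2 * s) s := by
  unfold vE'
  rw [perc_restrict h]
  unfold vB
  rw [perc_BT]
  congr 1 <;> ring

theorem Ev_prob {s n : ℤ} (hs : 0 ≤ s) (hn : 3 * s ≤ 2 * n) : ∀ {k : ℕ}, k ≤ 7 →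
    pLR (2 * s) s ^ (2 * k + 1) ≤ perc half (drect 0 (2 * n) (-(20 * s)) (20 * s)) (Ev s k)
  | 0, _ => by
    have h1 := hE'_prob (hB_sub (k := 0) hs (le_refl 0) (by norm_num) hn)
    show pLR (2 * s) s ^ (2 * 0 + 1) ≤ perc half (drect 0 (2 * n) (-(20 * s)) (20 * s)) (hE' s 0)
    rw [h1]
    simp
  | k + 1, hk => by
    have ih := Ev_prob hs hn (k := k) (by omega)
    have h1 := vE'_prob (vB_sub (k := (k : ℤ)) hs (by positivity) (by exact_mod_cast (by omega : k ≤ 7)) hn)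
    have h2 := hE'_prob (hB_sub (k := ((k + 1 : ℕ) : ℤ)) hs (by positivity) (by exact_mod_cast hk) hn)
    have g1 := perc_harris (drect 0 (2 * n) (-(20 * s)) (20 * s)) (up_Ev s k)
      (up_inter (up_BT (k * s + s) (k * s + 2 * s) (-(k * s) - s) (-(k * s) + s)) (edgesIn (vB s k)))
    have g2 := perc_harris (drect 0 (2 * n) (-(20 * s)) (20 * s)) ((up_Ev s k).and
      (up_inter (up_BT (k * s + s) (k * s + 2 * s) (-(k * s) - s) (-(k * s) + s)) (edgesIn (vB s k))))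
      (up_inter (up_LR (((k + 1 : ℕ) : ℤ) * s) (((k + 1 : ℕ) : ℤ) * s + 2 * s) (-(((k + 1 : ℕ) : ℤ) * s))
        (-(((k + 1 : ℕ) : ℤ) * s) + s)) (edgesIn (hB s (k + 1 : ℕ))))
    set S := drect 0 (2 * n) (-(20 * s)) (20 * s)
    have h1' : perc half S (fun ω => BT (k * s + s) (k * s + 2 * s) (-(k * s) - s) (-(k * s) + s)
        (ω ∩ edgesIn (vB s k))) = pLR (2 * s) s := h1
    have h2' : perc half S (fun ω => LR (((k + 1 : ℕ) : ℤ) * s) (((k + 1 : ℕ) : ℤ) * s + 2 * s)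
        (-(((k + 1 : ℕ) : ℤ) * s)) (-(((k + 1 : ℕ) : ℤ) * s) + s) (ω ∩ edgesIn (hB s (k + 1 : ℕ)))) =
        pLR (2 * s) s := h2
    rw [h1'] at g1
    rw [h2'] at g2
    have h0 : 0 ≤ pLR (2 * s) s := pLR_nonneg _ _
    calc pLR (2 * s) s ^ (2 * (k + 1) + 1) = pLR (2 * s) s ^ (2 * k + 1) * pLR (2 * s) s * pLR (2 * s) s := by ring
      _ ≤ perc half S (Ev s k) * pLR (2 * s) s * pLR (2 * s) s := by gcongr
      _ ≤ _ * pLR (2 * s) s := mul_le_mul_of_nonneg_right g1 h0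
      _ ≤ _ := g2

/-- one positive probability -/
lemma P_pos (n M : ℕ) (hn : 1 ≤ n) : 0 < P n M := by
  refine lt_of_lt_of_le (by positivity : (0:ℝ) < (1/2) ^ #(edgesIn (drect 0 (2 * n) 1 (2 * M + 1))))
    (perc_half_pos _ _ ?_)
  -- zigzag path `pt 1 1, pt 2 2, pt 1 3, ...`
  have : ∀ j : ℕ, j ≤ M → Joined (edgesIn (drect 0 (2 * n) 1 (2 * M + 1))) (1, 0) ((j : ℤ) + 1, -(j : ℤ)) := by
    intro j
    induction j with
    | zero => intro _; exact joined_refl _ _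
    | succ j ih =>
      intro hj
      refine joined_trans (ih (by omega)) ?_
      have e1 : s(((j : ℤ) + 1, -(j : ℤ)), ((j : ℤ) + 1, -(j : ℤ) - 1)) ∈ edgesIn (drect 0 (2 * n) 1 (2 * M + 1)) := by
        rw [mem_edgesIn, mem_drect, mem_drect]
        simp only
        refine ⟨by omega, by omega, Or.inl ⟨rfl, ?_⟩⟩
        simp only
        rw [show -(j : ℤ) - (-(j : ℤ) - 1) = 1 by ring]
        norm_num
      have e2 : s(((j : ℤ) + 1, -(j : ℤ) - 1), ((j : ℤ) + 1 + 1, -(j : ℤ) - 1)) ∈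
          edgesIn (drect 0 (2 * n) 1 (2 * M + 1)) := by
        rw [mem_edgesIn, mem_drect, mem_drect]
        simp only
        refine ⟨by omega, by omega, Or.inr ⟨rfl, ?_⟩⟩
        simp only
        rw [show (j : ℤ) + 1 - ((j : ℤ) + 1 + 1) = -1 by ring]
        norm_num
      have h3 := joined_trans (joined_edge e1) (joined_edge e2)
      push_cast
      have e3 : -((j : ℤ) + 1) = -(j : ℤ) - 1 := by ring
      rw [e3]
      exact h3
  refine ⟨(1, 0), ((M : ℤ) + 1, -(M : ℤ)), by simp, ?_, this M le_rfl⟩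
  simp only
  ring

/-- **RSW for diagonal rectangles** (D5a) -/
theorem rsw : ∃ c : ℝ, 0 < c ∧ ∀ n : ℕ, 1 ≤ n → c ≤ P n (2 * n) := by
  obtain ⟨c, hc, h⟩ := H46.rsw_pLR 2
  refine ⟨min (c ^ 15) (P 1 2), lt_min (by positivity) (P_pos 1 2 le_rfl), fun n hn => ?_⟩
  rcases Nat.lt_or_ge n 2 with hn2 | hn2
  · have : n = 1 := by omega
    subst this
    exact min_le_right _ _
  refine (min_le_left _ _).trans ?_
  obtain ⟨s, hs⟩ : ∃ s : ℕ, s = n / 2 := ⟨_, rfl⟩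
  have hs1 : 1 ≤ s := by omega
  have h1 : c ≤ pLR (2 * s) s := by
    have := h s hs1
    exact_mod_cast this
  have h2 := Ev_prob (s := (s : ℤ)) (n := (n : ℤ)) (by omega) (by omega) (k := 7) le_rfl
  have h3 : c ^ 15 ≤ pLR (2 * s) s ^ (2 * 7 + 1) := by
    norm_num
    exact pow_le_pow_left₀ hc.le h1 15
  refine h3.trans (h2.trans ?_)
  unfold P pC
  have hsub : drect 0 (2 * (n : ℤ)) 1 (2 * ((2 * n : ℕ) : ℤ) + 1) ⊆
      drect 0 (2 * (n : ℤ)) (-(20 * (s : ℤ))) (20 * (s : ℤ)) := by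
    apply drect_mono (le_refl _) (le_refl _)
    · omega
    · push_cast; omega
  rw [← perc_restrict hsub]
  apply perc_half_mono
  intro ω hω hE
  obtain ⟨v, v', a1, a2, a3, a4, a5⟩ := hE'_of_Ev hE
  obtain ⟨y, y1, y2, y3⟩ := chain (by omega : (0 : ℤ) < s) hE v v' a1 a2 a3 a4 a5
  have hj := joined_trans y3 (joined_mono (inter_subset_left (s₁ := ω) (s₂ := edgesIn (hB s (7 : ℕ)))) a5)
  refine cr_of_long (A := -(20 * (s : ℤ))) (B := 20 * (s : ℤ)) (by omega) (by push_cast; omega)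
    (by push_cast; omega) hω (z := (0, y)) ?_ (by simp only; omega) ?_ hj
  · rw [mem_drect]
    simp only
    omega
  · simp only
    push_cast at a3 a4 ⊢
    omega

end H47Perc.RC
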