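import Pool.Agent.Rect.Perc.Dual
import Pool.Agent.Rect.Perc.Rsw
import Pool.Agent.Rect.Perc.Fekete
import Pool.Agent.Full.Perc.BK

/-!
# A path from an interval of length at most `h` of the lower side of a slab of height `h` to the upper side
has probability at most `θ < 1`, uniformly (module A7c; also for the windows of the FULL project)
-/

set_option autoImplicit false

namespace H47Perc.RC
open Finset H47Perc
open Pool.Agent.Helper69.RSW (Up)

/-- Harris' inequality for a union of increasing events -/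
lemma perc_or_le (S : Finset (ℤ × ℤ)) {A B : Finset (Sym2 (ℤ × ℤ)) → Prop} (hA : Up A) (hB : Up B) :
    perc half S (fun ω => A ω ∨ B ω) ≤ 1 - (1 - perc half S A) * (1 - perc half S B) := by
  have h1 := perc_harris S hA hB
  have h2 := Full.Perc.P_or_and (edgesIn S) A B
  rw [← Pool.Agent.Helper69.RSW.perc_half_eq, ← Pool.Agent.Helper69.RSW.perc_half_eq,
    ← Pool.Agent.Helper69.RSW.perc_half_eq, ← Pool.Agent.Helper69.RSW.perc_half_eq] at h2
  nlinarith

lemma perc_le_of_empty (S : Finset (ℤ × ℤ)) {A : Finset (Sym2 (ℤ × ℤ)) → Prop} (h : ¬ A ∅) :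
    perc half S A ≤ 1 - (1 / 2) ^ #(edgesIn S) := by
  classical
  rw [perc_half_eq]
  have h1 : #((edgesIn S).powerset.filter A) + 1 ≤ 2 ^ #(edgesIn S) := by
    rw [← card_powerset]
    have : (edgesIn S).powerset.filter A ⊆ (edgesIn S).powerset.erase ∅ := by
      intro ω hω
      rw [mem_filter] at hω
      rw [mem_erase]
      refine ⟨?_, hω.1⟩
      rintro rfl
      exact h hω.2
    have h3 := card_le_card this
    rw [card_erase_of_mem (by simp)] at h3
    have h4 : 1 ≤ #((edgesIn S).powerset) := by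
      rw [Nat.one_le_iff_ne_zero, card_ne_zero]
      exact ⟨∅, by simp⟩
    omega
  have h2 : (#((edgesIn S).powerset.filter A) : ℝ) + 1 ≤ 2 ^ #(edgesIn S) := by exact_mod_cast h1
  have hp : (0:ℝ) < 2 ^ #(edgesIn S) := by positivity
  rw [div_le_iff₀ hp, sub_mul, one_mul, ← mul_pow]
  norm_num
  linarith

lemma card_drect_le {a b c d : ℤ} {m n : ℕ} (hm : b - a + 1 ≤ m) (hn : d - c + 1 ≤ n) : #(drect a b c d) ≤ m * n := by
  have h : #(drect a b c d) ≤ #(range m ×ˢ range n) := by
    apply card_le_card_of_injOn (fun z => ((z.1 + z.2 - a).toNat, (z.1 - z.2 - c).toNat))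
    · intro z hz
      rw [mem_coe, mem_drect] at hz
      rw [mem_coe, mem_product, mem_range, mem_range]
      simp only
      omega
    · rintro ⟨x, y⟩ hz ⟨x', y'⟩ hz' he
      rw [mem_coe, mem_drect] at hz hz'
      simp only [Prod.mk.injEq] at he hz hz' ⊢
      omega
  rwa [card_product, card_range, card_range] at h

lemma card_edgesIn_le (S : Finset (ℤ × ℤ)) : #(edgesIn S) ≤ (#S + 1) * #S := by
  classical
  have h : edgesIn S ⊆ S.sym2 := by
    unfold edgesIn
    exact filter_subset _ _
  refine (card_le_card h).trans ?_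
  rw [card_sym2, Nat.choose_two_right, Nat.add_sub_cancel]
  exact Nat.div_le_self _ _

/-- crossings of rectangles which are not too wide do not happen with positive probability -/
theorem pC_le_uniform : ∃ c1 : ℝ, 0 < c1 ∧ c1 ≤ 1 ∧ ∀ a b c d : ℤ, 1 ≤ d - c → b - a ≤ 3 * (d - c) →
    pC a b c d ≤ 1 - c1 := by
  obtain ⟨c0, hc0, hr⟩ := rsw
  refine ⟨min 1 (min ((1 / 2) ^ 1640) ((c0 ^ 2) ^ 8)), by positivity, min_le_left _ _, fun a b c d h1 h2 => ?_⟩
  rcases lt_or_ge (d - c) 4 with h4 | h4
  · -- small rectangles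
    have e : #(edgesIn (drect a b c d)) ≤ 1640 := by
      have h5 : #(drect a b c d) ≤ 40 := card_drect_le (m := 10) (n := 4) (by omega) (by omega)
      have h6 := card_edgesIn_le (drect a b c d)
      calc #(edgesIn (drect a b c d)) ≤ (#(drect a b c d) + 1) * #(drect a b c d) := h6
        _ ≤ (40 + 1) * 40 := Nat.mul_le_mul (by omega) h5
        _ = 1640 := by norm_num
    have h7 : pC a b c d ≤ 1 - (1 / 2) ^ #(edgesIn (drect a b c d)) := by
      apply perc_le_of_empty
      rintro ⟨z, z', h8, h9, ⟨p⟩⟩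
      cases p with
      | nil => omega
      | cons hab p =>
        rw [SimpleGraph.fromEdgeSet_adj] at hab
        simp at hab
    have h8 : ((1:ℝ) / 2) ^ 1640 ≤ (1 / 2) ^ #(edgesIn (drect a b c d)) :=
      pow_le_pow_of_le_one (by norm_num) (by norm_num) e
    have h9 : min 1 (min (((1:ℝ) / 2) ^ 1640) ((c0 ^ 2) ^ 8)) ≤ (1 / 2) ^ 1640 :=
      (min_le_right _ _).trans (min_le_left _ _)
    linarith
  · obtain ⟨m, hm⟩ : ∃ m : ℕ, (m : ℤ) = (d - c) / 2 := ⟨((d - c) / 2).toNat, by omega⟩
    have hm2 : 2 ≤ m := by omega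
    have h5 : pC a b c d ≤ P (3 * m + 2) m := pC_le_P (by push_cast; omega) (by omega)
    have h6 := P_le_one_sub (n := 3 * m + 2) (M := m) (by omega) (by omega)
    have h7 := P_long hc0.le hr (n := m - 1) (by omega) (k := 8) (by omega)
    have h8 : P (m - 1) (8 * (m - 1)) ≤ P (m - 1) (3 * m + 2) := P_anti (by omega)
    have h9 : min 1 (min (((1:ℝ) / 2) ^ 1640) ((c0 ^ 2) ^ 8)) ≤ (c0 ^ 2) ^ 8 :=
      (min_le_right _ _).trans (min_le_right _ _)
    linarith

/-- `ω` contains a path from the interval `[i, j]` of the lower side `w = c` to the upper side `w = d` or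
to the outside of the window `(i - h, j + h)` -/
def Esc (i j c d h : ℤ) (ω : Finset (Sym2 (ℤ × ℤ))) : Prop :=
  ∃ z z' : ℤ × ℤ, z.1 - z.2 = c ∧ i ≤ z.1 + z.2 ∧ z.1 + z.2 ≤ j ∧
    (z'.1 - z'.2 = d ∨ z'.1 + z'.2 ≤ i - h ∨ j + h ≤ z'.1 + z'.2) ∧ Joined ω z z'

lemma esc_mono {i j c d h : ℤ} {ω ω' : Finset (Sym2 (ℤ × ℤ))} (hs : ω ⊆ ω') (hc : Esc i j c d h ω) :
    Esc i j c d h ω' := by
  obtain ⟨z, z', h1, h2, h3, h4, h5⟩ := hc
  exact ⟨z, z', h1, h2, h3, h4, joined_mono hs h5⟩

lemma up_Esc (i j c d h : ℤ) : Up (Esc i j c d h) := fun _ _ h h1 => esc_mono h h1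

/-- an escaping path crosses one of three rectangles -/
theorem esc_cases {i j c d h a b : ℤ} (hh : 1 ≤ h) (hcd : 1 ≤ d - c)
    {ω : Finset (Sym2 (ℤ × ℤ))} (hω : ω ⊆ edgesIn (drect a b c d)) (hE : Esc i j c d h ω) :
    Cr c d (ω ∩ edgesIn (drect (i - h) (j + h) c d)) ∨ CrU (i - h) i (ω ∩ edgesIn (drect (i - h) i c d)) ∨
      CrU j (j + h) (ω ∩ edgesIn (drect j (j + h) c d)) := by
  obtain ⟨z, z', h1, h2, h3, h4, h5⟩ := hE
  set T := drect (i - h + 1) (j + h - 1) c (d - 1) with hT
  set W := drect (i - h) (j + h) c d with hW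
  have hzT : z ∈ T := by rw [hT, mem_drect]; omega
  have hzT' : z' ∉ T := by rw [hT, mem_drect]; omega
  obtain ⟨w, w', w1, w2, w3, w4, w5, w6⟩ := joined_exit hω h5 hzT hzT'
  have hadj := adj_uw w4
  have hTW : T ⊆ W := drect_mono (by omega) (by omega) (le_refl _) (by omega)
  have hwW : w ∈ W := hTW w1
  have hwW' : w' ∈ W := by
    rw [hW, mem_drect]
    rw [hT, mem_drect] at w1
    rw [mem_drect] at w3
    omega
  -- the connection inside the window
  have hj : Joined (ω ∩ edgesIn W) z w' := by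
    refine joined_trans (joined_mono (inter_subset_inter_left (edgesIn_mono hTW)) w6) (joined_edge ?_)
    rw [mem_inter, mem_edgesIn]
    exact ⟨w5, hwW, hwW', w4⟩
  have hcase : w'.1 - w'.2 = d ∨ w'.1 + w'.2 = i - h ∨ w'.1 + w'.2 = j + h := by
    rw [hT, mem_drect] at w1 w2
    rw [mem_drect] at w3
    omega
  have hωW : ω ∩ edgesIn W ⊆ edgesIn W := inter_subset_right
  have hzW : z ∈ W := hTW hzT
  rcases hcase with hd | hd | hd
  · exact Or.inl ⟨z, w', h1, hd, hj⟩
  · right; left
    set T3 := drect (i - h) (i - 1) c d with hT3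
    have g1 : w' ∈ T3 := by rw [hT3, mem_drect]; rw [hW, mem_drect] at hwW'; omega
    have g2 : z ∉ T3 := by rw [hT3, mem_drect]; omega
    obtain ⟨v, v', v1, v2, v3, v4, v5, v6⟩ := joined_exit hωW (joined_symm hj) g1 g2
    have hadj' := adj_uw v4
    have hv' : v'.1 + v'.2 = i ∧ v' ∈ drect (i - h) i c d := by
      rw [mem_drect]
      rw [hT3, mem_drect] at v1 v2
      rw [hW, mem_drect] at v3
      omega
    have hv : v ∈ drect (i - h) i c d := by
      rw [mem_drect]
      rw [hT3, mem_drect] at v1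
      omega
    refine ⟨w', v', hd, hv'.1, joined_trans (joined_mono ?_ v6) (joined_edge ?_)⟩
    · refine (inter_subset_inter_right inter_subset_left).trans (inter_subset_inter_left (edgesIn_mono ?_))
      exact drect_mono (le_refl _) (by omega) (le_refl _) (le_refl _)
    · rw [mem_inter, mem_edgesIn]
      exact ⟨(mem_inter.1 v5).1, hv, hv'.2, v4⟩
  · right; right
    set T3 := drect (j + 1) (j + h) c d with hT3
    have g1 : w' ∈ T3 := by rw [hT3, mem_drect]; rw [hW, mem_drect] at hwW'; omega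
    have g2 : z ∉ T3 := by rw [hT3, mem_drect]; omega
    obtain ⟨v, v', v1, v2, v3, v4, v5, v6⟩ := joined_exit hωW (joined_symm hj) g1 g2
    have hadj' := adj_uw v4
    have hv' : v'.1 + v'.2 = j ∧ v' ∈ drect j (j + h) c d := by
      rw [mem_drect]
      rw [hT3, mem_drect] at v1 v2
      rw [hW, mem_drect] at v3
      omega
    have hv : v ∈ drect j (j + h) c d := by
      rw [mem_drect]
      rw [hT3, mem_drect] at v1
      omega
    refine ⟨v', w', hv'.1, hd, joined_symm (joined_trans (joined_mono ?_ v6) (joined_edge ?_))⟩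
    · refine (inter_subset_inter_right inter_subset_left).trans (inter_subset_inter_left (edgesIn_mono ?_))
      exact drect_mono (by omega) (le_refl _) (le_refl _) (le_refl _)
    · rw [mem_inter, mem_edgesIn]
      exact ⟨(mem_inter.1 v5).1, hv, hv'.2, v4⟩

/-- **the escape bound** (window form) -/
theorem esc_le : ∃ θ : ℝ, 0 ≤ θ ∧ θ < 1 ∧ ∀ a b c d i j : ℤ, 1 ≤ d - c → j - i ≤ d - c →
    perc half (drect a b c d) (Esc i j c d (d - c)) ≤ θ := by
  obtain ⟨c1, h0, h01, hp⟩ := pC_le_uniform
  refine ⟨1 - c1 ^ 3, by nlinarith [pow_le_one₀ h0.le h01 (n := 3)], by nlinarith [pow_pos h0 3], fun a b c d i j h1 h2 => ?_⟩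
  set h := d - c with hh
  by_cases hij : i ≤ j
  swap
  · have h3 : perc half (drect a b c d) (Esc i j c d h) ≤ perc half (drect a b c d) (fun _ => False) := by
      apply perc_half_mono
      rintro ω hω ⟨z, z', _, h4, h5, _⟩
      omega
    have h4 : perc half (drect a b c d) (fun _ => False) = 0 := by
      rw [perc_half_eq]
      simp
    have h5 : 0 ≤ 1 - c1 ^ 3 := by nlinarith [pow_le_one₀ h0.le h01 (n := 3)]
    linarith
  set a' := min a (i - h) with ha'
  set b' := max b (j + h) with hb'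
  have hsub : drect a b c d ⊆ drect a' b' c d :=
    drect_mono (min_le_left _ _) (le_max_left _ _) (le_refl _) (le_refl _)
  rw [← perc_restrict hsub]
  set A : Finset (Sym2 (ℤ × ℤ)) → Prop := fun ω => Cr c d (ω ∩ edgesIn (drect (i - h) (j + h) c d)) with hA
  set B : Finset (Sym2 (ℤ × ℤ)) → Prop := fun ω => CrU (i - h) i (ω ∩ edgesIn (drect (i - h) i c d)) with hB
  set C : Finset (Sym2 (ℤ × ℤ)) → Prop := fun ω => CrU j (j + h) (ω ∩ edgesIn (drect j (j + h) c d)) with hC
  have uA : Up A := fun ω ω' hs hx => cr_mono (inter_subset_inter_right hs) hx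
  have uB : Up B := fun ω ω' hs hx => crU_mono (inter_subset_inter_right hs) hx
  have uC : Up C := fun ω ω' hs hx => crU_mono (inter_subset_inter_right hs) hx
  have m1 : perc half (drect a' b' c d) (fun ω => Esc i j c d h (ω ∩ edgesIn (drect a b c d))) ≤
      perc half (drect a' b' c d) (fun ω => A ω ∨ (B ω ∨ C ω)) := by
    apply perc_half_mono
    intro ω hω hE
    exact esc_cases (by omega) (by omega) hω (esc_mono inter_subset_left hE)
  have m2 := perc_or_le (drect a' b' c d) uA (uB.or uC)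
  have m3 := perc_or_le (drect a' b' c d) uB uC
  have pA : perc half (drect a' b' c d) A ≤ 1 - c1 := by
    rw [hA, perc_restrict (drect_mono (min_le_right _ _) (le_max_right _ _) (le_refl _) (le_refl _))]
    exact hp _ _ _ _ (by omega) (by omega)
  have pB : perc half (drect a' b' c d) B ≤ 1 - c1 := by
    have hbi : i ≤ b' := by
      have := le_max_right b (j + h)
      omega
    rw [hB, perc_restrict (drect_mono (min_le_right _ _) hbi (le_refl _) (le_refl _)), perc_CrU]
    exact hp _ _ _ _ (by omega) (by omega)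
  have pC' : perc half (drect a' b' c d) C ≤ 1 - c1 := by
    have hbi : a' ≤ j := by
      have := min_le_right a (i - h)
      omega
    rw [hC, perc_restrict (drect_mono hbi (le_max_right _ _) (le_refl _) (le_refl _)), perc_CrU]
    exact hp _ _ _ _ (by omega) (by omega)
  have q1 : c1 * c1 ≤ 1 - perc half (drect a' b' c d) (fun ω => B ω ∨ C ω) := by
    have : c1 * c1 ≤ (1 - perc half (drect a' b' c d) B) * (1 - perc half (drect a' b' c d) C) :=
      mul_le_mul (by linarith) (by linarith) h0.le (by linarith)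
    linarith
  have q2 : c1 * (c1 * c1) ≤ (1 - perc half (drect a' b' c d) A) *
      (1 - perc half (drect a' b' c d) (fun ω => B ω ∨ C ω)) :=
    mul_le_mul (by linarith) q1 (by positivity) (by linarith)
  calc _ ≤ _ := m1
    _ ≤ _ := m2
    _ ≤ 1 - c1 * (c1 * c1) := by linarith
    _ = 1 - c1 ^ 3 := by ring

end H47Perc.RC
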