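import Pool.Agent.Rect.Perc.Sym
import Pool.Agent.Rect.Perc.Merge
import Pool.Agent.Helper81.Rect.Diag

/-!
The FKG inequality for the event that all upper sites are joined to the lower side, with virtual
edges between neighbouring upper sites (module D3, I-version).
-/

set_option autoImplicit false

namespace H47Perc.RC
open Finset H47Perc
open Pool.Agent.Helper69.RSW (Up)

/-- the virtual edges between the neighbouring upper sites `2k+1`, `2k+3`, `k ∈ I`, at the
height `d` -/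
def VD (d : ℤ) (I : Finset ℕ) : Finset (Sym2 (ℤ × ℤ)) :=
  I.image (fun k : ℕ => s(pt (2 * k + 1) d, pt (2 * k + 3) d))

/-- the upper sites -/
def Top (n : ℕ) (d : ℤ) (z : ℤ × ℤ) : Prop := z.1 - z.2 = d ∧ 0 ≤ z.1 + z.2 ∧ z.1 + z.2 ≤ 2 * n

/-- every upper site is joined to the lower side, with virtual edges -/
def AllV (n : ℕ) (c d : ℤ) (I : Finset ℕ) (ω : Finset (Sym2 (ℤ × ℤ))) : Prop :=
  All 0 (2 * n) c d (ω ∪ VD d I)

/-- all upper sites are joined, with virtual edges -/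
def TopV (n : ℕ) (d : ℤ) (I : Finset ℕ) (ω : Finset (Sym2 (ℤ × ℤ))) : Prop :=
  ∀ z z' : ℤ × ℤ, Top n d z → Top n d z' → Joined (ω ∪ VD d I) z z'

lemma pt_coords {u w : ℤ} (h : (u + w) % 2 = 0) :
    (pt u w).1 + (pt u w).2 = u ∧ (pt u w).1 - (pt u w).2 = w := by
  unfold pt
  simp only
  omega

lemma VD_top {n : ℕ} {d : ℤ} {I : Finset ℕ} (hd : d % 2 = 1)
    (hI : I ⊆ range (n - 1)) {u v : ℤ × ℤ} (h : s(u, v) ∈ VD d I) :
    Top n d u ∧ Top n d v := by
  unfold VD at h
  rw [mem_image] at h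
  obtain ⟨j, hj, he⟩ := h
  have h1 := mem_range.1 (hI hj)
  have e1 := pt_coords (u := 2 * (j : ℤ) + 1) (w := d) (by omega)
  have e2 := pt_coords (u := 2 * (j : ℤ) + 3) (w := d) (by omega)
  have t1 : Top n d (pt (2 * j + 1) d) := ⟨e1.2, by rw [e1.1]; omega, by rw [e1.1]; omega⟩
  have t2 : Top n d (pt (2 * j + 3) d) := ⟨e2.2, by rw [e2.1]; omega, by rw [e2.1]; omega⟩
  rw [Sym2.eq_iff] at he
  rcases he with ⟨rfl, rfl⟩ | ⟨rfl, rfl⟩
  · exact ⟨t1, t2⟩
  · exact ⟨t2, t1⟩

/-- the part of a connection after the last virtual edge is real -/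
lemma joined_split {ω W : Finset (Sym2 (ℤ × ℤ))} {T : ℤ × ℤ → Prop}
    (hW : ∀ u v, s(u, v) ∈ W → T u ∧ T v) {x z : ℤ × ℤ} (h : Joined (ω ∪ W) x z) :
    Joined ω x z ∨ ∃ y, T y ∧ Joined (ω ∪ W) x y ∧ Joined ω y z := by
  obtain ⟨p⟩ := h
  induction p with
  | nil => exact Or.inl (joined_refl _ _)
  | @cons x x1 z h1 p ih =>
    rw [SimpleGraph.fromEdgeSet_adj] at h1
    have h2 : s(x, x1) ∈ ω ∪ W := by exact_mod_cast h1.1
    rcases ih with h3 | ⟨y, hy, h3, h4⟩
    · rcases mem_union.1 h2 with h5 | h5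
      · exact Or.inl (joined_trans (joined_edge h5) h3)
      · exact Or.inr ⟨x1, (hW _ _ h5).2, joined_edge h2, h3⟩
    · exact Or.inr ⟨y, hy, joined_trans (joined_edge h2) h3, h4⟩

lemma mem_of_joined {S : Finset (ℤ × ℤ)} {ω : Finset (Sym2 (ℤ × ℤ))} (hω : ω ⊆ edgesIn S)
    {u v : ℤ × ℤ} (h : Joined ω u v) (hne : u ≠ v) : v ∈ S := by
  obtain ⟨p⟩ := joined_symm h
  cases p with
  | nil => exact absurd rfl hne
  | cons h1 p =>
    rw [SimpleGraph.fromEdgeSet_adj] at h1
    have h2 := hω (show _ ∈ ω by exact_mod_cast h1.1)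
    exact (mem_edgesIn.1 h2).1

lemma drect_eq_dbox (a b c d : ℤ) : drect a b c d = H81Rect.dbox a b c d := by
  ext z
  rw [mem_drect, H81Rect.mem_dbox]

/-- a left-right crossing and `AllV` join all upper sites -/
lemma topV_of {n : ℕ} {c d : ℤ} {I : Finset ℕ} (hcd : c ≤ d) (hd : d % 2 = 1)
    (hI : I ⊆ range (n - 1)) {ω : Finset (Sym2 (ℤ × ℤ))}
    (hω : ω ⊆ edgesIn (drect 0 (2 * n) c d)) (h1 : AllV n c d I ω) (h2 : CrU 0 (2 * n) ω) :
    TopV n d I ω := by
  obtain ⟨l, r, hl, hr, hlr⟩ := h2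
  have key : ∀ z, Top n d z → Joined (ω ∪ VD d I) z r := by
    rintro z ⟨hz1, hz2, hz3⟩
    have hn : 0 < n := by omega
    obtain ⟨z', hz', hj⟩ := h1 z hz1 hz2 hz3
    have h3 : ∃ y, Top n d y ∧ Joined (ω ∪ VD d I) z y ∧ Joined ω y z' := by
      rcases joined_split (T := Top n d) (fun u v h => VD_top hd hI h) hj with h | h
      · exact ⟨z, ⟨hz1, hz2, hz3⟩, joined_refl _ _, h⟩
      · exact h
    obtain ⟨y, ⟨hy1, hy2, hy3⟩, hzy, hyz⟩ := h3
    have hyS : y ∈ drect 0 (2 * n) c d := by rw [mem_drect]; omega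
    have hzS : z' ∈ drect 0 (2 * n) c d := by
      obtain ⟨p, -, hp⟩ := joined_walk_in hω hyS hyz
      exact hp _ p.end_mem_support
    have hne : l ≠ r := by
      rintro rfl
      omega
    have hrS : r ∈ drect 0 (2 * n) c d := mem_of_joined hω hlr hne
    rw [drect_eq_dbox] at hω hrS hzS
    have h4 := H81Rect.joined_cross hω hrS hzS hr hl hz' hy1 (joined_symm hlr) (joined_symm hyz)
    have h5 : Joined ω y r := joined_trans hyz (joined_symm h4)
    exact joined_trans hzy (joined_mono subset_union_left h5)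
  intro z z' hz hz'
  exact joined_trans (key z hz) (joined_symm (key z' hz'))

/-- joined upper sites and a bottom-top crossing -/
lemma allV_of {n : ℕ} {c d : ℤ} {I : Finset ℕ} (hcd : c < d) {ω ω' : Finset (Sym2 (ℤ × ℤ))}
    (hω : ω ⊆ edgesIn (drect 0 (2 * n) c d)) (hω' : ω' ⊆ ω) (h1 : TopV n d I ω')
    (h2 : Cr c d ω) : AllV n c d I ω := by
  obtain ⟨z0, z1, h3, h4, h5⟩ := h2
  have hne : z0 ≠ z1 := by
    rintro rfl
    omega
  have h6 := mem_of_joined hω h5 hne
  rw [mem_drect] at h6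
  intro z hz1 hz2 hz3
  refine ⟨z0, h3, ?_⟩
  have h7 := h1 z z1 ⟨hz1, hz2, hz3⟩ ⟨h4, h6.1, h6.2.1⟩
  exact joined_trans (joined_mono (union_subset_union_left hω') h7)
    (joined_mono subset_union_left (joined_symm h5))

lemma up_AllV (n : ℕ) (c d : ℤ) (I : Finset ℕ) : Up (AllV n c d I) :=
  fun _ _ h h1 => all_mono (union_subset_union_left h) h1

lemma up_TopV (n : ℕ) (d : ℤ) (I : Finset ℕ) : Up (TopV n d I) :=
  fun _ _ h h1 z z' hz hz' => joined_mono (union_subset_union_left h) (h1 z z' hz hz')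

/-! ### translation -/

lemma VD_transl (d s : ℤ) (I : Finset ℕ) :
    (VD d I).map (emb (transl (s, -s))) = VD (d + 2 * s) I := by
  ext e
  unfold VD
  simp only [mem_map, mem_image]
  have key : ∀ u : ℤ, transl (s, -s) (pt u d) = pt u (d + 2 * s) := by
    intro u
    unfold pt transl
    simp only [Equiv.coe_addRight, Prod.mk_add_mk, Prod.mk.injEq]
    omega
  constructor
  · rintro ⟨_, ⟨j, hj, rfl⟩, rfl⟩
    exact ⟨j, hj, by rw [emb_mk, key, key]⟩
  · rintro ⟨j, hj, rfl⟩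
    exact ⟨_, ⟨j, hj, rfl⟩, by rw [emb_mk, key, key]⟩

lemma allV_transl (n : ℕ) (c d s : ℤ) (I : Finset ℕ) (ω : Finset (Sym2 (ℤ × ℤ))) :
    AllV n (c + 2 * s) (d + 2 * s) I (ω.map (emb (transl (s, -s)))) ↔ AllV n c d I ω := by
  unfold AllV
  rw [← VD_transl, ← map_union]
  constructor
  · intro h z h1 h2 h3
    obtain ⟨z', h4, h5⟩ := h (transl (s, -s) z)
      (by obtain ⟨x, y⟩ := z; simp only [transl, Equiv.coe_addRight, Prod.mk_add_mk] at *; omega)
      (by obtain ⟨x, y⟩ := z; simp only [transl, Equiv.coe_addRight, Prod.mk_add_mk] at *; omega)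
      (by obtain ⟨x, y⟩ := z; simp only [transl, Equiv.coe_addRight, Prod.mk_add_mk] at *; omega)
    refine ⟨(transl (s, -s)).symm z', ?_, ?_⟩
    · obtain ⟨x, y⟩ := z'
      simp only [transl, Equiv.addRight_symm, Equiv.coe_addRight, Prod.neg_mk,
        Prod.mk_add_mk] at *
      omega
    · rw [← joined_map (f := transl (s, -s)), Equiv.apply_symm_apply]
      exact h5
  · intro h z h1 h2 h3
    obtain ⟨z', h4, h5⟩ := h ((transl (s, -s)).symm z)
      (by
        obtain ⟨x, y⟩ := z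
        simp only [transl, Equiv.addRight_symm, Equiv.coe_addRight, Prod.neg_mk,
          Prod.mk_add_mk] at *
        omega)
      (by
        obtain ⟨x, y⟩ := z
        simp only [transl, Equiv.addRight_symm, Equiv.coe_addRight, Prod.neg_mk,
          Prod.mk_add_mk] at *
        omega)
      (by
        obtain ⟨x, y⟩ := z
        simp only [transl, Equiv.addRight_symm, Equiv.coe_addRight, Prod.neg_mk,
          Prod.mk_add_mk] at *
        omega)
    refine ⟨transl (s, -s) z', ?_, ?_⟩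
    · obtain ⟨x, y⟩ := z'
      simp only [transl, Equiv.coe_addRight, Prod.mk_add_mk] at *
      omega
    · have h6 := (joined_map (f := transl (s, -s))).2 h5
      rw [Equiv.apply_symm_apply] at h6
      exact h6

lemma perc_AllV_transl (n : ℕ) (c d s : ℤ) (I : Finset ℕ) :
    perc half (drect 0 (2 * n) (c + 2 * s) (d + 2 * s)) (AllV n (c + 2 * s) (d + 2 * s) I) =
      perc half (drect 0 (2 * n) c d) (AllV n c d I) := by
  refine perc_iso (transl_iso (s, -s)) ?_ (allV_transl n c d s I)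
  rw [drect_transl]
  congr 1 <;> ring

lemma allV_iff (n M : ℕ) (I : Finset ℕ) : AllV n 1 (2 * M + 1) I = AllI n M I := by
  unfold AllV AllI VD VE
  rfl

lemma pI_eq_V (n M : ℕ) (I : Finset ℕ) :
    pI n M I = perc half (drect 0 (2 * n) 1 (2 * M + 1)) (AllV n 1 (2 * M + 1) I) := by
  rw [allV_iff]
  rfl

/-- **FKG** for the rectangle with more rows below -/
theorem fkg_I {n M M' : ℕ} (h : M ≤ M') {I : Finset ℕ} (hI : I ⊆ range (n - 1)) :
    pI n M I * P M n * P n M' ≤ pI n M' I := by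
  rcases Nat.eq_zero_or_pos M' with h0 | h0
  · subst h0
    have hM : M = 0 := by omega
    subst hM
    have h1 := P_nonneg 0 n
    have h2 := P_le_one 0 n
    have h3 := P_nonneg n 0
    have h4 := P_le_one n 0
    have h5 := pI_nonneg n 0 I
    calc pI n 0 I * P 0 n * P n 0 ≤ pI n 0 I * 1 * 1 := by
          apply mul_le_mul (mul_le_mul_of_nonneg_left h2 h5) h4 h3
          positivity
      _ = pI n 0 I := by ring
  · set s : ℤ := (M' : ℤ) - M with hs
    have hs0 : 0 ≤ s := by omega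
    -- the upper part
    have e1 : pI n M I = perc half (drect 0 (2 * n) (1 + 2 * s) (2 * M + 1 + 2 * s))
        (AllV n (1 + 2 * s) (2 * M + 1 + 2 * s) I) := by
      rw [pI_eq_V]
      exact (perc_AllV_transl n 1 (2 * M + 1) s I).symm
    have e2 : P M n = perc half (drect 0 (2 * n) (1 + 2 * s) (2 * M + 1 + 2 * s))
        (CrU 0 (2 * n)) := by
      rw [perc_CrU, ← pC_odd (a := 1 + 2 * s) (c := 0) ⟨s, by ring⟩ M n]
      congr 1 <;> ring
    have e3 : (2 * M + 1 + 2 * s : ℤ) = 2 * M' + 1 := by rw [hs]; ring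
    have hsub : drect 0 (2 * n) (1 + 2 * s) (2 * M + 1 + 2 * s) ⊆ drect 0 (2 * n) 1 (2 * M' + 1) :=
      drect_mono le_rfl le_rfl (by omega) (by omega)
    have h1 : pI n M I * P M n ≤
        perc half (drect 0 (2 * n) (1 + 2 * s) (2 * M + 1 + 2 * s)) (TopV n (2 * M' + 1) I) := by
      rw [e1, e2]
      refine (perc_harris _ (up_AllV _ _ _ _) (up_CrU _ _)).trans ?_
      apply perc_half_mono
      rintro ω hω ⟨h1, h2⟩
      rw [← e3]
      exact topV_of (by omega) (by omega) hI hω h1 h2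
    have h2 : perc half (drect 0 (2 * n) (1 + 2 * s) (2 * M + 1 + 2 * s)) (TopV n (2 * M' + 1) I) =
        perc half (drect 0 (2 * n) 1 (2 * M' + 1)) (fun ω => TopV n (2 * M' + 1) I
          (ω ∩ edgesIn (drect 0 (2 * n) (1 + 2 * s) (2 * M + 1 + 2 * s)))) :=
      (perc_restrict hsub _).symm
    have hup : Up (fun ω : Finset (Sym2 (ℤ × ℤ)) => TopV n (2 * M' + 1) I
        (ω ∩ edgesIn (drect 0 (2 * n) (1 + 2 * s) (2 * M + 1 + 2 * s)))) :=
      fun _ _ h h1 => up_TopV _ _ _ _ _ (inter_subset_inter_right h) h1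
    calc pI n M I * P M n * P n M' ≤ perc half (drect 0 (2 * n) (1 + 2 * s) (2 * M + 1 + 2 * s))
          (TopV n (2 * M' + 1) I) * P n M' := mul_le_mul_of_nonneg_right h1 (P_nonneg _ _)
      _ ≤ perc half (drect 0 (2 * n) 1 (2 * M' + 1)) (fun ω => TopV n (2 * M' + 1) I
          (ω ∩ edgesIn (drect 0 (2 * n) (1 + 2 * s) (2 * M + 1 + 2 * s))) ∧
          Cr 1 (2 * M' + 1) ω) := by
          rw [h2]
          exact perc_harris _ hup (up_Cr _ _)
      _ ≤ pI n M' I := by
          rw [pI_eq_V]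
          apply perc_half_mono
          rintro ω hω ⟨h3, h4⟩
          exact allV_of (by omega) hω inter_subset_left h3 h4

/-- `I = ∅`: the inequality D3 -/
theorem fkg_A {n M M' : ℕ} (h : M ≤ M') : pA n M * P M n * P n M' ≤ pA n M' := by
  have := fkg_I (n := n) h (I := ∅) (by simp)
  rwa [pI_empty, pI_empty] at this

end H47Perc.RC
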