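import Pool.Agent.Rect.Perc.Merge
import Pool.Agent.Helper86.Rect.AbsC

/-!
The absolute spectral sum of the rectangle: the passage from the FKG inequality for the merged events `pI`
and the spectral expansions to `∑ |γ k μ k| |d k| ^ M ≤ 1 / P M n` (`P M n` is the probability of a crossing
from wall to wall of the rectangle of `M` double rows).
-/

set_option autoImplicit false

namespace H47Perc.RC
open Finset H47Perc Filter

/-- the sum of the probabilities of the merged events -/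
noncomputable def pB (n M : ℕ) : ℝ := ∑ I ∈ (range (n - 1)).powerset, pI n M I

lemma pB_nonneg (n M : ℕ) : 0 ≤ pB n M := sum_nonneg fun I _ => pI_nonneg n M I

/-- the FKG inequality, summed over the merged events -/
lemma pB_fkg {n M M' : ℕ} (h : ∀ I, I ⊆ range (n - 1) → pI n M I * P M n * P n M' ≤ pI n M' I) :
    pB n M * P M n * P n M' ≤ pB n M' := by
  unfold pB
  rw [sum_mul, sum_mul]
  exact sum_le_sum fun I hI => h I (mem_powerset.1 hI)

/-- **the absolute spectral sum is at most `1 / P M n`** -/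
theorem abs_spec_le {ι : Type*} [Fintype ι] {n M : ℕ} {μ γ d L : ι → ℝ} {k0 : ι} (h0 : 0 < d k0)
    (hdom : ∀ k, k ≠ k0 → |d k| < d k0)
    (hμ : ∀ k, 0 ≤ μ k) (hμ0 : 0 < μ k0) (hγ0 : 0 < γ k0)
    (hL0 : 0 < L k0) (hL : ∀ k, L k0 ≤ L k) (hM : ∀ k, 0 ≤ d k ^ M) (hP : 0 < P M n)
    (hA : ∀ M' : ℕ, M ≤ M' → pA n M' = ∑ k, μ k * d k ^ M')
    (hQ : ∀ M' : ℕ, M ≤ M' → P n M' = ∑ k, γ k * μ k * d k ^ M')
    (hB : ∀ M' : ℕ, M ≤ M' → pB n M' = ∑ k, γ k ^ 2 * L k * μ k * d k ^ M')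
    (hF : ∀ M' : ℕ, M ≤ M' → ∀ I, I ⊆ range (n - 1) → pI n M I * P M n * P n M' ≤ pI n M' I) :
    ∑ k, |γ k * μ k| * |d k| ^ M ≤ 1 / P M n := by
  refine H86Rect.abs_sum_le_inv (L := L) h0 hdom hμ hμ0 hγ0 hL0 hL hM hP
    (u := pA n M * P M n) (g := pB n M * P M n) ?_ ?_ ?_ ?_
  · rw [hA M le_rfl]
  · filter_upwards [eventually_ge_atTop M] with M' hM'
    rw [← hQ M' hM', ← hA M' hM', ← pI_empty, ← pI_empty]
    exact hF M' hM' ∅ (empty_subset _)
  · rw [hB M le_rfl]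
  · filter_upwards [eventually_ge_atTop M] with M' hM'
    rw [← hQ M' hM', ← hB M' hM']
    exact pB_fkg (hF M' hM')

end H47Perc.RC
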