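import Pool.Agent.Helper47.Perc.Aspect

/-!
Diagonal rectangles of the square lattice.

Coordinates `u = x + y`, `w = x - y`.  `drect a b c d` is the set of the vertices with `a ≤ u ≤ b`,
`c ≤ w ≤ d`; the crossing is in the `w`-direction.
-/

set_option autoImplicit false

namespace H47Perc.RC
open Finset H47Perc

/-- the vertices `z` of the square lattice with `a ≤ z.1 + z.2 ≤ b` and `c ≤ z.1 - z.2 ≤ d` -/
noncomputable def drect (a b c d : ℤ) : Finset (ℤ × ℤ) :=
  (Finset.Icc (-(|a| + |b| + |c| + |d|), -(|a| + |b| + |c| + |d|))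
    (|a| + |b| + |c| + |d|, |a| + |b| + |c| + |d|)).filter
    (fun z => a ≤ z.1 + z.2 ∧ z.1 + z.2 ≤ b ∧ c ≤ z.1 - z.2 ∧ z.1 - z.2 ≤ d)

lemma mem_drect {a b c d : ℤ} {z : ℤ × ℤ} : z ∈ drect a b c d ↔
    a ≤ z.1 + z.2 ∧ z.1 + z.2 ≤ b ∧ c ≤ z.1 - z.2 ∧ z.1 - z.2 ≤ d := by
  unfold drect
  rw [mem_filter, mem_Icc, Prod.le_def, Prod.le_def]
  simp only
  constructor
  · exact fun h => h.2
  · intro h
    refine ⟨?_, h⟩
    have ha := neg_abs_le a
    have hb := le_abs_self b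
    have hc := neg_abs_le c
    have hd := le_abs_self d
    have ha' := abs_nonneg a
    have hb' := abs_nonneg b
    have hc' := abs_nonneg c
    have hd' := abs_nonneg d
    omega

/-- open crossing from the side `x - y = c` to the side `x - y = d` -/
def Cr (c d : ℤ) (ω : Finset (Sym2 (ℤ × ℤ))) : Prop :=
  ∃ z z' : ℤ × ℤ, z.1 - z.2 = c ∧ z'.1 - z'.2 = d ∧ Joined ω z z'

/-- every vertex of the side `x - y = d`, `a ≤ x + y ≤ b` is joined to the side `x - y = c` -/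
def All (a b c d : ℤ) (ω : Finset (Sym2 (ℤ × ℤ))) : Prop :=
  ∀ z : ℤ × ℤ, z.1 - z.2 = d → a ≤ z.1 + z.2 → z.1 + z.2 ≤ b →
    ∃ z' : ℤ × ℤ, z'.1 - z'.2 = c ∧ Joined ω z z'

/-- the crossing probability of the diagonal rectangle -/
noncomputable def pC (a b c d : ℤ) : ℝ := perc half (drect a b c d) (Cr c d)

/-- the crossing probability of the rectangle with `n` open sites below and above and `M` double
rows: width `2n`, height `2M`, the corners are not vertices -/
noncomputable def P (n M : ℕ) : ℝ := pC 0 (2 * n) 1 (2 * M + 1)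

/-- the probability that every upper site is joined to the lower side -/
noncomputable def pA (n M : ℕ) : ℝ :=
  perc half (drect 0 (2 * n) 1 (2 * M + 1)) (All 0 (2 * n) 1 (2 * M + 1))

lemma cr_mono {c d : ℤ} {ω ω' : Finset (Sym2 (ℤ × ℤ))} (h : ω ⊆ ω') (hc : Cr c d ω) :
    Cr c d ω' := by
  obtain ⟨z, z', h1, h2, h3⟩ := hc
  exact ⟨z, z', h1, h2, joined_mono h h3⟩

lemma all_mono {a b c d : ℤ} {ω ω' : Finset (Sym2 (ℤ × ℤ))} (h : ω ⊆ ω') (hc : All a b c d ω) :
    All a b c d ω' := by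
  intro z h1 h2 h3
  obtain ⟨z', h4, h5⟩ := hc z h1 h2 h3
  exact ⟨z', h4, joined_mono h h5⟩

lemma up_Cr (c d : ℤ) : Pool.Agent.Helper69.RSW.Up (Cr c d) := fun _ _ h h1 => cr_mono h h1

lemma up_All (a b c d : ℤ) : Pool.Agent.Helper69.RSW.Up (All a b c d) :=
  fun _ _ h h1 => all_mono h h1

lemma P_nonneg (n M : ℕ) : 0 ≤ P n M := perc_half_nonneg _ _

lemma pA_nonneg (n M : ℕ) : 0 ≤ pA n M := perc_half_nonneg _ _

end H47Perc.RC
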