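import Pool.Agent.Rect.Perc.Expect

/-!
The crossing events of the diagonal rectangle in terms of the relation dynamics.
-/

set_option autoImplicit false

namespace H47Perc.RC
open Finset H47Perc

lemma cs_of_joined {A : Set (ℤ × ℤ)} {ω : Finset (Sym2 (ℤ × ℤ))} {u v : ℤ × ℤ}
    (h : Joined ω u v) : cs A ω u v := by
  obtain ⟨p⟩ := h
  induction p with
  | nil => exact (cs A ω).refl' _
  | cons h1 _ ih =>
    rw [SimpleGraph.fromEdgeSet_adj] at h1
    exact (cs A ω).trans' (cs_edge (by exact_mod_cast h1.1)) ih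

/-- joined to the lower side -/
def JL (ω : Finset (Sym2 (ℤ × ℤ))) (z : ℤ × ℤ) : Prop := ∃ z' : ℤ × ℤ, z'.1 - z'.2 = 1 ∧ Joined ω z' z

lemma JL.of_joined {ω : Finset (Sym2 (ℤ × ℤ))} {z z' : ℤ × ℤ} (h : JL ω z) (h' : Joined ω z z') :
    JL ω z' := by
  obtain ⟨a, h1, h2⟩ := h
  exact ⟨a, h1, joined_trans h2 h'⟩

/-- joined, or both joined to the lower side -/
def loS (ω : Finset (Sym2 (ℤ × ℤ))) : Setoid (ℤ × ℤ) where
  r x y := Joined ω x y ∨ (JL ω x ∧ JL ω y)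
  iseqv := by
    refine ⟨fun x => Or.inl (joined_refl ω x), ?_, ?_⟩
    · rintro x y (h | ⟨h1, h2⟩)
      · exact Or.inl (joined_symm h)
      · exact Or.inr ⟨h2, h1⟩
    · rintro x y z (h | ⟨h1, h2⟩) (h' | ⟨h3, h4⟩)
      · exact Or.inl (joined_trans h h')
      · exact Or.inr ⟨h3.of_joined (joined_symm h), h4⟩
      · exact Or.inr ⟨h1, h2.of_joined h'⟩
      · exact Or.inr ⟨h1, h4⟩

lemma cs_lo_iff {ω : Finset (Sym2 (ℤ × ℤ))} {z : ℤ × ℤ} : cs Lo ω (1, 0) z ↔ JL ω z := by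
  constructor
  · intro h
    have hle : cs Lo ω ≤ loS ω := by
      rw [cs_le_iff]
      refine ⟨fun u v h1 => Or.inl (joined_edge h1), fun u v h1 h2 => Or.inr ⟨?_, ?_⟩⟩
      · exact ⟨u, h1, joined_refl _ _⟩
      · exact ⟨v, h2, joined_refl _ _⟩
    rcases hle h with h1 | ⟨_, h1⟩
    · exact ⟨(1, 0), by norm_num, h1⟩
    · exact h1
  · rintro ⟨z', h1, h2⟩
    exact (cs Lo ω).trans' (cs_wall (show ((1, 0) : ℤ × ℤ) ∈ Lo by show _ = _; norm_num) h1)
      (cs_of_joined h2)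

/-- the relation after `M` double rows -/
def RM (n M : ℕ) (ω : Finset (Sym2 (ℤ × ℤ))) : Rl :=
  drows IR (2 * n) (bits ω) M (fun _ _ => True)

theorem RM_iff {n M : ℕ} {ω : Finset (Sym2 (ℤ × ℤ))} (hω : ω ⊆ TE (2 * n) M) {j : ℕ}
    (hj : j % 2 = 1) (hj2 : j < 2 * n) :
    RM n M ω none (some j) ↔ JL ω (pt j (2 * M + 1)) := by
  have h := (line_inv n ω M).rel none (some j) trivial ⟨hj, hj2⟩
  rw [inter_eq_left.2 hω] at h
  unfold RM
  rw [h, ← cs_lo_iff]
  show cs Lo ω (1, 0) (pt (j : ℤ) ((2 * M + 1 : ℕ) : ℤ)) ↔ _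
  push_cast
  rfl

theorem cr_iff {n M : ℕ} (hn : 1 ≤ n) {ω : Finset (Sym2 (ℤ × ℤ))} (hω : ω ⊆ TE (2 * n) M) :
    Cr 1 (2 * M + 1) ω ↔ ∃ j : ℕ, j % 2 = 1 ∧ j < 2 * n ∧ RM n M ω none (some j) := by
  constructor
  · rintro ⟨z, z', h1, h2, h3⟩
    rcases Nat.eq_zero_or_pos M with rfl | hM
    · exact ⟨1, rfl, by omega, trivial⟩
    · have hne : z' ≠ z := by
        rintro rfl
        omega
      -- `z'` is a vertex of the rectangle
      have hmem : z' ∈ drect 0 (2 * n) 1 (2 * M + 1) := by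
        obtain ⟨p⟩ := joined_symm h3
        cases p with
        | nil => exact absurd rfl hne
        | cons h4 _ =>
          rw [SimpleGraph.fromEdgeSet_adj] at h4
          have h5 := hω (show _ ∈ ω by exact_mod_cast h4.1)
          have h6 := edgesIn_drect (2 * n) M
          push_cast at h6
          rw [← h6, mem_edgesIn] at h5
          exact h5.1
      rw [mem_drect] at hmem
      obtain ⟨j, hj⟩ : ∃ j : ℕ, (j : ℤ) = z'.1 + z'.2 := ⟨(z'.1 + z'.2).toNat, by omega⟩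
      have hj1 : j % 2 = 1 := by omega
      have hj2 : j < 2 * n := by omega
      refine ⟨j, hj1, hj2, ?_⟩
      rw [RM_iff hω hj1 hj2]
      refine ⟨z, h1, ?_⟩
      rw [hj, ← h2, pt_uw]
      exact h3
  · rintro ⟨j, hj1, hj2, hj3⟩
    rw [RM_iff hω hj1 hj2] at hj3
    obtain ⟨z, h1, h2⟩ := hj3
    exact ⟨z, _, h1, pt_w (by omega), h2⟩

theorem all_iff {n M : ℕ} {ω : Finset (Sym2 (ℤ × ℤ))} (hω : ω ⊆ TE (2 * n) M) :
    All 0 (2 * n) 1 (2 * M + 1) ω ↔
      ∀ j : ℕ, j % 2 = 1 → j < 2 * n → RM n M ω none (some j) := by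
  constructor
  · intro h j hj1 hj2
    rw [RM_iff hω hj1 hj2]
    obtain ⟨z', h1, h2⟩ := h (pt j (2 * M + 1)) (pt_w (by omega))
      (by rw [pt_u (by omega)]; omega) (by rw [pt_u (by omega)]; omega)
    exact ⟨z', h1, joined_symm h2⟩
  · intro h z h1 h2 h3
    obtain ⟨j, hj⟩ : ∃ j : ℕ, (j : ℤ) = z.1 + z.2 := ⟨(z.1 + z.2).toNat, by omega⟩
    have h4 := h j (by omega) (by omega)
    rw [RM_iff hω (by omega) (by omega)] at h4
    obtain ⟨z', h5, h6⟩ := h4
    refine ⟨z', h5, ?_⟩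
    rw [hj, ← h1, pt_uw] at h6
    exact joined_symm h6

/-- **The dictionary.**  Let the linear moves `L` on `V` and the vector `v` be such that for all bits
the vector `v' = drows L.toI (2n) bits M v` satisfies: `tot v' = 1` if some odd region is joined to
the lower side and `tot v' = 0` otherwise; then `P n M = tot (T^M v)`. -/
theorem P_eq {V : Type*} [AddCommGroup V] [Module ℝ V] (L : LInterp ℝ V) {n : ℕ} (hn : 1 ≤ n) (M : ℕ)
    (v : V) (tot : V →ₗ[ℝ] ℝ)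
    (h : ∀ b : ℕ → ℕ → Bool,
      ((∃ j : ℕ, j % 2 = 1 ∧ j < 2 * n ∧ drows IR (2 * n) b M (fun _ _ => True) none (some j)) →
        tot (drows L.toI (2 * n) b M v) = 1) ∧
      ((¬ ∃ j : ℕ, j % 2 = 1 ∧ j < 2 * n ∧ drows IR (2 * n) b M (fun _ _ => True) none (some j)) →
        tot (drows L.toI (2 * n) b M v) = 0)) :
    P n M = tot (((L.T (2 * n)) ^ M) v) := by
  have h1 := prob_eq L (2 * n) M v tot (Cr 1 (2 * M + 1)) (fun ω hω => by
    rw [cr_iff hn hω]
    exact h (bits ω))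
  unfold P pC
  push_cast at h1
  exact h1

/-- the same for the event that all upper sites are joined to the lower side -/
theorem pA_eq {V : Type*} [AddCommGroup V] [Module ℝ V] (L : LInterp ℝ V) {n : ℕ} (M : ℕ)
    (v : V) (co : V →ₗ[ℝ] ℝ)
    (h : ∀ b : ℕ → ℕ → Bool,
      ((∀ j : ℕ, j % 2 = 1 → j < 2 * n → drows IR (2 * n) b M (fun _ _ => True) none (some j)) →
        co (drows L.toI (2 * n) b M v) = 1) ∧
      ((¬ ∀ j : ℕ, j % 2 = 1 → j < 2 * n → drows IR (2 * n) b M (fun _ _ => True) none (some j)) →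
        co (drows L.toI (2 * n) b M v) = 0)) :
    pA n M = co (((L.T (2 * n)) ^ M) v) := by
  have h1 := prob_eq L (2 * n) M v co (All 0 (2 * n) 1 (2 * M + 1)) (fun ω hω => by
    rw [all_iff hω]
    exact h (bits ω))
  unfold pA
  push_cast at h1
  exact h1

end H47Perc.RC
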