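import Pool.Agent.Rect.Perc.Build

/-!
The uniform average over the tiles of the products of the tile operators is a power of the
transfer operator.
-/

set_option autoImplicit false

namespace H47Perc.RC
open Finset H47Perc

/-! ### the tiles and the edges -/

/-- the larger `x + y` of the ends of an edge -/
def eu (e : Sym2 (ℤ × ℤ)) : ℤ :=
  Sym2.lift ⟨fun a b => max (a.1 + a.2) (b.1 + b.2), fun _ _ => max_comm _ _⟩ e

/-- the smaller `x - y` of the ends of an edge -/
def ew (e : Sym2 (ℤ × ℤ)) : ℤ :=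
  Sym2.lift ⟨fun a b => min (a.1 - a.2) (b.1 - b.2), fun _ _ => min_comm _ _⟩ e

lemma eu_te (i w : ℕ) : eu (te i w) = i := by
  unfold te eu
  by_cases h : (i + w) % 2 = 0
  · rw [if_pos h, Sym2.lift_mk]
    simp only
    rw [pt_u (by omega), pt_u (by omega)]
    exact max_eq_left (by omega)
  · rw [if_neg h, Sym2.lift_mk]
    simp only
    rw [pt_u (by omega), pt_u (by omega)]
    exact max_eq_right (by omega)

lemma ew_te (i w : ℕ) : ew (te i w) = w := by
  unfold te ew
  by_cases h : (i + w) % 2 = 0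
  · rw [if_pos h, Sym2.lift_mk]
    simp only
    rw [pt_w (by omega), pt_w (by omega)]
    exact min_eq_left (by omega)
  · rw [if_neg h, Sym2.lift_mk]
    simp only
    rw [pt_w (by omega), pt_w (by omega)]
    exact min_eq_left (by omega)

lemma te_inj {i w i' w' : ℕ} (h : te i w = te i' w') : i = i' ∧ w = w' := by
  have h1 := congrArg eu h
  have h2 := congrArg ew h
  rw [eu_te, eu_te] at h1
  rw [ew_te, ew_te] at h2
  exact ⟨by exact_mod_cast h1, by exact_mod_cast h2⟩

lemma te_edge (i w : ℕ) : ∃ u v : ℤ × ℤ, te i w = s(u, v) ∧ lattice.Adj u v ∧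
    (i : ℤ) - 1 ≤ u.1 + u.2 ∧ u.1 + u.2 ≤ i ∧ (w : ℤ) ≤ u.1 - u.2 ∧ u.1 - u.2 ≤ w + 1 ∧
    (i : ℤ) - 1 ≤ v.1 + v.2 ∧ v.1 + v.2 ≤ i ∧ (w : ℤ) ≤ v.1 - v.2 ∧ v.1 - v.2 ≤ w + 1 := by
  unfold te
  by_cases h : (i + w) % 2 = 0
  · rw [if_pos h]
    refine ⟨_, _, rfl, ?_, ?_⟩
    · left
      unfold pt
      simp only
      have e1 : ((i : ℤ) + w) / 2 = ((i : ℤ) - 1 + (w + 1)) / 2 := by congr 1; ring
      have e2 : ((i : ℤ) - w) / 2 - (((i : ℤ) - 1 - (w + 1)) / 2) = 1 := by omega
      rw [e2]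
      exact ⟨e1, abs_one⟩
    · rw [pt_u (by omega), pt_u (by omega), pt_w (by omega), pt_w (by omega)]
      omega
  · rw [if_neg h]
    refine ⟨_, _, rfl, ?_, ?_⟩
    · right
      unfold pt
      simp only
      have e1 : ((i : ℤ) - 1 - w) / 2 = ((i : ℤ) - (w + 1)) / 2 := by congr 1; ring
      have e2 : ((i : ℤ) - 1 + w) / 2 - (((i : ℤ) + (w + 1)) / 2) = -1 := by omega
      rw [e2]
      exact ⟨e1, by norm_num⟩
    · rw [pt_u (by omega), pt_u (by omega), pt_w (by omega), pt_w (by omega)]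
      omega

lemma mem_TE {N M : ℕ} {e : Sym2 (ℤ × ℤ)} :
    e ∈ TE N M ↔ ∃ i w : ℕ, 1 ≤ i ∧ i ≤ N ∧ 1 ≤ w ∧ w ≤ 2 * M ∧ te i w = e := by
  unfold TE
  simp only [mem_image, mem_product, mem_Icc, Prod.exists]
  constructor
  · rintro ⟨i, w, ⟨⟨h1, h2⟩, h3, h4⟩, h5⟩
    exact ⟨i, w, h1, h2, h3, h4, h5⟩
  · rintro ⟨i, w, h1, h2, h3, h4, h5⟩
    exact ⟨i, w, ⟨⟨h1, h2⟩, h3, h4⟩, h5⟩

/-- the edges of the diagonal rectangle are the edges of the tiles -/
theorem edgesIn_drect (N M : ℕ) : edgesIn (drect 0 N 1 (2 * M + 1)) = TE N M := by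
  ext e
  rw [mem_TE]
  constructor
  · induction e using Sym2.ind with
    | _ z z' =>
      intro h
      rw [mem_edgesIn, mem_drect, mem_drect] at h
      obtain ⟨h1, h2, h3⟩ := h
      -- it is enough to treat the case where z has the smaller x + y
      wlog hlt : z.1 + z.2 < z'.1 + z'.2 generalizing z z' with H
      · obtain ⟨i, w, h4, h5, h6, h7, h8⟩ := H z' z h2 h1 h3.symm (by
          rcases h3 with ⟨h4, h5⟩ | ⟨h4, h5⟩
          · rcases abs_eq (zero_le_one) |>.1 h5 with h6 | h6 <;> omega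
          · rcases abs_eq (zero_le_one) |>.1 h5 with h6 | h6 <;> omega)
        exact ⟨i, w, h4, h5, h6, h7, by rw [h8, Sym2.eq_swap]⟩
      obtain ⟨x, y⟩ := z
      obtain ⟨x', y'⟩ := z'
      simp only at h1 h2 hlt
      rcases h3 with ⟨h4, h5⟩ | ⟨h4, h5⟩
      · -- vertical
        simp only at h4 h5
        subst h4
        have h6 : y' = y + 1 := by
          rcases abs_eq (zero_le_one) |>.1 h5 with h6 | h6 <;> omega
        subst h6
        obtain ⟨i, hi⟩ : ∃ i : ℕ, (i : ℤ) = x + (y + 1) := ⟨(x + (y + 1)).toNat, by omega⟩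
        obtain ⟨w, hw⟩ : ∃ w : ℕ, (w : ℤ) = x - (y + 1) := ⟨(x - (y + 1)).toNat, by omega⟩
        refine ⟨i, w, by omega, by omega, by omega, by omega, ?_⟩
        unfold te
        rw [if_pos (by omega), Sym2.eq_swap, hi, hw]
        congr 2
        · unfold pt
          rw [Prod.mk.injEq]
          omega
        · unfold pt
          rw [Prod.mk.injEq]
          omega
      · -- horizontal
        simp only at h4 h5
        subst h4
        have h6 : x' = x + 1 := by
          rcases abs_eq (zero_le_one) |>.1 h5 with h6 | h6 <;> omega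
        subst h6
        obtain ⟨i, hi⟩ : ∃ i : ℕ, (i : ℤ) = x + 1 + y := ⟨(x + 1 + y).toNat, by omega⟩
        obtain ⟨w, hw⟩ : ∃ w : ℕ, (w : ℤ) = x - y := ⟨(x - y).toNat, by omega⟩
        refine ⟨i, w, by omega, by omega, by omega, by omega, ?_⟩
        unfold te
        rw [if_neg (by omega), hi, hw]
        congr 2
        · unfold pt
          rw [Prod.mk.injEq]
          omega
        · unfold pt
          rw [Prod.mk.injEq]
          omega
  · rintro ⟨i, w, h1, h2, h3, h4, rfl⟩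
    obtain ⟨u, v, h5, h6, h7⟩ := te_edge i w
    rw [h5, mem_edgesIn, mem_drect, mem_drect]
    refine ⟨?_, ?_, h6⟩ <;> omega

/-! ### averages -/

section avg
variable {E : Type*} [DecidableEq E] {K V : Type*} [Field K] [AddCommGroup V] [Module K V]

/-- `g` depends only on the edges of `T`, its average over the subsets of `T` is `v` -/
structure Law (K : Type*) {V : Type*} [Field K] [AddCommGroup V] [Module K V]
    (T : Finset E) (g : Finset E → V) (v : V) : Prop where
  dep : ∀ ω, g (ω ∩ T) = g ω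
  avg : ((2 : K) ^ T.card)⁻¹ • ∑ ω ∈ T.powerset, g ω = v

lemma Law.congr {T : Finset E} {g g' : Finset E → V} {v v' : V} (h : Law K T g v)
    (h1 : ∀ ω, g ω = g' ω) (h2 : v = v') : Law K T g' v' := by
  have : g = g' := funext h1
  rw [← this, ← h2]
  exact h

lemma Law.const (v : V) : Law K (∅ : Finset E) (fun _ => v) v := ⟨fun _ => rfl, by simp⟩

lemma Law.map {T : Finset E} {g : Finset E → V} {v : V} (h : Law K T g v) (L : V →ₗ[K] V) :
    Law K T (fun ω => L (g ω)) (L v) := by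
  refine ⟨fun ω => by rw [h.dep], ?_⟩
  rw [← h.avg, map_smul, map_sum]

lemma Law.step (h2 : (2 : K) ≠ 0) {T : Finset E} {g : Finset E → V} {v : V} (h : Law K T g v)
    {e : E} (he : e ∉ T) (L : Bool → V →ₗ[K] V) :
    Law K (insert e T) (fun ω => L (decide (e ∈ ω)) (g ω))
      ((2 : K)⁻¹ • (L false v + L true v)) := by
  have hins : ∀ ω : Finset E, insert e ω ∩ T = ω ∩ T := by
    intro ω
    rw [insert_inter_of_notMem he]
  constructor
  · intro ω
    have e1 : decide (e ∈ ω ∩ insert e T) = decide (e ∈ ω) := by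
      congr 1
      simp
    rw [e1]
    congr 1
    rw [← h.dep (ω ∩ insert e T), ← h.dep ω, inter_assoc]
    congr 2
    exact inter_eq_right.2 (subset_insert _ _)
  · rw [card_insert_of_notMem he, sum_powerset_insert he]
    have h3 : ∀ ω ∈ T.powerset, L (decide (e ∈ ω)) (g ω) = L false (g ω) := by
      intro ω hω
      rw [mem_powerset] at hω
      rw [decide_eq_false (fun h4 => he (hω h4))]
    have h4 : ∀ ω ∈ T.powerset, L (decide (e ∈ insert e ω)) (g (insert e ω)) = L true (g ω) := by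
      intro ω hω
      rw [decide_eq_true (mem_insert_self e ω), ← h.dep (insert e ω), hins, h.dep]
    rw [sum_congr rfl h3, sum_congr rfl h4, ← map_sum, ← map_sum]
    have h5 : ∑ ω ∈ T.powerset, g ω = (2 : K) ^ T.card • v := by
      rw [← h.avg, smul_smul, mul_inv_cancel₀ (pow_ne_zero _ h2), one_smul]
    rw [h5, map_smul, map_smul, ← smul_add, smul_smul, pow_succ, mul_inv, mul_assoc,
      mul_comm ((2 : K)⁻¹), ← mul_assoc, inv_mul_cancel₀ (pow_ne_zero _ h2), one_mul]

end avg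

section lin
variable {K V : Type*} [Field K] [AddCommGroup V] [Module K V]

/-- linear moves -/
structure LInterp (K V : Type*) [Field K] [AddCommGroup V] [Module K V] where
  up : V →ₗ[K] V
  dn : V →ₗ[K] V
  tl : ℕ → Bool → V →ₗ[K] V

/-- the moves as functions -/
def LInterp.toI (L : LInterp K V) : Interp V := ⟨L.up, L.dn, fun i b => L.tl i b⟩

/-- the averaged tile -/
noncomputable def LInterp.X (L : LInterp K V) (i : ℕ) : V →ₗ[K] V :=
  (2 : K)⁻¹ • (L.tl i false + L.tl i true)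

/-- `X_k ... X_1` (first `X_1`) -/
noncomputable def LInterp.F (L : LInterp K V) : ℕ → V →ₗ[K] V
  | 0 => LinearMap.id
  | k + 1 => L.X (k + 1) ∘ₗ L.F k

/-- `X_1 ... X_k` (first `X_k`) -/
noncomputable def LInterp.B (L : LInterp K V) : ℕ → V →ₗ[K] V
  | 0 => LinearMap.id
  | k + 1 => L.B k ∘ₗ L.X (k + 1)

/-- the transfer operator `dn X_1 ... X_N X_N ... X_1 up` -/
noncomputable def LInterp.T (L : LInterp K V) (N : ℕ) : V →ₗ[K] V :=
  L.dn ∘ₗ L.B N ∘ₗ L.F N ∘ₗ L.up

lemma fwd_congr {σ : Type*} (I : Interp σ) {b b' : ℕ → Bool} {s : σ} : ∀ k : ℕ,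
    (∀ i, 1 ≤ i → i ≤ k → b i = b' i) → fwd I b k s = fwd I b' k s
  | 0, _ => rfl
  | k + 1, h => by
    show I.tl (k + 1) (b (k + 1)) (fwd I b k s) = I.tl (k + 1) (b' (k + 1)) (fwd I b' k s)
    rw [h (k + 1) (by omega) le_rfl, fwd_congr I k (fun i h1 h2 => h i h1 (by omega))]

lemma bwd_congr {σ : Type*} (I : Interp σ) {b b' : ℕ → Bool} : ∀ (k : ℕ) (s : σ),
    (∀ i, 1 ≤ i → i ≤ k → b i = b' i) → bwd I b k s = bwd I b' k s
  | 0, _, _ => rfl
  | k + 1, s, h => by
    show bwd I b k (I.tl (k + 1) (b (k + 1)) s) = bwd I b' k (I.tl (k + 1) (b' (k + 1)) s)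
    rw [h (k + 1) (by omega) le_rfl, bwd_congr I k _ (fun i h1 h2 => h i h1 (by omega))]

lemma Law.fwd (h2 : (2 : K) ≠ 0) (L : LInterp K V) {w : ℕ} {T : Finset (Sym2 (ℤ × ℤ))}
    {g : Finset (Sym2 (ℤ × ℤ)) → V} {v : V} (h : Law K T g v) : ∀ k : ℕ,
    (∀ i, 1 ≤ i → i ≤ k → te i w ∉ T) →
      Law K (T ∪ fT w k) (fun ω => fwd L.toI (bits ω w) k (g ω)) (L.F k v)
  | 0, _ => by
    have e : fT w 0 = ∅ := by unfold fT; simp
    rw [e, union_empty]
    exact h
  | k + 1, hk => by
    rw [fT_succ, union_insert]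
    refine ((Law.fwd h2 L h k (fun i h1 h3 => hk i h1 (by omega))).step h2 ?_
      (L.tl (k + 1))).congr (fun ω => rfl) ?_
    · rw [mem_union, not_or]
      refine ⟨hk (k + 1) (by omega) le_rfl, ?_⟩
      unfold fT
      rw [mem_image]
      rintro ⟨i, h3, h4⟩
      have := (te_inj h4).1
      rw [mem_Icc] at h3
      omega
    · show _ = L.X (k + 1) (L.F k v)
      unfold LInterp.X
      rw [LinearMap.smul_apply, LinearMap.add_apply]

lemma Law.bwd (h2 : (2 : K) ≠ 0) (L : LInterp K V) {w : ℕ} : ∀ (k : ℕ)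
    {T : Finset (Sym2 (ℤ × ℤ))} {g : Finset (Sym2 (ℤ × ℤ)) → V} {v : V}, Law K T g v →
    (∀ i, 1 ≤ i → i ≤ k → te i w ∉ T) →
      Law K (T ∪ fT w k) (fun ω => bwd L.toI (bits ω w) k (g ω)) (L.B k v)
  | 0, T, g, v, h, _ => by
    have e : fT w 0 = ∅ := by unfold fT; simp
    rw [e, union_empty]
    exact h
  | k + 1, T, g, v, h, hk => by
    have h3 := h.step h2 (hk (k + 1) (by omega) le_rfl) (L.tl (k + 1))
    have h4 := Law.bwd h2 L k h3 (fun i h1 h5 => by
      rw [mem_insert, not_or]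
      refine ⟨fun h6 => ?_, hk i h1 (by omega)⟩
      have := (te_inj h6).1
      omega)
    rw [fT_succ, union_insert, ← insert_union]
    refine h4.congr (fun ω => rfl) ?_
    show _ = L.B k (L.X (k + 1) v)
    unfold LInterp.X
    rw [LinearMap.smul_apply, LinearMap.add_apply]

/-- **the average over the tiles is a power of the transfer operator** -/
theorem law_drows (h2 : (2 : K) ≠ 0) (L : LInterp K V) (N : ℕ) (v : V) : ∀ M : ℕ,
    Law K (TE N M) (fun ω => drows L.toI N (bits ω) M v) (((L.T N) ^ M) v)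
  | 0 => by
    have e : TE N 0 = ∅ := by unfold TE; simp
    rw [e]
    exact Law.const v
  | M + 1 => by
    have h3 := (law_drows h2 L N v M).map L.up
    have h4 := h3.fwd h2 L (w := 2 * M + 1) N (fun i _ _ h5 => by
      rw [mem_TE] at h5
      obtain ⟨i', w', _, _, _, h6, h7⟩ := h5
      have := (te_inj h7).2
      omega)
    have h5 := Law.bwd h2 L (w := 2 * M + 2) N h4 (fun i _ _ h5 => by
      rw [mem_union, mem_TE] at h5
      rcases h5 with ⟨i', w', _, _, _, h6, h7⟩ | h5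
      · have := (te_inj h7).2
        omega
      · unfold fT at h5
        rw [mem_image] at h5
        obtain ⟨i', _, h7⟩ := h5
        have := (te_inj h7).2
        omega)
    have e1 : bT N (2 * M + 2) 0 = fT (2 * M + 2) N := by
      unfold bT fT
      rfl
    rw [TE_succ, e1]
    refine (h5.map L.dn).congr (fun ω => rfl) ?_
    rw [pow_succ']
    rfl

/-- probabilities as matrix elements -/
theorem prob_eq {V : Type*} [AddCommGroup V] [Module ℝ V] (L : LInterp ℝ V) (N M : ℕ) (v : V)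
    (φ : V →ₗ[ℝ] ℝ) (A : Finset (Sym2 (ℤ × ℤ)) → Prop)
    (h : ∀ ω ⊆ TE N M, (A ω → φ (drows L.toI N (bits ω) M v) = 1) ∧
      (¬ A ω → φ (drows L.toI N (bits ω) M v) = 0)) :
    perc half (drect 0 N 1 (2 * M + 1)) A = φ (((L.T N) ^ M) v) := by
  classical
  rw [Pool.Agent.Helper69.RSW.perc_half_eq, edgesIn_drect]
  have h1 := (law_drows (K := ℝ) two_ne_zero L N v M).avg
  rw [← h1, map_smul, map_sum]
  unfold Pool.Agent.Helper69.RSW.P
  rw [smul_eq_mul, div_eq_inv_mul]
  congr 1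
  rw [card_filter]
  push_cast
  apply sum_congr rfl
  intro ω hω
  rw [mem_powerset] at hω
  by_cases hA : A ω
  · rw [if_pos hA, (h ω hω).1 hA]
  · rw [if_neg hA, (h ω hω).2 hA]

end lin

end H47Perc.RC
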