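import Pool.Agent.Rect.Perc.Defs

/-!
Monotonicity and symmetries of the crossing probabilities `pC` of diagonal rectangles, and the comparison of all
integer rectangles with the rectangles of odd type.
-/

set_option autoImplicit false

namespace H47Perc.RC
open Finset H47Perc
open Pool.Agent.Helper69.RSW (P_mono P_map P_restrict P_congr Dep Up harris)

/-! ### bounds -/

lemma perc_half_true (S : Finset (ℤ × ℤ)) : perc half S (fun _ => True) = 1 := by
  rw [perc_half_eq, div_eq_one_iff_eq (by positivity)]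
  norm_cast
  rw [← card_powerset]
  congr 1
  ext x
  simp

lemma perc_half_le_one (S : Finset (ℤ × ℤ)) (A : Finset (Sym2 (ℤ × ℤ)) → Prop) :
    perc half S A ≤ 1 := by
  rw [← perc_half_true S]
  exact perc_half_mono fun _ _ _ => trivial

lemma pC_nonneg (a b c d : ℤ) : 0 ≤ pC a b c d := perc_half_nonneg _ _

lemma pC_le_one (a b c d : ℤ) : pC a b c d ≤ 1 := perc_half_le_one _ _

lemma P_le_one (n M : ℕ) : P n M ≤ 1 := pC_le_one _ _ _ _

lemma pA_le_one (n M : ℕ) : pA n M ≤ 1 := perc_half_le_one _ _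

/-! ### monotonicity -/

lemma drect_mono {a b c d a' b' c' d' : ℤ} (h1 : a ≤ a') (h2 : b' ≤ b) (h3 : c ≤ c')
    (h4 : d' ≤ d) : drect a' b' c' d' ⊆ drect a b c d := by
  intro z hz
  rw [mem_drect] at hz ⊢
  omega

lemma adj_uw {u v : ℤ × ℤ} (h : lattice.Adj u v) :
    (u.1 + u.2 = v.1 + v.2 + 1 ∨ u.1 + u.2 = v.1 + v.2 - 1) ∧
      (u.1 - u.2 = v.1 - v.2 + 1 ∨ u.1 - u.2 = v.1 - v.2 - 1) := by
  obtain ⟨x1, y1⟩ := u
  obtain ⟨x2, y2⟩ := v
  rcases h with ⟨h1, h2⟩ | ⟨h1, h2⟩ <;> simp only at h1 h2 ⊢ <;>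
    rcases (abs_eq (by norm_num)).1 h2 with h3 | h3 <;> constructor <;> omega

/-- a wider rectangle is easier to cross -/
lemma pC_width {a b c d a' b' : ℤ} (h1 : a ≤ a') (h2 : b' ≤ b) : pC a' b' c d ≤ pC a b c d := by
  unfold pC
  rw [← perc_restrict (drect_mono h1 h2 (le_refl c) (le_refl d))]
  exact perc_half_mono fun ω _ h => cr_mono inter_subset_left h

/-- a crossing of a higher rectangle contains a crossing of a lower one -/
lemma cr_top {a b c d d' : ℤ} (h2 : c ≤ d') (h3 : d' ≤ d)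
    {ω : Finset (Sym2 (ℤ × ℤ))} (hω : ω ⊆ edgesIn (drect a b c d)) (h : Cr c d ω) :
    Cr c d' (ω ∩ edgesIn (drect a b c d')) := by
  obtain ⟨z, z', hz, hz', hj⟩ := h
  rcases h3.eq_or_lt with rfl | h3
  · exact ⟨z, z', hz, hz', by rwa [inter_eq_left.2 hω]⟩
  rcases h2.eq_or_lt with rfl | h2
  · exact ⟨z, z, hz, hz, joined_refl _ _⟩
  -- `z` belongs to the rectangle
  have hzS : z ∈ drect a b c d := by
    obtain ⟨p⟩ := hj
    cases p with
    | nil => omega
    | cons hab p =>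
      rw [SimpleGraph.fromEdgeSet_adj] at hab
      exact (mem_edgesIn.1 (hω (by exact_mod_cast hab.1))).1
  have hzT : z ∈ drect a b c d' := by rw [mem_drect] at hzS ⊢; omega
  have hzT' : z' ∉ drect a b c d' := by rw [mem_drect]; omega
  obtain ⟨w, w', w1, w2, w3, w4, w5, w6⟩ := joined_exit hω hj hzT hzT'
  refine ⟨z, w, hz, ?_, w6⟩
  have h5 := adj_uw w4
  rw [mem_drect] at w1 w2 w3
  omega

lemma cr_bot {a b c d c' : ℤ} (h2 : c' ≤ d) (h3 : c ≤ c')
    {ω : Finset (Sym2 (ℤ × ℤ))} (hω : ω ⊆ edgesIn (drect a b c d)) (h : Cr c d ω) :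
    Cr c' d (ω ∩ edgesIn (drect a b c' d)) := by
  obtain ⟨z', z, hz', hz, hj⟩ := h
  replace hj := joined_symm hj
  rcases h3.eq_or_lt with rfl | h3
  · exact ⟨z', z, hz', hz, by rw [inter_eq_left.2 hω]; exact joined_symm hj⟩
  rcases h2.eq_or_lt with rfl | h2
  · exact ⟨z, z, hz, hz, joined_refl _ _⟩
  have hzS : z ∈ drect a b c d := by
    obtain ⟨p⟩ := hj
    cases p with
    | nil => omega
    | cons hab p =>
      rw [SimpleGraph.fromEdgeSet_adj] at hab
      exact (mem_edgesIn.1 (hω (by exact_mod_cast hab.1))).1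
  have hzT : z ∈ drect a b c' d := by rw [mem_drect] at hzS ⊢; omega
  have hzT' : z' ∉ drect a b c' d := by rw [mem_drect]; omega
  obtain ⟨w, w', w1, w2, w3, w4, w5, w6⟩ := joined_exit hω hj hzT hzT'
  refine ⟨w, z, ?_, hz, joined_symm w6⟩
  have h5 := adj_uw w4
  rw [mem_drect] at w1 w2 w3
  omega

lemma pC_top {a b c d d' : ℤ} (h2 : c ≤ d') (h3 : d' ≤ d) : pC a b c d ≤ pC a b c d' := by
  unfold pC
  rw [← perc_restrict (drect_mono (le_refl a) (le_refl b) (le_refl c) h3)]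
  exact perc_half_mono fun ω hω h => cr_top h2 h3 hω h

lemma pC_bot {a b c d c' : ℤ} (h2 : c' ≤ d) (h3 : c ≤ c') : pC a b c d ≤ pC a b c' d := by
  unfold pC
  rw [← perc_restrict (drect_mono (le_refl a) (le_refl b) h3 (le_refl d))]
  exact perc_half_mono fun ω hω h => cr_bot h2 h3 hω h

/-- a lower rectangle is easier to cross -/
lemma pC_height {a b c d c' d' : ℤ} (h1 : c ≤ c') (h2 : c' ≤ d') (h3 : d' ≤ d) :
    pC a b c d ≤ pC a b c' d' :=
  (pC_top (h1.trans h2) h3).trans (pC_bot h2 h1)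

/-- wider and lower rectangles are easier to cross -/
lemma pC_le {a b c d a' b' c' d' : ℤ} (ha : a' ≤ a) (hb : b ≤ b') (h1 : c ≤ c') (h2 : c' ≤ d')
    (h3 : d' ≤ d) : pC a b c d ≤ pC a' b' c' d' :=
  (pC_height h1 h2 h3).trans (pC_width ha hb)

lemma P_mono_left {n n' : ℕ} (h : n ≤ n') (M : ℕ) : P n M ≤ P n' M := by
  unfold P
  exact pC_width (le_refl 0) (by exact_mod_cast Nat.mul_le_mul_left 2 h)

lemma P_anti_right (n : ℕ) {M M' : ℕ} (h : M ≤ M') : P n M' ≤ P n M := by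
  unfold P
  apply pC_top
  · omega
  · have : (M : ℤ) ≤ M' := by exact_mod_cast h
    omega

/-! ### symmetries -/

/-- general form: a lattice automorphism that maps the rectangle onto a rectangle and respects the sides -/
lemma perc_iso {f : ℤ × ℤ ≃ ℤ × ℤ} (hf : IsIso f) {S S' : Finset (ℤ × ℤ)}
    {A A' : Finset (Sym2 (ℤ × ℤ)) → Prop} (hS : S.map f.toEmbedding = S')
    (hA : ∀ ω, A' (ω.map (emb f)) ↔ A ω) : perc half S' A' = perc half S A := by
  rw [← hS, perc_half_map hf]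
  congr 1
  funext ω
  exact propext (hA ω)

/-- crossings between vertex sets under an automorphism -/
lemma cross_iso (f : ℤ × ℤ ≃ ℤ × ℤ) (U V U' V' : ℤ × ℤ → Prop) (hU : ∀ z, U' (f z) ↔ U z)
    (hV : ∀ z, V' (f z) ↔ V z) (ω : Finset (Sym2 (ℤ × ℤ))) :
    (∃ z z', U' z ∧ V' z' ∧ Joined (ω.map (emb f)) z z') ↔ ∃ z z', U z ∧ V z' ∧ Joined ω z z' := by
  constructor
  · rintro ⟨z, z', h1, h2, h3⟩
    refine ⟨f.symm z, f.symm z', ?_, ?_, ?_⟩
    · rw [← hU]; simpa using h1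
    · rw [← hV]; simpa using h2
    · rw [← joined_map (f := f)]; simpa using h3
  · rintro ⟨z, z', h1, h2, h3⟩
    exact ⟨f z, f z', (hU z).2 h1, (hV z').2 h2, joined_map.2 h3⟩

/-- the open crossing in the other direction: from the side `x + y = a` to the side `x + y = b` -/
def CrU (a b : ℤ) (ω : Finset (Sym2 (ℤ × ℤ))) : Prop :=
  ∃ z z' : ℤ × ℤ, z.1 + z.2 = a ∧ z'.1 + z'.2 = b ∧ Joined ω z z'

lemma crU_mono {a b : ℤ} {ω ω' : Finset (Sym2 (ℤ × ℤ))} (h : ω ⊆ ω') (hc : CrU a b ω) :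
    CrU a b ω' := by
  obtain ⟨z, z', h1, h2, h3⟩ := hc
  exact ⟨z, z', h1, h2, joined_mono h h3⟩

lemma up_CrU (a b : ℤ) : Pool.Agent.Helper69.RSW.Up (CrU a b) := fun _ _ h h1 => crU_mono h h1

lemma cr_transl (c d x y : ℤ) (ω : Finset (Sym2 (ℤ × ℤ))) :
    Cr (c + (x - y)) (d + (x - y)) (ω.map (emb (transl (x, y)))) ↔ Cr c d ω := by
  refine cross_iso (transl (x, y)) (fun z => z.1 - z.2 = c) (fun z => z.1 - z.2 = d) _ _ ?_ ?_ ω
  · rintro ⟨u, v⟩; simp only [transl, Equiv.coe_addRight, Prod.mk_add_mk]; omega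
  · rintro ⟨u, v⟩; simp only [transl, Equiv.coe_addRight, Prod.mk_add_mk]; omega

lemma drect_transl (a b c d x y : ℤ) :
    (drect a b c d).map (transl (x, y)).toEmbedding =
      drect (a + (x + y)) (b + (x + y)) (c + (x - y)) (d + (x - y)) := by
  ext ⟨u, v⟩
  rw [mem_map_equiv, mem_drect, mem_drect]
  simp only [transl, Equiv.addRight_symm, Equiv.coe_addRight, Prod.neg_mk, Prod.mk_add_mk]
  omega

lemma pC_transl_xy (a b c d x y : ℤ) :
    pC (a + (x + y)) (b + (x + y)) (c + (x - y)) (d + (x - y)) = pC a b c d :=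
  perc_iso (transl_iso (x, y)) (drect_transl a b c d x y) (cr_transl c d x y)

/-- translations by `(i, j)` in the coordinates `(u, w)`, `i + j` even -/
lemma pC_transl {i j : ℤ} (h : Even (i + j)) (a b c d : ℤ) :
    pC (a + i) (b + i) (c + j) (d + j) = pC a b c d := by
  obtain ⟨x, hx⟩ := h
  have h1 : i = x + (i - x) := by ring
  have h2 : j = x - (i - x) := by linarith
  have := pC_transl_xy a b c d x (i - x)
  rwa [← h1, ← h2] at this

/-- the reflection `w → -w` -/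
lemma pC_refl_w (a b c d : ℤ) : pC a b (-d) (-c) = pC a b c d := by
  refine perc_iso transp_iso ?_ ?_
  · ext ⟨u, v⟩
    rw [mem_map_equiv, mem_drect, mem_drect]
    simp only [transp, Equiv.prodComm_symm, Equiv.prodComm_apply, Prod.swap_prod_mk]
    omega
  · intro ω
    have h := cross_iso transp (fun z => z.1 - z.2 = d) (fun z => z.1 - z.2 = c)
      (fun z => z.1 - z.2 = -d) (fun z => z.1 - z.2 = -c) (by
        rintro ⟨u, v⟩; simp only [transp, Equiv.prodComm_apply, Prod.swap_prod_mk]; omega) (by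
        rintro ⟨u, v⟩; simp only [transp, Equiv.prodComm_apply, Prod.swap_prod_mk]; omega) ω
    refine h.trans ?_
    constructor
    · rintro ⟨z, z', h1, h2, h3⟩; exact ⟨z', z, h2, h1, joined_symm h3⟩
    · rintro ⟨z, z', h1, h2, h3⟩; exact ⟨z', z, h2, h1, joined_symm h3⟩

/-- the reflection `(x, y) → (x, -y)`, which exchanges `u` and `w` -/
def flipY : ℤ × ℤ ≃ ℤ × ℤ := (Equiv.refl ℤ).prodCongr (Equiv.neg ℤ)

lemma flipY_iso : IsIso flipY := by
  rintro ⟨a, b⟩ ⟨c, d⟩
  unfold lattice flipY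
  simp only [Equiv.prodCongr_apply, Equiv.coe_refl, Prod.map_apply, id_eq, Equiv.neg_apply, neg_inj]
  have e : |(-b) - (-d)| = |b - d| := by
    rw [show (-b) - (-d) = -(b - d) by ring, abs_neg]
  rw [e]

/-- crossings in the `u`-direction -/
lemma perc_CrU (a b c d : ℤ) : perc half (drect a b c d) (CrU a b) = pC c d a b := by
  refine perc_iso flipY_iso ?_ ?_
  · ext ⟨u, v⟩
    rw [mem_map_equiv, mem_drect, mem_drect]
    simp only [flipY, Equiv.prodCongr_symm, Equiv.refl_symm, Equiv.neg_symm, Equiv.prodCongr_apply, Equiv.coe_refl,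
      Prod.map_apply, id_eq, Equiv.neg_apply]
    omega
  · intro ω
    refine cross_iso flipY (fun z => z.1 - z.2 = a) (fun z => z.1 - z.2 = b)
      (fun z => z.1 + z.2 = a) (fun z => z.1 + z.2 = b) ?_ ?_ ω
    · rintro ⟨u, v⟩
      simp only [flipY, Equiv.prodCongr_apply, Equiv.coe_refl, Prod.map_apply, id_eq, Equiv.neg_apply]
      omega
    · rintro ⟨u, v⟩
      simp only [flipY, Equiv.prodCongr_apply, Equiv.coe_refl, Prod.map_apply, id_eq, Equiv.neg_apply]
      omega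

/-- the reflection `u → -u` -/
lemma pC_refl_u (a b c d : ℤ) : pC (-b) (-a) c d = pC a b c d := by
  have hf : IsIso (transp.trans (Equiv.neg (ℤ × ℤ))) := by
    rintro ⟨a, b⟩ ⟨c, d⟩
    unfold lattice transp
    simp only [Equiv.trans_apply, Equiv.prodComm_apply, Prod.swap_prod_mk, Equiv.neg_apply, Prod.neg_mk, neg_inj]
    have e1 : |(-b) - (-d)| = |b - d| := by rw [show (-b) - (-d) = -(b - d) by ring, abs_neg]
    have e2 : |(-a) - (-c)| = |a - c| := by rw [show (-a) - (-c) = -(a - c) by ring, abs_neg]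
    rw [e1, e2]
    tauto
  refine perc_iso hf ?_ ?_
  · ext ⟨u, v⟩
    rw [mem_map_equiv, mem_drect, mem_drect]
    simp only [transp, Equiv.symm_trans_apply, Equiv.neg_symm, Equiv.neg_apply, Prod.neg_mk, Equiv.prodComm_symm,
      Equiv.prodComm_apply, Prod.swap_prod_mk]
    omega
  · intro ω
    refine cross_iso (transp.trans (Equiv.neg (ℤ × ℤ))) (fun z => z.1 - z.2 = c) (fun z => z.1 - z.2 = d)
      (fun z => z.1 - z.2 = c) (fun z => z.1 - z.2 = d) ?_ ?_ ω
    · rintro ⟨u, v⟩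
      simp only [transp, Equiv.trans_apply, Equiv.prodComm_apply, Prod.swap_prod_mk, Equiv.neg_apply, Prod.neg_mk]
      omega
    · rintro ⟨u, v⟩
      simp only [transp, Equiv.trans_apply, Equiv.prodComm_apply, Prod.swap_prod_mk, Equiv.neg_apply, Prod.neg_mk]
      omega

/-! ### rectangles of odd type -/

/-- a rectangle of odd type: `a + c` odd, sides of even length -/
lemma pC_odd {a c : ℤ} (h : Odd (a + c)) (n M : ℕ) : pC a (a + 2 * n) c (c + 2 * M) = P n M := by
  have h1 : Even (a + (c - 1)) := by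
    obtain ⟨k, hk⟩ := h
    exact ⟨k, by linarith⟩
  have := pC_transl h1 0 (2 * n) 1 (2 * M + 1)
  unfold P
  rw [← this]
  congr 1 <;> ring

/-- the left-right crossing of the rectangle of `P n M` -/
lemma perc_CrU_P (n M : ℕ) :
    perc half (drect 0 (2 * n) 1 (2 * M + 1)) (CrU 0 (2 * n)) = P M n := by
  rw [perc_CrU, ← pC_odd (a := 1) (c := 0) ⟨0, by norm_num⟩ M n]
  congr 1 <;> ring

/-- **all parities**, lower bound -/
theorem P_le_pC {a b c d : ℤ} {n m : ℕ} (hn : 2 * (n : ℤ) + 1 ≤ b - a) (hm : d - c ≤ 2 * m) (hcd : c ≤ d) :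
    P n m ≤ pC a b c d := by
  obtain ⟨a', h1, h2, h3⟩ : ∃ a' : ℤ, a ≤ a' ∧ a' ≤ a + 1 ∧ Odd (a' + c) := by
    rcases Int.even_or_odd (a + c) with h | h
    · exact ⟨a + 1, by omega, le_refl _, by
        rw [show a + 1 + c = (a + c) + 1 by ring]; exact h.add_one⟩
    · exact ⟨a, le_refl _, by omega, h⟩
  rw [← pC_odd h3 n m]
  exact pC_le h1 (by omega) (le_refl c) hcd (by omega)

/-- **all parities**, upper bound -/
theorem pC_le_P {a b c d : ℤ} {n m : ℕ} (hn : b - a + 1 ≤ 2 * (n : ℤ)) (hm : 2 * (m : ℤ) ≤ d - c) :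
    pC a b c d ≤ P n m := by
  obtain ⟨a', h1, h2, h3⟩ : ∃ a' : ℤ, a - 1 ≤ a' ∧ a' ≤ a ∧ Odd (a' + c) := by
    rcases Int.even_or_odd (a + c) with h | h
    · exact ⟨a - 1, by omega, by omega, by
        rw [show a - 1 + c = (a + c) - 1 by ring]; exact h.sub_odd odd_one⟩
    · exact ⟨a, by omega, le_refl _, h⟩
  rw [← pC_odd h3 n m]
  exact pC_le (by omega) (by omega) (le_refl c) (by omega) (by omega)

/-- (D6) every integer rectangle is sandwiched between rectangles of odd type -/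
theorem pC_sandwich {a b c d : ℤ} (h1 : 2 ≤ b - a) (h2 : 2 ≤ d - c) :
    P (((b - a) / 2).toNat - 1) (((d - c) / 2).toNat + 1) ≤ pC a b c d ∧
      pC a b c d ≤ P (((b - a) / 2).toNat + 1) (((d - c) / 2).toNat - 1) := by
  constructor
  · apply P_le_pC <;> omega
  · apply pC_le_P <;> omega

end H47Perc.RC
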